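import Pool.Graph.R_seed8.H980R2.Cont.T05

/-!
Half-infinite strips of even width, both sides wired: the functional equation of the generating
polynomial of the number of outermost arcs. The combination `RR` vanishes at the letters `t`, `t⁻¹`.
-/

set_option autoImplicit false

namespace Pool.Agent.Helper38.EW

open Pool.Agent.H988R2.Perc Pool.Agent.H980R2.Cross Pool.Agent.H980R2.Cont

/-- mass of the words whose first letter is matched with the last one, with the letters
`x, 1, pairs, 1, q² x` -/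
noncomputable def hh (x : ℂ) (us : List ℂ) : ℂ := OO (x :: 1 :: (prs us ++ [1, q^2 * x]))

/-- the factor `fac (q x)` of all the other letters -/
noncomputable def Phi (x : ℂ) (us : List ℂ) : ℂ := fac (q * x) (1 :: 1 :: prs us)

/-- the combination which vanishes at `x = t`, `x = t⁻¹` for all `t ∈ us` -/
noncomputable def RR (x : ℂ) (us : List ℂ) : ℂ :=
  (x - q) * Phi x us * hh (q * x⁻¹) us + (1 - q * x) * Phi x⁻¹ us * hh (q * x) us

theorem prs_cons (t : ℂ) (us : List ℂ) : prs (t :: us) = t :: t⁻¹ :: prs us := by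
  simp [prs]

theorem prs_length (us : List ℂ) : (prs us).length = 2 * us.length := t05_prs_length us

theorem prs_perm {us us' : List ℂ} (hp : us.Perm us') : (prs us).Perm (prs us') := by
  unfold prs
  exact hp.flatMap_right _

theorem q2q (t : ℂ) : q^2 * (q * t) = t := by
  have h := q_cube
  linear_combination t * h

theorem fac_perm (x : ℂ) {l l' : List ℂ} (h : l.Perm l') : fac x l = fac x l' := by
  unfold fac
  rw [(h.map (fun y => (x - q^2 * y) * (x * y - q^2))).prod_eq]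

theorem hh_perm {us us' : List ℂ} (hp : us.Perm us')
    (h0 : ∀ t ∈ us, t ≠ 0) (x : ℂ) : hh x us = hh x us' :=
  t05_perm hp h0 [x, 1] [1, q^2 * x] (by simp) (by simp) (by simp) (by simp)

theorem hh_inv (x t : ℂ) (us : List ℂ) : hh x (t⁻¹ :: us) = hh x (t :: us) := by
  unfold hh
  rw [prs_cons, prs_cons, inv_inv]
  have h := OO_exch_even [x, 1] (prs us ++ [1, q^2 * x]) t t⁻¹ (by simp) (by simp)
    (by simp [prs_length]; exact ⟨us.length + 1, by ring⟩) (by simp)
  simpa using h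

theorem Phi_perm (x : ℂ) {us us' : List ℂ} (hp : us.Perm us') : Phi x us = Phi x us' := by
  unfold Phi
  exact fac_perm _ (((prs_perm hp).cons _).cons _)

theorem Phi_inv (x t : ℂ) (us : List ℂ) : Phi x (t⁻¹ :: us) = Phi x (t :: us) := by
  unfold Phi
  rw [prs_cons, prs_cons, inv_inv]
  exact fac_perm _ (((List.Perm.swap _ _ _).cons _).cons _)

theorem RR_perm {us us' : List ℂ} (hp : us.Perm us')
    (h0 : ∀ t ∈ us, t ≠ 0) (x : ℂ) : RR x us = RR x us' := by
  unfold RR
  rw [hh_perm hp h0, hh_perm hp h0, Phi_perm x hp, Phi_perm x⁻¹ hp]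

theorem RR_inv (x : ℂ) (hx : x ≠ 0) (us : List ℂ) : RR x⁻¹ us = x⁻¹ * RR x us := by
  unfold RR
  rw [inv_inv]
  have h : x * x⁻¹ = 1 := mul_inv_cancel₀ hx
  linear_combination (Phi x⁻¹ us * hh (q * x) us * q - Phi x us * hh (q * x⁻¹) us) * h

theorem A_eq (t : ℂ) (us : List ℂ) :
    (q - t) * hh (q * t) (t :: us) =
      q^2 * (t - 1) * Phi t (t :: us) * OO (1 :: t⁻¹ :: (prs us ++ [1, t])) := by
  have hlen := prs_length us
  have e1 := OO_exch_zero 1 (q * t) (t :: t⁻¹ :: (prs us ++ [1, t]))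
    (by simp [hlen]; exact ⟨us.length + 2, by ring⟩) (by simp)
  have e2 := OO_rec [1] (t⁻¹ :: (prs us ++ [1, t])) (q * t) (by simp) (by simp)
    (by simp [hlen]; exact ⟨us.length + 2, by ring⟩)
  rw [q2q] at e2
  have e3 : fac (q * t) ([1] ++ (t⁻¹ :: (prs us ++ [1, t]))) = Phi t (t :: us) := by
    unfold Phi
    apply fac_perm
    rw [prs_cons]
    rw [List.singleton_append]
    apply List.Perm.cons
    calc (t⁻¹ :: (prs us ++ [1, t])).Perm (t⁻¹ :: ([1, t] ++ prs us)) :=
          List.Perm.cons _ List.perm_append_comm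
      _ = t⁻¹ :: 1 :: t :: prs us := rfl
      List.Perm _ (1 :: t⁻¹ :: t :: prs us) := List.Perm.swap _ _ _
      List.Perm _ (1 :: t :: t⁻¹ :: prs us) := List.Perm.cons _ (List.Perm.swap _ _ _)
  rw [e3] at e2
  simp only [List.singleton_append] at e2
  unfold hh
  rw [prs_cons, q2q]
  simp only [List.cons_append] at e1 e2 ⊢
  rw [e2] at e1
  have h := q_cube
  linear_combination e1 + t * h * OO (q * t :: 1 :: t :: t⁻¹ :: (prs us ++ [1, t]))

/-- the two sides of the strip reflect the letters -/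
theorem sides (t : ℂ) (us : List ℂ) (h0 : t ≠ 0) (h1 : t ≠ q) (h2 : t ≠ q^2) :
    (1 - q * t)^2 * OO (1 :: t⁻¹ :: (prs us ++ [1, t])) =
      (t - q)^2 * OO (1 :: t :: (prs us ++ [1, t⁻¹])) := by
  have hlen := prs_length us
  have hq := q_ne_zero
  have hc := q_cube
  have k1 : t - q ≠ 0 := sub_ne_zero.2 h1
  have k3 : 1 - q * t ≠ 0 := by
    intro h
    apply h2
    linear_combination (-q^2) * h - t * hc
  have hti : t * t⁻¹ = 1 := mul_inv_cancel₀ h0
  set v := prs us ++ [1, t⁻¹] with hv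
  have hvl : v.length = 2 * us.length + 2 := by simp [hv, hlen]
  have hve : Even v.length := by rw [hvl]; exact ⟨us.length + 1, by ring⟩
  have hv0 : v ≠ [] := by simp [hv]
  -- last letter
  have e1 := OO_invN t (1 :: t⁻¹ :: (prs us ++ [1])) h0
    (by simp [hlen]; exact ⟨us.length + 1, by ring⟩)
  have l1 : (1 :: t⁻¹ :: (prs us ++ [1])) ++ [t] = 1 :: t⁻¹ :: (prs us ++ [1, t]) := by simp
  have l2 : (1 :: t⁻¹ :: (prs us ++ [1])) ++ [t⁻¹] = 1 :: t⁻¹ :: v := by simp [hv]
  have l3 : (1 :: t⁻¹ :: (prs us ++ [1])).length - 1 = 2 * us.length + 2 := by simp [hlen]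
  rw [l1, l2, l3] at e1
  -- first letters
  have e2 := OO_exch_zero t⁻¹ 1 v hve hv0
  have e3 := OO_inv1 t⁻¹ (1 :: v) (inv_ne_zero h0) (by
    rw [List.length_cons]; exact hve.add_one)
  have l4 : (1 :: v).length - 1 = 2 * us.length + 2 := by simp [hvl]
  rw [l4, inv_inv] at e3
  have e4 := OO_exch_zero 1 t v hve hv0
  rw [e1]
  set γ := OO (1 :: t⁻¹ :: v)
  set β := OO (1 :: t :: v)
  set δ := OO (t :: 1 :: v)
  rw [e3] at e2
  obtain ⟨P, hP⟩ : ∃ P : ℂ, P = t^(2 * us.length + 2) := ⟨_, rfl⟩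
  have hPi : t⁻¹^(2 * us.length + 2) = P⁻¹ := by rw [hP, inv_pow]
  have hP0 : P ≠ 0 := by rw [hP]; exact pow_ne_zero _ h0
  rw [hPi] at e2
  rw [← hP]
  have hPP : P * P⁻¹ = 1 := mul_inv_cancel₀ hP0
  have f2 : (1 - q * t) * (P * γ) = (t - q) * δ := by
    apply mul_left_cancel₀ hq
    linear_combination (t * P) * e2 - (q * P * γ + q^2 * δ * P * P⁻¹) * hti + (q * t - q^2) * δ * hPP
  have f4 : (1 - q * t) * δ = (t - q) * β := by
    apply mul_left_cancel₀ hq
    linear_combination e4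
  linear_combination (1 - q * t) * f2 + (t - q) * f4

theorem RR_root (t : ℂ) (us : List ℂ) (h0 : t ≠ 0) (h1 : t ≠ q) (h2 : t ≠ q^2) :
    RR t (t :: us) = 0 := by
  have A := A_eq t us
  have B := A_eq t⁻¹ us
  rw [hh_inv, Phi_inv, inv_inv] at B
  have S := sides t us h0 h1 h2
  unfold RR
  set α := OO (1 :: t⁻¹ :: (prs us ++ [1, t]))
  set β := OO (1 :: t :: (prs us ++ [1, t⁻¹]))
  set a := hh (q * t) (t :: us)
  set b := hh (q * t⁻¹) (t :: us)
  set F := Phi t (t :: us)
  set F' := Phi t⁻¹ (t :: us)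
  have hc := q_cube
  have k1 : t - q ≠ 0 := sub_ne_zero.2 h1
  have k3 : 1 - q * t ≠ 0 := by
    intro h
    apply h2
    linear_combination (-q^2) * h - t * hc
  have hti : t * t⁻¹ = 1 := mul_inv_cancel₀ h0
  have eB : (1 - q * t) * b = q^2 * (t - 1) * F' * β := by
    linear_combination -t * B - (b + q^2 * F' * β) * hti
  have k13 : (1 - q * t) * (t - q) ≠ 0 := mul_ne_zero k3 k1
  apply mul_left_cancel₀ k13
  rw [mul_zero]
  linear_combination (t - q)^2 * F * eB - (1 - q * t)^2 * F' * A - q^2 * (t - 1) * F * F' * S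

theorem hh_q (us : List ℂ) : hh q us = 0 := by
  have hl : Even (prs us ++ [1, q^2 * q]).length := by
    rw [List.length_append, prs_length]
    exact (even_two_mul _).add (by simp)
  have h := OO_exch_zero 1 q (prs us ++ [1, q^2 * q]) hl (by simp)
  have h2 : (q * q - q^2 * 1 : ℂ) = 0 := by ring
  have h3 : (q * 1 - q^2 * q : ℂ) ≠ 0 := by
    have : (q * 1 - q^2 * q : ℂ) = q - 1 := by linear_combination -q_cube
    rw [this]
    exact sub_ne_zero.2 q_ne_one
  rw [h2, zero_mul] at h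
  exact (mul_eq_zero.1 h).resolve_left h3

theorem RR_one (us : List ℂ) : RR 1 us = 0 := by
  unfold RR
  rw [inv_one, mul_one, hh_q us]
  ring

theorem RR_mem (us : List ℂ) (hus : ∀ u ∈ us, u ≠ 0)
    (t : ℂ) (ht : t ∈ us) (h1 : t ≠ q) (h2 : t ≠ q^2) :
    RR t us = 0 ∧ RR t⁻¹ us = 0 := by
  have h0 : t ≠ 0 := hus t ht
  have hr : RR t us = 0 := by
    rw [RR_perm (List.perm_cons_erase ht) hus t]
    exact RR_root t (us.erase t) h0 h1 h2
  exact ⟨hr, by rw [RR_inv t h0 us, hr, mul_zero]⟩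

end Pool.Agent.Helper38.EW
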