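import Pool.Agent.Helper38.EW.A1
import Pool.Graph.R_seed8.H731R6.Bc.H1a
import Pool.Graph.R_seed8.H731R6.Bc.H1b
import Pool.Graph.R_seed8.H980R2.Cont.T06
import Pool.Graph.R_seed8.H980R2.Cont.T07

/-!
Order of vanishing of `RR x (1, …, 1)` at `x = 1`.
-/

set_option autoImplicit false

namespace Pool.Agent.Helper38.EW

open Pool.Agent.H988R2.Perc hiding X
open Pool.Agent.H980R2.Cross
open Pool.Agent.H980R2.Cont (OO prs OO_pd)
open Pool.Agent.H980R2
open Polynomial

/-- polynomial function on the nonzero numbers, of degree `≤ d` -/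
def PB (d : ℕ) (f : ℂ → ℂ) : Prop :=
  ∃ P : ℂ[X], P.natDegree ≤ d ∧ ∀ x : ℂ, x ≠ 0 → P.eval x = f x

theorem PB.mul {d e : ℕ} {f g : ℂ → ℂ} (hf : PB d f) (hg : PB e g) :
    PB (d + e) (fun x => f x * g x) := by
  obtain ⟨P, h1, h2⟩ := hf
  obtain ⟨Q, h3, h4⟩ := hg
  exact ⟨P * Q, natDegree_mul_le.trans (by omega), fun x hx => by rw [eval_mul, h2 x hx, h4 x hx]⟩

theorem PB.add {d e k : ℕ} {f g : ℂ → ℂ} (hf : PB d f) (hg : PB e g) (hd : d ≤ k) (he : e ≤ k) :
    PB k (fun x => f x + g x) := by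
  obtain ⟨P, h1, h2⟩ := hf
  obtain ⟨Q, h3, h4⟩ := hg
  refine ⟨P + Q, ?_, fun x hx => by rw [eval_add, h2 x hx, h4 x hx]⟩
  exact natDegree_add_le_of_degree_le (h1.trans hd) (h3.trans he)

theorem PB.congr {d : ℕ} {f g : ℂ → ℂ} (hf : PB d f) (h : ∀ x, x ≠ 0 → g x = f x) : PB d g := by
  obtain ⟨P, h1, h2⟩ := hf
  exact ⟨P, h1, fun x hx => by rw [h2 x hx, h x hx]⟩

theorem PB.pow (k : ℕ) : PB k (fun x => x ^ k) :=
  ⟨X ^ k, natDegree_X_pow_le k, fun x _ => by simp⟩

theorem PB.refl {d : ℕ} (P : ℂ[X]) (hP : P.natDegree ≤ d) :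
    PB d (fun x => x ^ d * P.eval x⁻¹) := by
  refine ⟨∑ i ∈ Finset.range (d + 1), C (P.coeff i) * X ^ (d - i), ?_, fun x hx => ?_⟩
  · refine natDegree_sum_le_of_forall_le _ _ fun i hi => ?_
    exact (natDegree_C_mul_X_pow_le _ _).trans (by omega)
  · show _ = x ^ d * P.eval x⁻¹
    rw [eval_finsetSum, eval_eq_sum_range' (show P.natDegree < d + 1 by omega), Finset.mul_sum]
    refine Finset.sum_congr rfl fun i hi => ?_
    have hi' : i ≤ d := by
      have := Finset.mem_range.1 hi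
      omega
    simp only [eval_mul, eval_C, eval_pow, eval_X]
    have e : x ^ d = x ^ (d - i) * x ^ i := by
      rw [← pow_add, Nat.sub_add_cancel hi']
    rw [e, inv_pow]
    field_simp

/-- substitution of univariate polynomials for all variables, with the degree -/
theorem curve {N d e : ℕ} {F : List ℂ → ℂ} (hF : PD N d F) (P : List ℂ[X])
    (h : P.length = N) (he : ∀ p ∈ P, p.natDegree ≤ e) :
    ∃ Q : ℂ[X], Q.natDegree ≤ N * (d * e) ∧ ∀ x, F (P.map (fun p => p.eval x)) = Q.eval x := by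
  obtain ⟨p, hp, hp'⟩ := hF
  refine ⟨MvPolynomial.aeval (fun i : Fin N => P.getD i 0) p, ?_, ?_⟩
  · refine (natDegree_aeval_le p hp _ (fun _ => e) fun i => ?_).trans ?_
    · rw [List.getD_eq_getElem?_getD]
      rcases hc : P[(i : ℕ)]? with _ | a
      · simp
      · exact he a (List.mem_of_getElem? hc)
    · rw [Finset.sum_const, Finset.card_univ, Fintype.card_fin, smul_eq_mul]
  intro x
  rw [eval_aeval_poly, hp' _ (by rw [List.length_map, h])]
  congr 2
  funext i
  rw [List.getD_eq_getElem?_getD, List.getD_eq_getElem?_getD, List.getElem?_map]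
  cases P[(i : ℕ)]? <;> simp

/-- `hh` is a polynomial -/
theorem hh_poly (us : List ℂ) :
    ∃ A : ℂ[X], A.natDegree ≤ (2 * us.length + 4) * (2 * us.length + 2) ∧
      ∀ x, hh x us = A.eval x := by
  have hlen := prs_length us
  obtain ⟨Q, h1, h2⟩ := curve (e := 1) (OO_pd (2 * us.length + 4) ⟨us.length + 2, by ring⟩)
    (X :: C 1 :: ((prs us).map C ++ [C 1, C (q^2) * X])) (by
      simp only [List.length_cons, List.length_append, List.length_map, hlen, List.length_nil]) (by
      intro p hp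
      simp only [List.mem_cons, List.mem_append, List.mem_map, List.not_mem_nil, or_false] at hp
      rcases hp with rfl | rfl | ⟨y, -, rfl⟩ | rfl | rfl
      · exact natDegree_X_le
      · rw [natDegree_C]; omega
      · rw [natDegree_C]; omega
      · rw [natDegree_C]; omega
      · exact (natDegree_C_mul_le _ _).trans natDegree_X_le)
  refine ⟨Q, h1.trans (le_of_eq ?_), fun x => ?_⟩
  · rw [mul_one]
    rfl
  · rw [← h2 x]
    unfold hh
    simp [List.map_append, List.map_map, Function.comp_def]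

theorem Phi_poly (us : List ℂ) :
    ∃ B : ℂ[X], B.natDegree ≤ 4 * us.length + 4 ∧ ∀ x, Phi x us = B.eval x := by
  have key : ∀ l : List ℂ, ∃ B : ℂ[X], B.natDegree ≤ 2 * l.length ∧
      ∀ x, (l.map (fun y => (q * x - q^2 * y) * (q * x * y - q^2))).prod = B.eval x := by
    intro l
    induction l with
    | nil => exact ⟨1, by simp, fun x => by simp⟩
    | cons a l ih =>
      obtain ⟨B, h1, h2⟩ := ih
      refine ⟨((C q * X - C (q^2 * a)) * (C (q * a) * X - C (q^2))) * B, ?_, fun x => ?_⟩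
      · refine natDegree_mul_le.trans ?_
        have h3 : ((C q * X - C (q^2 * a)) * (C (q * a) * X - C (q^2)) : ℂ[X]).natDegree ≤ 2 := by
          compute_degree
        rw [List.length_cons]
        omega
      · rw [List.map_cons, List.prod_cons, h2 x]
        simp only [eval_mul, eval_sub, eval_C, eval_X]
        ring
  obtain ⟨B, h1, h2⟩ := key (1 :: 1 :: prs us)
  refine ⟨B, ?_, fun x => ?_⟩
  · simp only [List.length_cons, prs_length] at h1
    omega
  · unfold Phi fac
    rw [h2 x]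

theorem RR_poly (m : ℕ) : ∃ K d : ℕ, ∀ us : List ℂ,
    us.length = m → ∃ P : ℂ[X], P.natDegree ≤ d ∧ ∀ x : ℂ, x ≠ 0 → P.eval x = x^K * RR x us := by
  obtain ⟨D, hD⟩ : ∃ D, D = (2 * m + 4) * (2 * m + 2) := ⟨_, rfl⟩
  obtain ⟨E, hE⟩ : ∃ E, E = 4 * m + 4 := ⟨_, rfl⟩
  refine ⟨D + E, 1 + 2 * D + 2 * E, fun us hus => ?_⟩
  obtain ⟨A, hA1, hA2⟩ := hh_poly us
  obtain ⟨B, hB1, hB2⟩ := Phi_poly us
  rw [hus, ← hD] at hA1
  rw [hus, ← hE] at hB1
  have hq : (C q * X : ℂ[X]).natDegree ≤ 1 := (natDegree_C_mul_le _ _).trans natDegree_X_le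
  have hAq : (A.comp (C q * X)).natDegree ≤ D := by
    refine natDegree_comp_le.trans ?_
    calc A.natDegree * (C q * X : ℂ[X]).natDegree ≤ D * 1 := Nat.mul_le_mul hA1 hq
      _ = D := mul_one D
  have a1 : PB D (fun x => hh (q * x) us) :=
    ⟨A.comp (C q * X), hAq, fun x _ => by
      show _ = hh (q * x) us
      rw [hA2, eval_comp, eval_mul, eval_C, eval_X]⟩
  have a2 : PB D (fun x => x ^ D * hh (q * x⁻¹) us) :=
    (PB.refl (A.comp (C q * X)) hAq).congr fun x _ => by
      rw [hA2, eval_comp, eval_mul, eval_C, eval_X]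
  have b1 : PB E (fun x => Phi x us) := ⟨B, hB1, fun x _ => (hB2 x).symm⟩
  have b2 : PB E (fun x => x ^ E * Phi x⁻¹ us) :=
    (PB.refl B hB1).congr fun x _ => by rw [hB2]
  have c1 : PB 1 (fun x => (x - q)) :=
    ⟨(X - C q), by compute_degree, fun x _ => by simp⟩
  have c2 : PB 1 (fun x => (1 - q * x)) :=
    ⟨(1 - C q * X), by compute_degree, fun x _ => by simp⟩
  have t1 := ((c1.mul b1).mul a2).mul (PB.pow E)
  have t2 := ((c2.mul b2).mul a1).mul (PB.pow D)
  have t := (t1.add t2 (k := 1 + 2 * D + 2 * E) (by omega) (by omega))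
  obtain ⟨P, hP1, hP2⟩ := t
  refine ⟨P, hP1, fun x hx => ?_⟩
  rw [hP2 x hx]
  unfold RR
  rw [pow_add]
  ring

/-! ### continuity in the letters -/

open Filter Topology

/-- the letters -/
noncomputable def u (a : ℕ) (s : ℂ) : ℂ := 1 + ((a : ℂ) + 1) * s

/-- the letters `1 + s, 1 + 2 s, …, 1 + m s` -/
noncomputable def usl (m : ℕ) (s : ℂ) : List ℂ := (List.range m).map (fun a => 1 + ((a : ℂ) + 1) * s)

theorem usl_eq (m : ℕ) (s : ℂ) :
    usl m s = Cont.T07.us ((List.range m).map (fun a : ℕ => (a : ℂ) + 1)) s := by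
  have e : (do let a ← List.range m; pure (a : ℂ)) = (List.range m).map (fun a : ℕ => (a : ℂ)) := by
    rw [bind_pure_comp, List.map_eq_map]
  unfold usl Cont.T07.us
  rw [e, List.map_map, List.map_map]
  rfl

theorem CL_prs0 (l : List ℂ) :
    Cont.T07.CL (fun s => prs (Cont.T07.us l s)) (2 * l.length) 0 := by
  induction l with
  | nil => exact Cont.T07.CL.nil 0
  | cons a l ih =>
    have := (ih.cons (Cont.T07.cont_ti a)).cons (Cont.T07.cont_t a)
    have e : 2 * (a :: l).length = 2 * l.length + 1 + 1 := by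
      rw [List.length_cons]
      ring
    rw [e]
    exact this

theorem cont_prod {L : ℂ → List ℂ} {N : ℕ} {t : ℂ} (h : Cont.T07.CL L N t) {g : ℂ → ℂ}
    (hg : Continuous g) : ContinuousAt (fun s => ((L s).map g).prod) t := by
  have h2 : ∀ s, (List.ofFn fun i : Fin N => (L s).getD (i : ℕ) 0) = L s := by
    intro s
    apply List.ext_getElem
    · rw [List.length_ofFn, h.1 s]
    · intro i hi1 hi2
      rw [List.getElem_ofFn, List.getD_eq_getElem _ _ hi2]
  have h3 : (fun s => ((L s).map g).prod) =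
      fun s => ∏ i : Fin N, g ((L s).getD (i : ℕ) 0) := by
    funext s
    conv_lhs => rw [← h2 s]
    rw [List.map_ofFn, List.prod_ofFn]
    rfl
  rw [h3]
  exact tendsto_finsetProd _ fun i _ => (hg.continuousAt.comp (h.2 (i : ℕ)))

theorem RR_cont (m : ℕ) (x : ℂ) :
    ContinuousAt (fun s => RR x (usl m s)) 0 := by
  have hP : Cont.T07.CL (fun s => prs (usl m s))
      (2 * ((List.range m).map (fun a : ℕ => (a : ℂ) + 1)).length) 0 := by
    simp only [usl_eq]
    exact CL_prs0 _
  have hP2 : ∀ b : ℂ, Cont.T07.CL (fun s => prs (usl m s) ++ [1, b])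
      (2 * ((List.range m).map (fun a : ℕ => (a : ℂ) + 1)).length + 2) 0 := by
    intro b
    simp only [usl_eq]
    exact Cont.T07.CL_prs _ 1 b
  have hh1 : ∀ y : ℂ, ContinuousAt (fun s => hh y (usl m s)) 0 := by
    intro y
    have h := ((hP2 (q^2 * y)).cons (f := fun _ => (1:ℂ)) continuousAt_const).cons
      (f := fun _ => y) continuousAt_const
    exact h.comp (OO_pd _ ⟨((List.range m).map (fun a : ℕ => (a : ℂ) + 1)).length + 2, by ring⟩)
  have hF : ∀ y : ℂ, ContinuousAt (fun s => Phi y (usl m s)) 0 := by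
    intro y
    have h := (hP.cons (f := fun _ => (1:ℂ)) continuousAt_const).cons
      (f := fun _ => (1:ℂ)) continuousAt_const
    unfold Phi fac
    exact (cont_prod (g := fun z => (q * y - q^2 * z) * (q * y * z - q^2)) h (by fun_prop))
  unfold RR
  exact (((continuousAt_const.mul (hF x)).mul (hh1 _)).add
    ((continuousAt_const.mul (hF x⁻¹)).mul (hh1 _)))

/-! ### the roots -/

theorem u_zero (a : ℕ) : u a 0 = 1 := by simp [u]

theorem u_cont (a : ℕ) : Continuous (u a) := by unfold u; fun_prop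

/-- the roots -/
noncomputable def rs (m : ℕ) : List (ℂ → ℂ) :=
  (fun _ => 1) :: (List.range m).flatMap (fun a => [u a, fun s => (u a s)⁻¹])

theorem rs_length (m : ℕ) : (rs m).length = 2 * m + 1 := by
  unfold rs
  rw [List.length_cons, List.length_flatMap]
  simp [mul_comm]

theorem mem_rs {m : ℕ} {r : ℂ → ℂ} (h : r ∈ rs m) :
    r = (fun _ => 1) ∨ ∃ a < m, r = u a ∨ r = fun s => (u a s)⁻¹ := by
  unfold rs at h
  rw [List.mem_cons, List.mem_flatMap] at h
  rcases h with h | ⟨a, ha, h⟩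
  · exact Or.inl h
  · refine Or.inr ⟨a, List.mem_range.1 ha, ?_⟩
    simpa using h

theorem u_ne_one {s : ℂ} (hs : s ≠ 0) (a : ℕ) : u a s ≠ 1 := by
  intro h
  unfold u at h
  have h1 : ((a : ℂ) + 1) * s = 0 := by linear_combination h
  rcases mul_eq_zero.1 h1 with h2 | h2
  · exact Nat.cast_add_one_ne_zero a h2
  · exact hs h2

theorem u_inj {s : ℂ} (hs : s ≠ 0) {a b : ℕ} (h : u a s = u b s) : a = b := by
  unfold u at h
  have h1 : ((a : ℂ) - b) * s = 0 := by linear_combination h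
  rcases mul_eq_zero.1 h1 with h2 | h2
  · exact_mod_cast sub_eq_zero.1 h2
  · exact absurd h2 hs

theorem ev_mul (a b : ℕ) : ∀ᶠ s in 𝓝[≠] (0:ℂ), u a s * u b s ≠ 1 := by
  have h1 : ContinuousAt (fun s : ℂ => ((a : ℂ) + b + 2) + ((a : ℂ) + 1) * (b + 1) * s) 0 := by
    fun_prop
  have h2 : (fun s : ℂ => ((a : ℂ) + b + 2) + ((a : ℂ) + 1) * (b + 1) * s) 0 ≠ 0 := by
    show ((a : ℂ) + b + 2) + ((a : ℂ) + 1) * (b + 1) * 0 ≠ 0
    rw [mul_zero, add_zero]
    have : ((a + b + 2 : ℕ) : ℂ) ≠ 0 := Nat.cast_ne_zero.2 (by omega)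
    push_cast at this
    exact this
  have h3 := (h1.eventually_ne h2).filter_mono (nhdsWithin_le_nhds (s := {0}ᶜ))
  filter_upwards [h3, self_mem_nhdsWithin] with s hs hs0 h
  have h4 : s * (((a : ℂ) + b + 2) + ((a : ℂ) + 1) * (b + 1) * s) = 0 := by
    unfold u at h
    linear_combination h
  rcases mul_eq_zero.1 h4 with h5 | h5
  · exact hs0 h5
  · exact hs h5

theorem ev_one (a : ℕ) : ∀ᶠ s in 𝓝 (0:ℂ), u a s ≠ 0 ∧ u a s ≠ q ∧ u a s ≠ q^2 := by
  have hc : ContinuousAt (u a) 0 := (u_cont a).continuousAt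
  have h1 : ∀ᶠ s in 𝓝 (0:ℂ), u a s ≠ 0 := hc.eventually_ne (by rw [u_zero]; exact one_ne_zero)
  have h2 : ∀ᶠ s in 𝓝 (0:ℂ), u a s ≠ q := hc.eventually_ne (by rw [u_zero]; exact q_ne_one.symm)
  have h3 : ∀ᶠ s in 𝓝 (0:ℂ), u a s ≠ q^2 :=
    hc.eventually_ne (by rw [u_zero]; exact q_sq_ne_one.symm)
  filter_upwards [h1, h2, h3] with s a1 a2 a3
  exact ⟨a1, a2, a3⟩

theorem nodup {m : ℕ} {s : ℂ} (hs : s ≠ 0) (h : ∀ a < m, ∀ b < m, u a s * u b s ≠ 1)
    (h0 : ∀ a < m, u a s ≠ 0) : ((rs m).map (fun r => r s)).Nodup := by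
  have e : (rs m).map (fun r => r s) =
      1 :: (List.range m).flatMap (fun a => [u a s, (u a s)⁻¹]) := by
    unfold rs
    rw [List.map_cons, List.map_flatMap]
    rfl
  rw [e, List.nodup_cons]
  constructor
  · rw [List.mem_flatMap]
    rintro ⟨a, -, h1⟩
    simp only [List.mem_cons, List.not_mem_nil, or_false] at h1
    rcases h1 with h1 | h1
    · exact u_ne_one hs a h1.symm
    · exact u_ne_one hs a (inv_eq_one.1 h1.symm)
  · rw [List.nodup_flatMap]
    constructor
    · intro a ha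
      have ha' := List.mem_range.1 ha
      simp only [List.nodup_cons, List.mem_cons, List.not_mem_nil, or_false, not_false_eq_true,
        List.nodup_nil, and_true]
      intro h1
      apply h a ha' a ha'
      conv_lhs => rw [h1]
      rw [← h1]
      nth_rewrite 1 [h1]
      exact inv_mul_cancel₀ (h0 a ha')
    · have h1 : (List.range m).Pairwise (· ≠ ·) := List.nodup_range
      refine List.Pairwise.imp_of_mem ?_ h1
      intro a b ha hb hab
      have ha' := List.mem_range.1 ha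
      have hb' := List.mem_range.1 hb
      show List.Disjoint [u a s, (u a s)⁻¹] [u b s, (u b s)⁻¹]
      intro x hx hy
      simp only [List.mem_cons, List.not_mem_nil, or_false] at hx hy
      rcases hx with rfl | rfl
      · rcases hy with h2 | h2
        · exact hab (u_inj hs h2)
        · apply h a ha' b hb'
          rw [h2]
          exact inv_mul_cancel₀ (h0 b hb')
      · rcases hy with h2 | h2
        · apply h a ha' b hb'
          rw [← h2]
          exact mul_inv_cancel₀ (h0 a ha')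
        · exact hab (u_inj hs (inv_injective h2))

theorem usl_zero (m : ℕ) : usl m 0 = List.replicate m 1 := by
  unfold usl
  rw [List.eq_replicate_iff]
  simp

theorem mem_usl {m : ℕ} {s t : ℂ} : t ∈ usl m s ↔ ∃ a < m, u a s = t := by
  unfold usl u
  simp

theorem usl_length (m : ℕ) (s : ℂ) : (usl m s).length = m := by
  unfold usl
  simp

theorem RR_order (m : ℕ) : ∃ (K : ℕ) (P : ℂ[X]),
    (∀ x : ℂ, x ≠ 0 → P.eval x = x^K * RR x (List.replicate m 1)) ∧ (X - C 1)^(2*m+1) ∣ P := by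
  obtain ⟨K, d, hKd⟩ := RR_poly m
  obtain ⟨P, hP1, hP2, hP3⟩ := H731B.poly_family d (fun s x => x^K * RR x (usl m s))
    (Filter.Eventually.of_forall fun s => hKd (usl m s) (usl_length m s))
    (fun x _ => continuousAt_const.mul (RR_cont m x))
  refine ⟨K, P 0, fun x hx => ?_, ?_⟩
  · have h := hP3.self_of_nhds x hx
    rw [usl_zero] at h
    exact h
  · have key := H731B.order_poly d (rs m) P hP1 hP2 ?_ ?_
    · rw [rs_length] at key
      exact key
    · intro r hr
      rcases mem_rs hr with rfl | ⟨a, -, rfl | rfl⟩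
      · exact ⟨continuousAt_const, rfl⟩
      · exact ⟨(u_cont a).continuousAt, u_zero a⟩
      · refine ⟨(u_cont a).continuousAt.inv₀ (by rw [u_zero]; exact one_ne_zero), ?_⟩
        show (u a 0)⁻¹ = 1
        rw [u_zero, inv_one]
    · have h1 : ∀ᶠ s in nhdsWithin (0:ℂ) {0}ᶜ, ∀ a ∈ Finset.range m, ∀ b ∈ Finset.range m,
          u a s * u b s ≠ 1 := by
        rw [Filter.eventually_all_finset]
        intro a _
        rw [Filter.eventually_all_finset]
        intro b _
        exact ev_mul a b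
      have h2 : ∀ᶠ s in nhds (0:ℂ), ∀ a ∈ Finset.range m,
          u a s ≠ 0 ∧ u a s ≠ q ∧ u a s ≠ q^2 := by
        rw [Filter.eventually_all_finset]
        intro a _
        exact ev_one a
      filter_upwards [h1, h2.filter_mono nhdsWithin_le_nhds, hP3.filter_mono nhdsWithin_le_nhds,
        self_mem_nhdsWithin] with s a1 a2 a3 a4
      refine ⟨nodup a4 (fun a ha b hb => a1 a (Finset.mem_range.2 ha) b (Finset.mem_range.2 hb))
        (fun a ha => (a2 a (Finset.mem_range.2 ha)).1), fun r hr => ?_⟩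
      have hus : ∀ v ∈ usl m s, v ≠ 0 := by
        intro v hv
        obtain ⟨a, ha, rfl⟩ := mem_usl.1 hv
        exact (a2 a (Finset.mem_range.2 ha)).1
      rcases mem_rs hr with rfl | ⟨a, ha, hra⟩
      · show (P s).eval 1 = 0
        rw [a3 1 one_ne_zero, RR_one, mul_zero]
      · obtain ⟨b1, b2, b3⟩ := a2 a (Finset.mem_range.2 ha)
        obtain ⟨c1, c2⟩ := RR_mem (usl m s) hus (u a s) (mem_usl.2 ⟨a, ha, rfl⟩) b2 b3
        rcases hra with rfl | rfl
        · rw [a3 _ b1, c1, mul_zero]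
        · show (P s).eval (u a s)⁻¹ = 0
          rw [a3 _ (inv_ne_zero b1), c2, mul_zero]

end Pool.Agent.Helper38.EW
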