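import Pool.Agent.Helper38.EW.A2
import Pool.Graph.R_seed8.H980R2.Cont.T09

/-!
The generating polynomial of the number of outermost arcs: `EE n x = O((x-1)^(2n-1))`.
-/

set_option autoImplicit false

namespace Pool.Agent.Helper38.EW

open Pool.Agent.H988R2.Perc hiding X
open Pool.Agent.H980R2.Cross Pool.Agent.H980R2.Cont

/-- mass of the words of length `2 n` with `j` outermost arcs, homogeneous letters -/
noncomputable def sm (n j : ℕ) : ℂ :=
  lin (fun w => if ret w = j then 1 else 0) (List.replicate (2 * n) 1)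

/-- generating polynomial of the number of outermost arcs -/
noncomputable def SE (n : ℕ) (t : ℂ) : ℂ := ∑ j ∈ Finset.range (n + 1), sm n j * t^j

/-- argument of the generating polynomial -/
noncomputable def tau (x : ℂ) : ℂ := q * (1 - q^2 * (q * x)) * (1 - q * x) / (q * x - q^2)^2

/-- the expression which vanishes to the order `2 n - 1` at `x = 1` -/
noncomputable def EE (n : ℕ) (x : ℂ) : ℂ :=
  (x - q) * SE n (tau x⁻¹) + (1 - q * x) * SE n (tau x)

theorem ones (m : ℕ) : (1 : ℂ) :: 1 :: prs (List.replicate m 1) =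
    List.replicate (2 * (m + 1)) 1 := by
  rw [T09aux.prs_one]
  have e1 : 2 * (m + 1) = (2 * m + 1) + 1 := by ring
  rw [e1, List.replicate_succ, List.replicate_succ]

theorem hh_eval (m : ℕ) (x : ℂ) (hx : x ≠ q^2) :
    hh x (List.replicate m 1) = fac x (List.replicate (2 * (m + 1)) 1) *
      SE (m + 1) (q * (1 - q^2 * x) * (1 - x) / (x - q^2)^2) := by
  have hlist : x :: 1 :: (prs (List.replicate m 1) ++ [1, q^2 * x]) =
      x :: (List.replicate (2 * (m + 1)) 1 ++ [q^2 * x]) := by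
    rw [T09aux.prs_one]
    have e1 : 2 * (m + 1) = (2 * m + 1) + 1 := by ring
    rw [e1, List.replicate_succ, List.replicate_succ']
    simp
  have hx3 : x - q^2 ≠ 0 := sub_ne_zero.2 hx
  have hne : ∀ a ∈ List.replicate (2 * (m + 1)) (1 : ℂ), x - q^2 * a ≠ 0 := by
    intro a ha
    rw [List.eq_of_mem_replicate ha, mul_one]
    exact hx3
  obtain ⟨t, ht⟩ : ∃ t : ℂ, t = q * (1 - q^2 * x) * (1 - x) / (x - q^2)^2 := ⟨_, rfl⟩
  have htt : pE x 1 * pI x 1 = t := by
    rw [ht]
    unfold pE pI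
    rw [mul_one, div_mul_div_comm]
    congr 1 <;> ring
  unfold hh
  rw [hlist, OO_row _ x (by simp) hne, ← ht]
  congr 1
  unfold SE sm
  have hlen : (List.replicate (2 * (m + 1)) (1 : ℂ)).length = 2 * (m + 1) := by simp
  unfold lin
  rw [hlen]
  have h1 : ∀ w ∈ LP (2 * (m + 1)), Val x 1 (ins 0 w) (List.replicate (2 * (m + 1)) 1) *
        Fw w (List.replicate (2 * (m + 1)) 1) =
      ∑ j ∈ Finset.range (m + 1 + 1), (if ret w = j then (1:ℂ) else 0) *
        Fw w (List.replicate (2 * (m + 1)) 1) * t^j := by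
    intro w hw
    obtain ⟨hwl, hwd⟩ := mem_LP.1 hw
    have hk := dyck_prefix hwd
    have hc := dyck_count hwd
    have h1 := (T09aux.aw_one x w 0 (fun k => by have := hk k; omega) (by omega)).1 rfl
    have hle := ret_le hwd
    rw [Val_eq w hwd _ x (by rw [List.length_replicate, hwl]) hne]
    rw [Finset.sum_eq_single_of_mem (ret w) (by rw [Finset.mem_range]; omega)]
    · rw [if_pos rfl]
      have h2 : aw x 0 w (List.replicate (2 * (m + 1)) 1) = t ^ ret w := by
        rw [← hwl, h1, htt, ← T09aux.ret_eq]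
      rw [h2]
      ring
    · intro j _ hj
      rw [if_neg (Ne.symm hj)]
      ring
  rw [Finset.sum_congr rfl h1, Finset.sum_comm]
  apply Finset.sum_congr rfl
  intro j _
  rw [Finset.sum_mul]

/-- the factor -/
noncomputable def fx (m : ℕ) (x : ℂ) : ℂ := ((q * x - q^2) * (q * x - q^2))^(2 * (m + 1))

theorem fac_ones (m : ℕ) (x : ℂ) : fac (q * x) (List.replicate (2 * (m + 1)) 1) = fx m x := by
  unfold fac fx
  rw [List.map_replicate, List.prod_replicate, mul_one, mul_one]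

theorem Phi_ones (m : ℕ) (x : ℂ) : Phi x (List.replicate m 1) = fx m x := by
  unfold Phi
  rw [ones, fac_ones]

theorem hh_ones (m : ℕ) (x : ℂ) (hx : x ≠ q) :
    hh (q * x) (List.replicate m 1) = fx m x * SE (m + 1) (tau x) := by
  have h : q * x ≠ q^2 := by
    intro h
    apply hx
    have h1 : q * (x - q) = 0 := by linear_combination h
    rcases mul_eq_zero.1 h1 with h2 | h2
    · exact absurd h2 q_ne_zero
    · exact sub_eq_zero.1 h2
  rw [hh_eval m (q * x) h, fac_ones]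
  rfl

theorem RR_ones (m : ℕ) (x : ℂ) (hx : x ≠ q) (hx' : x⁻¹ ≠ q) :
    RR x (List.replicate m 1) = fx m x * fx m x⁻¹ * EE (m + 1) x := by
  unfold RR EE
  rw [hh_ones m x hx, hh_ones m x⁻¹ hx', Phi_ones, Phi_ones]
  ring

theorem fx_one (m : ℕ) : fx m 1 ≠ 0 := by
  unfold fx
  have h : q * 1 - q^2 ≠ 0 := by
    intro h
    have h1 : q * (1 - q) = 0 := by linear_combination h
    rcases mul_eq_zero.1 h1 with h2 | h2
    · exact q_ne_zero h2
    · exact q_ne_one (sub_eq_zero.1 h2).symm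
  exact pow_ne_zero _ (mul_ne_zero h h)

theorem fx_cont (m : ℕ) : Continuous (fx m) := by
  unfold fx
  fun_prop

open Filter Topology Asymptotics in
theorem EE_bigO (m : ℕ) :
    (fun x : ℂ => EE (m + 1) x) =O[𝓝 1] (fun x : ℂ => (x - 1)^(2*m+1)) := by
  obtain ⟨K, P, hP, Q, rfl⟩ := RR_order m
  -- the denominator
  have hinv : ContinuousAt (fun x : ℂ => x⁻¹) 1 := continuousAt_inv₀ one_ne_zero
  have hfinv : ContinuousAt (fun x : ℂ => fx m x⁻¹) 1 := by
    have h1 : ContinuousAt (fx m) ((1 : ℂ)⁻¹) := (fx_cont m).continuousAt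
    exact ContinuousAt.comp (g := fx m) h1 hinv
  have hden : ContinuousAt (fun x : ℂ => x^K * (fx m x * fx m x⁻¹)) 1 :=
    (continuousAt_id.pow K).mul ((fx_cont m).continuousAt.mul hfinv)
  have hden1 : (1 : ℂ)^K * (fx m 1 * fx m (1 : ℂ)⁻¹) ≠ 0 := by
    rw [one_pow, one_mul, inv_one]
    exact mul_ne_zero (fx_one m) (fx_one m)
  have hG : ContinuousAt (fun x : ℂ => Q.eval x / (x^K * (fx m x * fx m x⁻¹))) 1 :=
    Q.continuous.continuousAt.div hden hden1
  have hbig := (isBigO_refl (fun x : ℂ => (x - 1)^(2*m+1)) (𝓝 1)).mul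
    (Filter.Tendsto.isBigO_one ℂ hG)
  have heq : (fun x : ℂ => (x - 1)^(2*m+1) * (Q.eval x / (x^K * (fx m x * fx m x⁻¹))))
      =ᶠ[𝓝 1] fun x : ℂ => EE (m + 1) x := by
    have e1 : ∀ᶠ x : ℂ in 𝓝 1, x ≠ q := isOpen_ne.mem_nhds (Ne.symm q_ne_one)
    have e2 : ∀ᶠ x : ℂ in 𝓝 1, x⁻¹ ≠ q := by
      have h1 : (1 : ℂ)⁻¹ ≠ q := by
        rw [inv_one]
        exact Ne.symm q_ne_one
      exact hinv.eventually_ne h1
    have e3 : ∀ᶠ x : ℂ in 𝓝 1, x^K * (fx m x * fx m x⁻¹) ≠ 0 := hden.eventually_ne hden1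
    have e4 : ∀ᶠ x : ℂ in 𝓝 1, x ≠ 0 := isOpen_ne.mem_nhds one_ne_zero
    filter_upwards [e1, e2, e3, e4] with x h1 h2 h3 h4
    have h5 := hP x h4
    rw [RR_ones m x h1 h2, Polynomial.eval_mul, Polynomial.eval_pow, Polynomial.eval_sub,
      Polynomial.eval_X, Polynomial.eval_C] at h5
    rw [← mul_div_assoc, h5, div_eq_iff h3]
    ring
  refine (heq.symm.trans_isBigO hbig).trans ?_
  simp only [mul_one]
  exact isBigO_refl _ _

end Pool.Agent.Helper38.EW
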