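import Pool.Agent.Helper38.EW.A3

/-!
Trigonometric form, `x = exp (2 i v)`.
-/

set_option autoImplicit false

namespace Pool.Agent.Helper38.EW

open Pool.Agent.H988R2.Perc hiding X

/-- the variable `t` as a function of the angle -/
noncomputable def tt (φ : ℝ) : ℝ := 1 - 3 / (4 * Real.sin φ ^ 2)

/-- real generating polynomial -/
noncomputable def Sr (n : ℕ) (s : ℕ → ℝ) (t : ℝ) : ℝ := ∑ j ∈ Finset.range (n + 1), s j * t^j

/-- the generating polynomial divided by the sine -/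
noncomputable def YY (n : ℕ) (s : ℕ → ℝ) (v : ℝ) : ℝ :=
  Sr n s (tt (2 * Real.pi / 3 + v)) / Real.sin (2 * Real.pi / 3 + v)

/-- twice the even part -/
noncomputable def YD (n : ℕ) (s : ℕ → ℝ) (v : ℝ) : ℝ := YY n s v + YY n s (-v)

namespace B1

theorem q_exp : q = Complex.exp (Complex.I * (2 * Real.pi / 3)) := by
  have h1 : Complex.I * (2 * Real.pi / 3) = ((2 * Real.pi / 3 : ℝ) : ℂ) * Complex.I := by
    push_cast
    ring
  have hc : Real.cos (2 * Real.pi / 3) = -1 / 2 := by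
    have : 2 * Real.pi / 3 = Real.pi - Real.pi / 3 := by ring
    rw [this, Real.cos_pi_sub, Real.cos_pi_div_three]
    norm_num
  have hs : Real.sin (2 * Real.pi / 3) = Real.sqrt 3 / 2 := by
    have : 2 * Real.pi / 3 = Real.pi - Real.pi / 3 := by ring
    rw [this, Real.sin_pi_sub, Real.sin_pi_div_three]
  rw [h1, Complex.exp_mul_I, ← Complex.ofReal_cos, ← Complex.ofReal_sin, hc, hs]
  apply Complex.ext <;> simp [q]

/-- `y = exp (i v)` -/
noncomputable def yv (v : ℝ) : ℂ := Complex.exp (Complex.I * v)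

theorem yv_ne (v : ℝ) : yv v ≠ 0 := Complex.exp_ne_zero _

theorem yv_norm (v : ℝ) : ‖yv v‖ = 1 := by
  unfold yv
  rw [mul_comm, Complex.norm_exp_ofReal_mul_I]

theorem yv_neg (v : ℝ) : yv (-v) = (yv v)⁻¹ := by
  unfold yv
  rw [← Complex.exp_neg]
  congr 1
  push_cast
  ring

theorem x_eq (v : ℝ) : Complex.exp (2 * Complex.I * v) = yv v ^ 2 := by
  unfold yv
  rw [← Complex.exp_nat_mul]
  congr 1
  push_cast
  ring

theorem sin_eq (v : ℝ) : (Real.sin v : ℂ) = ((yv v)⁻¹ - yv v) * Complex.I / 2 := by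
  rw [← yv_neg, Complex.ofReal_sin, Complex.sin]
  unfold yv
  congr 3
  · congr 1
    push_cast
    ring
  · rw [mul_comm]

theorem yv_add (u v : ℝ) : yv (u + v) = yv u * yv v := by
  unfold yv
  rw [← Complex.exp_add]
  congr 1
  push_cast
  ring

theorem yv_q : yv (2 * Real.pi / 3) = q := by
  rw [q_exp]
  unfold yv
  congr 1
  push_cast
  ring

theorem q_inv : q⁻¹ = q ^ 2 := by
  apply inv_eq_of_mul_eq_one_right
  linear_combination q_cube

theorem yv_plus (v : ℝ) : yv (2 * Real.pi / 3 + v) = q * yv v := by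
  rw [yv_add, yv_q]

theorem yv_plus_inv (v : ℝ) : (yv (2 * Real.pi / 3 + v))⁻¹ = q ^ 2 * (yv v)⁻¹ := by
  rw [yv_plus, mul_inv, q_inv]

theorem yv_minus (v : ℝ) : yv (2 * Real.pi / 3 - v) = q * (yv v)⁻¹ := by
  rw [sub_eq_add_neg, yv_plus, yv_neg]

theorem yv_minus_inv (v : ℝ) : (yv (2 * Real.pi / 3 - v))⁻¹ = q ^ 2 * yv v := by
  rw [yv_minus, mul_inv, q_inv, inv_inv]

/-- first identity -/
theorem id_a (v : ℝ) : (yv v ^ 2 - q) =
    (2 * Complex.I * q ^ 2 * yv v) * (Real.sin (2 * Real.pi / 3 + v) : ℂ) := by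
  rw [sin_eq, yv_plus_inv, yv_plus]
  have hy := yv_ne v
  have hc := q_cube
  field_simp
  linear_combination (q^2 * (q^2 - q * yv v ^ 2)) * (-Complex.I_sq) + (yv v ^ 2 - q) * (-hc)

/-- second identity -/
theorem id_b (v : ℝ) : (1 - q * yv v ^ 2) =
    (2 * Complex.I * q ^ 2 * yv v) * (Real.sin (2 * Real.pi / 3 - v) : ℂ) := by
  rw [sin_eq, yv_minus_inv, yv_minus]
  have hy := yv_ne v
  have hc := q_cube
  field_simp
  linear_combination (q^2 * (q^2 * yv v ^ 2 - q)) * (-Complex.I_sq) + (1 - q * yv v ^ 2) * (-hc)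

theorem sin_pos {v : ℝ} (hv : |v| < Real.pi / 3) : 0 < Real.sin (2 * Real.pi / 3 + v) := by
  rw [abs_lt] at hv
  apply Real.sin_pos_of_pos_of_lt_pi <;> linarith [hv.1, hv.2]

theorem den_ne {v : ℝ} (hv : |v| < Real.pi / 3) : q * yv v ^ 2 - q ^ 2 ≠ 0 := by
  intro h
  have h1 : (Real.sin (2 * Real.pi / 3 + v) : ℂ) ≠ 0 := by
    exact_mod_cast (sin_pos hv).ne'
  apply h1
  rw [sin_eq, yv_plus_inv, yv_plus]
  have hy := yv_ne v
  have h2 : q ^ 2 * (yv v)⁻¹ - q * yv v = 0 := by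
    field_simp
    linear_combination -h
  rw [h2]
  ring

theorem tau_exp (v : ℝ) (hv : |v| < Real.pi / 3) :
    tau (yv v ^ 2) = (tt (2 * Real.pi / 3 + v) : ℂ) := by
  have hd := den_ne hv
  have hy := yv_ne v
  unfold tau tt
  simp only [Complex.ofReal_sub, Complex.ofReal_div, Complex.ofReal_mul, Complex.ofReal_pow,
    Complex.ofReal_one, Complex.ofReal_ofNat]
  rw [sin_eq, yv_plus_inv, yv_plus]
  have e : 4 * ((q ^ 2 * (yv v)⁻¹ - q * yv v) * Complex.I / 2) ^ 2 =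
      -((q * yv v ^ 2 - q ^ 2) ^ 2 / yv v ^ 2) := by
    field_simp
    linear_combination (4 * (q * yv v ^ 2 - q ^ 2) ^ 2) * Complex.I_sq
  have hd2 := pow_ne_zero 2 hd
  rw [e, div_neg, sub_neg_eq_add, div_div_eq_mul_div, div_eq_iff hd2, add_mul,
    div_mul_cancel₀ _ hd2]
  linear_combination (-(q * (q - 1)) + yv v ^ 2 * (-q ^ 2 + 3 * q - 3) +
    yv v ^ 4 * (q ^ 2 * (q - 1))) * q_spec

/-- real form -/
noncomputable def F2 (n : ℕ) (s : ℕ → ℝ) (v : ℝ) : ℝ :=
  Real.sin (2 * Real.pi / 3 + v) * Sr n s (tt (2 * Real.pi / 3 - v)) +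
    Real.sin (2 * Real.pi / 3 - v) * Sr n s (tt (2 * Real.pi / 3 + v))

theorem EE_exp (n : ℕ) (v : ℝ) (hv : |v| < Real.pi / 3) :
    EE n (Complex.exp (2 * Complex.I * v)) = (2 * Complex.I * q ^ 2 * yv v) *
        ((F2 n (fun j => (sm n j).re) v : ℂ) + Complex.I * (F2 n (fun j => (sm n j).im) v : ℂ)) := by
  have hp : tau (yv v ^ 2) = (tt (2 * Real.pi / 3 + v) : ℂ) := tau_exp v hv
  have hm : tau (yv v ^ 2)⁻¹ = (tt (2 * Real.pi / 3 - v) : ℂ) := by
    have h1 := tau_exp (-v) (by rwa [abs_neg])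
    rw [yv_neg, inv_pow, ← sub_eq_add_neg] at h1
    exact h1
  have hSS : ∀ t : ℝ, SE n (t : ℂ) = (Sr n (fun j => (sm n j).re) t : ℂ) +
      Complex.I * (Sr n (fun j => (sm n j).im) t : ℂ) := by
    intro t
    unfold SE Sr
    rw [Complex.ofReal_sum, Complex.ofReal_sum, Finset.mul_sum, ← Finset.sum_add_distrib]
    apply Finset.sum_congr rfl
    intro j _
    rw [Complex.ofReal_mul, Complex.ofReal_mul, Complex.ofReal_pow]
    linear_combination -((t : ℂ) ^ j) * Complex.re_add_im (sm n j)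
  rw [x_eq]
  unfold EE
  rw [hp, hm, hSS, hSS, id_a, id_b]
  unfold F2
  simp only [Complex.ofReal_mul, Complex.ofReal_add]
  ring

theorem norm_le (v : ℝ) : ‖Complex.exp (2 * Complex.I * v) - 1‖ ≤ 2 * ‖v‖ := by
  have h := @Real.norm_exp_I_mul_ofReal_sub_one_le (2 * v)
  have e : 2 * Complex.I * (v : ℂ) = Complex.I * ((2 * v : ℝ) : ℂ) := by
    push_cast
    ring
  rw [e]
  refine h.trans (le_of_eq ?_)
  rw [norm_mul, Real.norm_of_nonneg (by norm_num : (0 : ℝ) ≤ 2)]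

theorem q_norm : ‖q‖ = 1 := by
  rw [← yv_q, yv_norm]

open Filter Topology Asymptotics in
theorem ev_small : ∀ᶠ v : ℝ in 𝓝 0, |v| < Real.pi / 3 := by
  have hp := Real.pi_pos
  have := Metric.ball_mem_nhds (0 : ℝ) (show 0 < Real.pi / 3 by positivity)
  filter_upwards [this] with v hv
  simpa [Real.dist_eq] using hv

open Filter Topology Asymptotics in
theorem F2_bigO (m : ℕ) :
    (fun v : ℝ => F2 (m+1) (fun j => (sm (m+1) j).re) v) =O[𝓝 0] (fun v : ℝ => v^(2*m+1)) ∧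
    (fun v : ℝ => F2 (m+1) (fun j => (sm (m+1) j).im) v) =O[𝓝 0] (fun v : ℝ => v^(2*m+1)) := by
  have ht : Tendsto (fun v : ℝ => Complex.exp (2 * Complex.I * v)) (𝓝 0) (𝓝 1) := by
    have hc : Continuous (fun v : ℝ => Complex.exp (2 * Complex.I * v)) := by fun_prop
    have := hc.tendsto 0
    simpa using this
  have h1 := (EE_bigO m).comp_tendsto ht
  have h2 : (fun v : ℝ => Complex.exp (2 * Complex.I * v) - 1) =O[𝓝 0] (fun v : ℝ => v) :=
    IsBigO.of_bound 2 (Eventually.of_forall fun v => norm_le v)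
  have h3 := h2.pow (2 * m + 1)
  have h5 := h1.trans h3
  have key : ∀ᶠ v : ℝ in 𝓝 0, ‖EE (m + 1) (Complex.exp (2 * Complex.I * v))‖ =
      2 * ‖((F2 (m + 1) (fun j => (sm (m + 1) j).re) v : ℂ) +
        Complex.I * (F2 (m + 1) (fun j => (sm (m + 1) j).im) v : ℂ))‖ := by
    filter_upwards [ev_small] with v hv
    rw [EE_exp (m+1) v hv, norm_mul]
    congr 1
    simp [q_norm, yv_norm]
  constructor
  · refine IsBigO.trans (IsBigO.of_bound 1 ?_) h5
    filter_upwards [key] with v hv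
    simp only [Function.comp_apply]
    rw [hv, one_mul]
    have := Complex.abs_re_le_norm ((F2 (m + 1) (fun j => (sm (m + 1) j).re) v : ℂ) +
        Complex.I * (F2 (m + 1) (fun j => (sm (m + 1) j).im) v : ℂ))
    have h6 : ‖F2 (m + 1) (fun j => (sm (m + 1) j).re) v‖ ≤
        ‖((F2 (m + 1) (fun j => (sm (m + 1) j).re) v : ℂ) +
        Complex.I * (F2 (m + 1) (fun j => (sm (m + 1) j).im) v : ℂ))‖ := by simpa using this
    have h7 := norm_nonneg ((F2 (m + 1) (fun j => (sm (m + 1) j).re) v : ℂ) +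
        Complex.I * (F2 (m + 1) (fun j => (sm (m + 1) j).im) v : ℂ))
    linarith
  · refine IsBigO.trans (IsBigO.of_bound 1 ?_) h5
    filter_upwards [key] with v hv
    simp only [Function.comp_apply]
    rw [hv, one_mul]
    have := Complex.abs_im_le_norm ((F2 (m + 1) (fun j => (sm (m + 1) j).re) v : ℂ) +
        Complex.I * (F2 (m + 1) (fun j => (sm (m + 1) j).im) v : ℂ))
    have h6 : ‖F2 (m + 1) (fun j => (sm (m + 1) j).im) v‖ ≤
        ‖((F2 (m + 1) (fun j => (sm (m + 1) j).re) v : ℂ) +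
        Complex.I * (F2 (m + 1) (fun j => (sm (m + 1) j).im) v : ℂ))‖ := by simpa using this
    have h7 := norm_nonneg ((F2 (m + 1) (fun j => (sm (m + 1) j).re) v : ℂ) +
        Complex.I * (F2 (m + 1) (fun j => (sm (m + 1) j).im) v : ℂ))
    linarith

open Filter Topology Asymptotics in
theorem YD_of_F2 (n k : ℕ) (s : ℕ → ℝ) (h : (fun v : ℝ => F2 n s v) =O[𝓝 0] (fun v : ℝ => v^k)) :
    (fun v : ℝ => YD n s v) =O[𝓝 0] (fun v : ℝ => v^k) := by
  have hc : ContinuousAt (fun v : ℝ => (Real.sin (2 * Real.pi / 3 + v) *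
      Real.sin (2 * Real.pi / 3 - v))⁻¹) 0 := by
    apply ContinuousAt.inv₀
    · fun_prop
    · have h1 := (sin_pos (v := 0) (by rw [abs_zero]; have := Real.pi_pos; positivity)).ne'
      rw [add_zero] at h1
      simp only [add_zero, sub_zero]
      exact mul_ne_zero h1 h1
  have h2 := h.mul (Filter.Tendsto.isBigO_one ℝ hc)
  simp only [mul_one] at h2
  refine IsBigO.congr' h2 ?_ EventuallyEq.rfl
  filter_upwards [ev_small] with v hv
  have h3 := (sin_pos hv).ne'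
  have h4 := (sin_pos (v := -v) (by rwa [abs_neg])).ne'
  rw [← sub_eq_add_neg] at h4
  unfold YD YY F2
  rw [← sub_eq_add_neg, div_add_div _ _ h3 h4, ← div_eq_mul_inv]
  congr 1
  ring

end B1

open Filter Topology Asymptotics in
/-- the real and the imaginary parts of the masses satisfy the functional equation -/
theorem sm_bigO {n : ℕ} (hn : 1 ≤ n) :
    (fun v : ℝ => YD n (fun j => (sm n j).re) v) =O[𝓝 0] (fun v : ℝ => v^(2*n-1)) ∧
    (fun v : ℝ => YD n (fun j => (sm n j).im) v) =O[𝓝 0] (fun v : ℝ => v^(2*n-1)) := by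
  obtain ⟨m, rfl⟩ : ∃ m, n = m + 1 := ⟨n - 1, by omega⟩
  have e : 2 * (m + 1) - 1 = 2 * m + 1 := by omega
  rw [e]
  exact ⟨B1.YD_of_F2 _ _ _ (B1.F2_bigO m).1, B1.YD_of_F2 _ _ _ (B1.F2_bigO m).2⟩

end Pool.Agent.Helper38.EW
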