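import Pool.Agent.Helper38.EW.B1

/-!
The explicit solution: the polynomial `P n = ∑ ws n k X^k` and its differential equation.
-/

set_option autoImplicit false

namespace Pool.Agent.Helper38.EW

open Polynomial

/-- the product weights -/
noncomputable def ws (n k : ℕ) : ℝ := (k : ℝ) * ∏ i ∈ Finset.Icc 1 (k - 1),
  (2 * (2 * (n : ℝ) + 2 * i + 1) * ((n : ℝ) - i)) / ((2 * (n : ℝ) - i - 1) * (2 * n + i + 2))

theorem ws_zero (n : ℕ) : ws n 0 = 0 := by simp [ws]

theorem ws_one (n : ℕ) : ws n 1 = 1 := by simp [ws]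

theorem ws_big {n k : ℕ} (hn : 1 ≤ n) (h : n < k) : ws n k = 0 := by
  unfold ws
  rw [Finset.prod_eq_zero (i := n) (by rw [Finset.mem_Icc]; omega) (by simp), mul_zero]

theorem ws_rec {n : ℕ} (hn : 1 ≤ n) (k : ℕ) :
    (k : ℝ) * ((2 * (n : ℝ) - k - 1) * (2 * n + k + 2)) * ws n (k + 1) =
      ((k : ℝ) + 1) * (2 * (2 * (n : ℝ) + 2 * k + 1) * ((n : ℝ) - k)) * ws n k := by
  rcases Nat.eq_zero_or_pos k with h0 | h0
  · subst h0
    rw [ws_zero]
    simp
  rcases Nat.lt_or_ge k n with h1 | h1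
  · have hk : (k : ℝ) + 1 ≤ n := by exact_mod_cast h1
    have hk0 : (1 : ℝ) ≤ k := by exact_mod_cast h0
    have h2 : (2 * (n : ℝ) - k - 1) * (2 * n + k + 2) ≠ 0 := by
      apply ne_of_gt
      apply mul_pos <;> nlinarith
    have e : ws n (k + 1) = ((k : ℝ) + 1) * ((∏ i ∈ Finset.Icc 1 (k - 1),
        (2 * (2 * (n : ℝ) + 2 * i + 1) * ((n : ℝ) - i)) / ((2 * (n : ℝ) - i - 1) * (2 * n + i + 2))) *
        ((2 * (2 * (n : ℝ) + 2 * k + 1) * ((n : ℝ) - k)) /
          ((2 * (n : ℝ) - k - 1) * (2 * n + k + 2)))) := by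
      unfold ws
      obtain ⟨j, rfl⟩ : ∃ j, k = j + 1 := ⟨k - 1, by omega⟩
      rw [show j + 1 + 1 - 1 = j + 1 by omega, show j + 1 - 1 = j by omega,
        Finset.prod_Icc_succ_top (by omega : 1 ≤ j + 1)]
      push_cast
      rfl
    rw [e]
    unfold ws
    generalize (∏ i ∈ Finset.Icc 1 (k - 1),
        (2 * (2 * (n : ℝ) + 2 * i + 1) * ((n : ℝ) - i)) / ((2 * (n : ℝ) - i - 1) * (2 * n + i + 2)))
        = Pr
    generalize (2 * (n : ℝ) - k - 1) * (2 * n + k + 2) = D at h2 ⊢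
    field_simp
  · rw [ws_big hn (by omega : n < k + 1), mul_zero]
    rcases Nat.lt_or_ge n k with h2 | h2
    · rw [ws_big hn h2, mul_zero]
    · have : k = n := by omega
      subst this
      ring

/-- the polynomial -/
noncomputable def P (n : ℕ) : ℝ[X] := ∑ k ∈ Finset.range (n + 1), C (ws n k) * X ^ k

theorem P_coeff {n : ℕ} (hn : 1 ≤ n) (k : ℕ) : (P n).coeff k = ws n k := by
  unfold P
  simp only [finsetSum_coeff, coeff_C_mul, coeff_X_pow, mul_ite, mul_one, mul_zero]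
  rw [Finset.sum_ite_eq]
  split_ifs with h
  · rfl
  · rw [ws_big hn (by simpa using h)]

theorem P_eval (n : ℕ) (t : ℝ) : (P n).eval t = Sr n (ws n) t := by
  unfold P Sr
  simp [eval_finsetSum]

/-- the differential equation of the polynomial -/
theorem P_ode {n : ℕ} (hn : 1 ≤ n) :
    X * (X * derivative (derivative (X * derivative (P n) - C 4 * (X * (X * derivative (P n)))
      + P n - C 2 * (X * P n)))) =
    C (2 * (n : ℝ) * (2 * n + 1)) * (X * derivative (P n) - X * (X * derivative (P n))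
      - P n - X * P n) := by
  have e1 : ∀ k : ℕ, (X * derivative (P n)).coeff k = (k : ℝ) * ws n k := by
    intro k
    rcases k with _ | k
    · rw [coeff_X_mul_zero]; simp
    · rw [coeff_X_mul, coeff_derivative, P_coeff hn]
      push_cast
      ring
  ext k
  rcases k with _ | k
  · rw [coeff_X_mul_zero]
    simp only [coeff_C_mul, coeff_add, coeff_sub, coeff_X_mul_zero, P_coeff hn, ws_zero]
    ring
  rcases k with _ | k
  · rw [coeff_X_mul, coeff_X_mul_zero]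
    simp only [coeff_C_mul, coeff_add, coeff_sub, coeff_X_mul, coeff_X_mul_zero, P_coeff hn, e1,
      ws_zero]
    push_cast
    ring
  · rw [coeff_X_mul, coeff_X_mul, coeff_derivative, coeff_derivative]
    have h := ws_rec hn (k + 1)
    simp only [coeff_C_mul, coeff_add, coeff_sub, coeff_X_mul, P_coeff hn, e1]
    push_cast at h ⊢
    linear_combination -h

/-- the same, evaluated -/
theorem P_ode_eval {n : ℕ} (hn : 1 ≤ n) (t : ℝ) :
    t^2 * ((t - 4 * t^2) * (derivative (derivative (derivative (P n)))).eval t +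
      (3 - 18 * t) * (derivative (derivative (P n))).eval t - 12 * (derivative (P n)).eval t) =
    2 * (n : ℝ) * (2 * n + 1) * ((1 - t) * t * (derivative (P n)).eval t
      - (1 + t) * (P n).eval t) := by
  have h := congrArg (eval t) (P_ode hn)
  simp only [derivative_add, derivative_sub, derivative_mul, derivative_X, derivative_C,
    derivative_one, zero_mul, one_mul, zero_add, eval_mul, eval_X, eval_C, eval_add, eval_sub,
    eval_zero] at h
  linear_combination h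

/-! ### derivatives in the angle -/

theorem dsin (v : ℝ) : HasDerivAt (fun v => Real.sin (2 * Real.pi / 3 + v))
    (Real.cos (2 * Real.pi / 3 + v)) v := by
  have h := ((hasDerivAt_id v).const_add (2 * Real.pi / 3)).sin
  refine h.congr_deriv ?_
  simp

theorem dcos (v : ℝ) : HasDerivAt (fun v => Real.cos (2 * Real.pi / 3 + v))
    (-Real.sin (2 * Real.pi / 3 + v)) v := by
  have h := ((hasDerivAt_id v).const_add (2 * Real.pi / 3)).cos
  refine h.congr_deriv ?_
  simp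

theorem dtt {v : ℝ} (hv : |v| < Real.pi / 3) :
    HasDerivAt (fun v => tt (2 * Real.pi / 3 + v))
      (3 / 2 * Real.cos (2 * Real.pi / 3 + v) / Real.sin (2 * Real.pi / 3 + v) ^ 3) v := by
  have hs := (B1.sin_pos hv).ne'
  have h1 : HasDerivAt (fun v => 4 * Real.sin (2 * Real.pi / 3 + v) ^ 2)
      (4 * (2 * Real.sin (2 * Real.pi / 3 + v) * Real.cos (2 * Real.pi / 3 + v))) v := by
    have h := ((dsin v).pow 2).const_mul (4 : ℝ)
    refine h.congr_deriv ?_
    simp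
  have h2 := ((hasDerivAt_const v (3 : ℝ)).div h1 (by positivity)).const_sub 1
  refine h2.congr_deriv ?_
  field_simp
  ring

theorem dpol (Q : ℝ[X]) {v : ℝ} (hv : |v| < Real.pi / 3) :
    HasDerivAt (fun v => Q.eval (tt (2 * Real.pi / 3 + v)))
      ((derivative Q).eval (tt (2 * Real.pi / 3 + v)) *
        (3 / 2 * Real.cos (2 * Real.pi / 3 + v) / Real.sin (2 * Real.pi / 3 + v) ^ 3)) v := by
  have h := HasDerivAt.comp (h₂ := fun x => Q.eval x) (h := fun v => tt (2 * Real.pi / 3 + v)) v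
    (Q.hasDerivAt (tt (2 * Real.pi / 3 + v))) (dtt hv)
  exact h

/-- `c Q(t) / sin^k` -/
noncomputable def qs (Q : ℝ[X]) (k : ℕ) (v : ℝ) : ℝ :=
  Q.eval (tt (2 * Real.pi / 3 + v)) * ((Real.sin (2 * Real.pi / 3 + v))⁻¹) ^ k

theorem dqs (Q : ℝ[X]) (k : ℕ) {v : ℝ} (hv : |v| < Real.pi / 3) :
    HasDerivAt (qs Q k) (Real.cos (2 * Real.pi / 3 + v) *
      (3 / 2 * qs (derivative Q) (k + 3) v - k * qs Q (k + 1) v)) v := by
  have hs := (B1.sin_pos hv).ne'
  have h1 : HasDerivAt (fun v => ((Real.sin (2 * Real.pi / 3 + v))⁻¹) ^ k)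
      (-(Real.cos (2 * Real.pi / 3 + v)) * (k * ((Real.sin (2 * Real.pi / 3 + v))⁻¹) ^ (k + 1))) v := by
    have h := ((dsin v).inv hs).pow k
    refine h.congr_deriv ?_
    simp only [Pi.inv_apply]
    generalize Real.sin (2 * Real.pi / 3 + v) = s at hs ⊢
    generalize Real.cos (2 * Real.pi / 3 + v) = c
    rcases k with _ | k
    · simp
    · have e : k + 1 - 1 = k := rfl
      have e2 : -c / s ^ 2 = -c * (s⁻¹) ^ 2 := by
        rw [inv_pow, div_eq_mul_inv]
      rw [e, e2]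
      ring
  refine ((dpol Q hv).mul h1).congr_deriv ?_
  unfold qs
  generalize Real.sin (2 * Real.pi / 3 + v) = s at hs ⊢
  generalize Real.cos (2 * Real.pi / 3 + v) = c
  have e2 : 3 / 2 * c / s ^ 3 = 3 / 2 * c * (s⁻¹) ^ 3 := by
    rw [inv_pow, div_eq_mul_inv]
  rw [e2]
  ring

theorem near {v : ℝ} (hv : |v| < Real.pi / 3) : ∀ᶠ w in nhds v, |w| < Real.pi / 3 := by
  have h1 : IsOpen {w : ℝ | |w| < Real.pi / 3} := isOpen_lt continuous_abs continuous_const
  exact h1.mem_nhds hv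

/-- first derivative of `YY` without the factor `cos` -/
noncomputable def g1 (Q : ℝ[X]) (v : ℝ) : ℝ := 3 / 2 * qs (derivative Q) 4 v - qs Q 2 v

/-- derivative of `g1` without the factor `cos` -/
noncomputable def g2 (Q : ℝ[X]) (v : ℝ) : ℝ :=
  9 / 4 * qs (derivative (derivative Q)) 7 v - 15 / 2 * qs (derivative Q) 5 v + 2 * qs Q 3 v

/-- derivative of `g2` without the factor `cos` -/
noncomputable def g3 (Q : ℝ[X]) (v : ℝ) : ℝ :=
  27 / 8 * qs (derivative (derivative (derivative Q))) 10 v - 27 * qs (derivative (derivative Q)) 8 v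
    + 81 / 2 * qs (derivative Q) 6 v - 6 * qs Q 4 v

theorem YY_eq (n : ℕ) : YY n (ws n) = qs (P n) 1 := by
  funext v
  unfold YY qs
  rw [P_eval, pow_one, div_eq_mul_inv]

theorem d0 (Q : ℝ[X]) {v : ℝ} (hv : |v| < Real.pi / 3) :
    HasDerivAt (qs Q 1) (Real.cos (2 * Real.pi / 3 + v) * g1 Q v) v := by
  refine (dqs Q 1 hv).congr_deriv ?_
  unfold g1
  push_cast
  ring

theorem d1 (Q : ℝ[X]) {v : ℝ} (hv : |v| < Real.pi / 3) :
    HasDerivAt (g1 Q) (Real.cos (2 * Real.pi / 3 + v) * g2 Q v) v := by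
  refine (((dqs (derivative Q) 4 hv).const_mul (3 / 2)).sub (dqs Q 2 hv)).congr_deriv ?_
  unfold g2
  push_cast
  ring

theorem d2 (Q : ℝ[X]) {v : ℝ} (hv : |v| < Real.pi / 3) :
    HasDerivAt (g2 Q) (Real.cos (2 * Real.pi / 3 + v) * g3 Q v) v := by
  refine ((((dqs (derivative (derivative Q)) 7 hv).const_mul (9 / 4)).sub
    ((dqs (derivative Q) 5 hv).const_mul (15 / 2))).add ((dqs Q 3 hv).const_mul 2)).congr_deriv ?_
  unfold g3
  push_cast
  ring

theorem dd1 (Q : ℝ[X]) {v : ℝ} (hv : |v| < Real.pi / 3) :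
    deriv (qs Q 1) v = Real.cos (2 * Real.pi / 3 + v) * g1 Q v := (d0 Q hv).deriv

theorem dd2 (Q : ℝ[X]) {v : ℝ} (hv : |v| < Real.pi / 3) :
    deriv (deriv (qs Q 1)) v = -Real.sin (2 * Real.pi / 3 + v) * g1 Q v +
      Real.cos (2 * Real.pi / 3 + v) ^ 2 * g2 Q v := by
  have h1 : deriv (qs Q 1) =ᶠ[nhds v] fun v => Real.cos (2 * Real.pi / 3 + v) * g1 Q v := by
    filter_upwards [near hv] with w hw
    exact dd1 Q hw
  have h2 := (dcos v).mul (d1 Q hv)
  have h3 : deriv (fun v => Real.cos (2 * Real.pi / 3 + v) * g1 Q v) v = _ := h2.deriv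
  rw [h1.deriv_eq, h3]
  ring

theorem dd3 (Q : ℝ[X]) {v : ℝ} (hv : |v| < Real.pi / 3) :
    deriv (deriv (deriv (qs Q 1))) v = Real.cos (2 * Real.pi / 3 + v) * (-g1 Q v -
      3 * Real.sin (2 * Real.pi / 3 + v) * g2 Q v + Real.cos (2 * Real.pi / 3 + v) ^ 2 * g3 Q v) := by
  have h1 : deriv (deriv (qs Q 1)) =ᶠ[nhds v] fun v => -Real.sin (2 * Real.pi / 3 + v) * g1 Q v +
      Real.cos (2 * Real.pi / 3 + v) ^ 2 * g2 Q v := by
    filter_upwards [near hv] with w hw
    exact dd2 Q hw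
  have h2 := ((dsin v).neg.mul (d1 Q hv)).add (((dcos v).pow 2).mul (d2 Q hv))
  have h3 : deriv (fun v => -Real.sin (2 * Real.pi / 3 + v) * g1 Q v +
      Real.cos (2 * Real.pi / 3 + v) ^ 2 * g2 Q v) v = _ := h2.deriv
  rw [h1.deriv_eq, h3]
  push_cast
  simp only [Pi.neg_apply, Pi.pow_apply]
  ring

theorem sin3 (v : ℝ) : Real.sin (3 * v) =
    3 * Real.sin (2 * Real.pi / 3 + v) - 4 * Real.sin (2 * Real.pi / 3 + v) ^ 3 := by
  have h1 : Real.sin (3 * v) = Real.sin (3 * (2 * Real.pi / 3 + v)) := by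
    rw [show 3 * (2 * Real.pi / 3 + v) = 3 * v + 2 * Real.pi by ring, Real.sin_add_two_pi]
  rw [h1, Real.sin_three_mul]

theorem cos3 (v : ℝ) : Real.cos (3 * v) =
    Real.cos (2 * Real.pi / 3 + v) * (1 - 4 * Real.sin (2 * Real.pi / 3 + v) ^ 2) := by
  have h1 : Real.cos (3 * v) = Real.cos (3 * (2 * Real.pi / 3 + v)) := by
    rw [show 3 * (2 * Real.pi / 3 + v) = 3 * v + 2 * Real.pi by ring, Real.cos_add_two_pi]
  rw [h1, Real.cos_three_mul]
  have h2 := Real.sin_sq_add_cos_sq (2 * Real.pi / 3 + v)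
  linear_combination (4 * Real.cos (2 * Real.pi / 3 + v)) * h2

/-- the equation of third order -/
theorem ode {n : ℕ} (hn : 1 ≤ n) (v : ℝ) (hv : |v| < Real.pi / 3) :
    Real.sin (3 * v) ^ 3 * deriv (deriv (deriv (YY n (ws n)))) v +
      9 * Real.sin (3 * v) ^ 2 * Real.cos (3 * v) * deriv (deriv (YY n (ws n))) v -
      23 * Real.sin (3 * v) ^ 3 * deriv (YY n (ws n)) v -
      15 * Real.sin (3 * v) ^ 2 * Real.cos (3 * v) * YY n (ws n) v =
    9 * (2 * (n : ℝ) * (2 * n + 1)) *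
      (Real.sin (3 * v) * deriv (YY n (ws n)) v - 3 * Real.cos (3 * v) * YY n (ws n) v) := by
  have hs := (B1.sin_pos hv).ne'
  have ho := P_ode_eval hn (tt (2 * Real.pi / 3 + v))
  rw [YY_eq, dd3 _ hv, dd2 _ hv, dd1 _ hv, sin3, cos3]
  have ht : tt (2 * Real.pi / 3 + v) = 1 - 3 / 4 * ((Real.sin (2 * Real.pi / 3 + v))⁻¹) ^ 2 := by
    unfold tt
    rw [inv_pow]
    field_simp
  have hcs : Real.cos (2 * Real.pi / 3 + v) ^ 2 = 1 - Real.sin (2 * Real.pi / 3 + v) ^ 2 := by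
    have := Real.sin_sq_add_cos_sq (2 * Real.pi / 3 + v)
    linarith
  unfold g1 g2 g3 qs
  rw [hcs]
  generalize (P n).eval (tt (2 * Real.pi / 3 + v)) = p0 at ho ⊢
  generalize (derivative (P n)).eval (tt (2 * Real.pi / 3 + v)) = p1 at ho ⊢
  generalize (derivative (derivative (P n))).eval (tt (2 * Real.pi / 3 + v)) = p2 at ho ⊢
  generalize (derivative (derivative (derivative (P n)))).eval (tt (2 * Real.pi / 3 + v)) = p3
    at ho ⊢
  rw [ht] at ho
  generalize Real.cos (2 * Real.pi / 3 + v) = c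
  generalize Real.sin (2 * Real.pi / 3 + v) = s at ho hs ⊢
  generalize 2 * (n : ℝ) * (2 * n + 1) = L at ho ⊢
  have key : (c * (-72 * s)) * ((1 - 3 / 4 * s⁻¹ ^ 2)^2 * (((1 - 3 / 4 * s⁻¹ ^ 2) - 4 * (1 - 3 / 4 * s⁻¹ ^ 2)^2) * p3 +
      (3 - 18 * (1 - 3 / 4 * s⁻¹ ^ 2)) * p2 - 12 * p1)) =
    (c * (-72 * s)) * (L * ((1 - (1 - 3 / 4 * s⁻¹ ^ 2)) * (1 - 3 / 4 * s⁻¹ ^ 2) * p1
      - (1 + (1 - 3 / 4 * s⁻¹ ^ 2)) * p0)) := by
    rw [ho]
  field_simp at key ⊢
  linear_combination 72 * key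

end Pool.Agent.Helper38.EW
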