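import Pool.Agent.Helper38.EW.B2

/-!
The exponent at `0` of the symmetrised solution, and the nonvanishing.  (`euler_step`, `sin_div` and the plan are as in
the library module `H731R6.Bc.U2b`, `U3`.)
-/

set_option autoImplicit false

namespace Pool.Agent.Helper38.EW

namespace B3

open Filter Topology

/-- the Euler operator `v d/dv` -/
theorem euler_step {f u : ℝ → ℝ} {a : ℕ} (hu : AnalyticAt ℝ u 0)
    (h : ∀ᶠ v in 𝓝 (0:ℝ), f v = v ^ a * u v) :
    AnalyticAt ℝ (fun v => (a : ℝ) * u v + v * deriv u v) 0 ∧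
      ∀ᶠ v in 𝓝 (0:ℝ), v * deriv f v = v ^ a * ((a : ℝ) * u v + v * deriv u v) := by
  refine ⟨(analyticAt_const.mul hu).add (analyticAt_id.mul hu.deriv), ?_⟩
  filter_upwards [h.eventually_nhds, hu.eventually_analyticAt] with v hv hva
  have h1 : deriv f v = deriv (fun v => v ^ a * u v) v :=
    Filter.EventuallyEq.deriv_eq hv
  have h2 : HasDerivAt (fun v : ℝ => v ^ a * u v)
      ((a : ℝ) * v ^ (a - 1) * u v + v ^ a * deriv u v) v :=
    (hasDerivAt_pow a v).mul hva.differentiableAt.hasDerivAt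
  rw [h1, h2.deriv]
  rcases Nat.eq_zero_or_pos a with h0 | h0
  · subst h0
    simp
  · obtain ⟨b, rfl⟩ : ∃ b, a = b + 1 := ⟨a - 1, by omega⟩
    rw [Nat.add_sub_cancel]
    push_cast
    ring

theorem sin_div : Tendsto (fun v : ℝ => Real.sin (3 * v) / v) (𝓝[≠] 0) (𝓝 3) := by
  have h : HasDerivAt (fun v : ℝ => Real.sin (3 * v)) 3 0 := by
    have h1 : HasDerivAt (fun v : ℝ => 3 * v) 3 0 := by
      simpa using (hasDerivAt_id (0:ℝ)).const_mul 3
    have := h1.sin
    simpa using this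
  have h2 := h.tendsto_slope
  refine h2.congr' ?_
  filter_upwards [self_mem_nhdsWithin] with v hv
  simp [slope_def_field]

/-- the exponent at `0` of the even solutions of the equation of third order -/
theorem exponent {D : ℝ → ℝ} (hD : AnalyticAt ℝ D 0) (hev : ∀ v, D (-v) = D v) {n : ℕ}
    (hode : ∀ᶠ v in 𝓝 (0:ℝ),
      Real.sin (3 * v) ^ 3 * deriv (deriv (deriv D)) v +
      9 * Real.sin (3 * v) ^ 2 * Real.cos (3 * v) * deriv (deriv D) v -
      23 * Real.sin (3 * v) ^ 3 * deriv D v -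
      15 * Real.sin (3 * v) ^ 2 * Real.cos (3 * v) * D v =
    9 * (2 * (n : ℝ) * (2 * n + 1)) *
      (Real.sin (3 * v) * deriv D v - 3 * Real.cos (3 * v) * D v))
    (hne : ¬ ∀ᶠ v in 𝓝 (0:ℝ), D v = 0) :
    ∃ c : ℝ, c ≠ 0 ∧ Tendsto (fun v : ℝ => D v / v^(2*n)) (𝓝[≠] 0) (𝓝 c) := by
  obtain ⟨a, u, hu, hu0, hDu⟩ := (hD.exists_eventuallyEq_pow_smul_nonzero_iff).mpr hne
  simp only [sub_zero, smul_eq_mul] at hDu
  obtain ⟨hu1, h1⟩ := euler_step hu hDu
  obtain ⟨hu2, h2⟩ := euler_step hu1 h1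
  obtain ⟨hu3, h3⟩ := euler_step hu2 h2
  set u1 : ℝ → ℝ := fun v => (a : ℝ) * u v + v * deriv u v with hu1d
  set u2 : ℝ → ℝ := fun v => (a : ℝ) * u1 v + v * deriv u1 v with hu2d
  set u3 : ℝ → ℝ := fun v => (a : ℝ) * u2 v + v * deriv u2 v with hu3d
  have e1 : u1 0 = a * u 0 := by simp [hu1d]
  have e2 : u2 0 = a * (a * u 0) := by
    have : u2 0 = a * u1 0 := by simp [hu2d]
    rw [this, e1]
  have e3 : u3 0 = a * (a * (a * u 0)) := by
    have : u3 0 = a * u2 0 := by simp [hu3d]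
    rw [this, e2]
  -- the equation for the analytic factors
  have hmain : ∀ᶠ v in 𝓝[≠] (0:ℝ),
      (Real.sin (3 * v) / v) ^ 3 * ((u3 v - 3 * u2 v + 2 * u1 v) - 23 * v ^ 2 * u1 v) +
        (Real.sin (3 * v) / v) ^ 2 * Real.cos (3 * v) * (9 * (u2 v - u1 v) - 15 * v ^ 2 * u v) =
      9 * (2 * (n : ℝ) * (2 * n + 1)) * ((Real.sin (3 * v) / v) * u1 v -
        3 * Real.cos (3 * v) * u v) := by
    have han : ∀ᶠ v in 𝓝 (0:ℝ), AnalyticAt ℝ D v := hD.eventually_analyticAt
    filter_upwards [self_mem_nhdsWithin, hode.filter_mono nhdsWithin_le_nhds,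
      hDu.filter_mono nhdsWithin_le_nhds, h1.filter_mono nhdsWithin_le_nhds,
      h2.filter_mono nhdsWithin_le_nhds, h3.filter_mono nhdsWithin_le_nhds,
      han.filter_mono nhdsWithin_le_nhds, han.eventually_nhds.filter_mono nhdsWithin_le_nhds]
      with v hv hode hDu h1 h2 h3 hav hav'
    have hv0 : v ≠ 0 := hv
    have d1 : ∀ᶠ x in 𝓝 v, deriv (fun v => v * deriv D v) x = deriv D x + x * deriv (deriv D) x := by
      filter_upwards [hav'] with x hx
      have : HasDerivAt (fun v => v * deriv D v) (1 * deriv D x + x * deriv (deriv D) x) x :=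
        (hasDerivAt_id x).mul hx.deriv.differentiableAt.hasDerivAt
      rw [this.deriv]
      ring
    have d1' := d1.self_of_nhds
    have d2 : deriv (fun v => v * deriv (fun v => v * deriv D v) v) v =
        deriv D v + 3 * v * deriv (deriv D) v + v ^ 2 * deriv (deriv (deriv D)) v := by
      have hh : (fun v => v * deriv (fun v => v * deriv D v) v) =ᶠ[𝓝 v]
          (fun x => x * (deriv D x + x * deriv (deriv D) x)) := by
        filter_upwards [d1] with x hx
        rw [hx]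
      rw [hh.deriv_eq]
      have k1 : HasDerivAt (deriv D) (deriv (deriv D) v) v :=
        hav.deriv.differentiableAt.hasDerivAt
      have k2 : HasDerivAt (deriv (deriv D)) (deriv (deriv (deriv D)) v) v :=
        hav.deriv.deriv.differentiableAt.hasDerivAt
      have : HasDerivAt (fun x => x * (deriv D x + x * deriv (deriv D) x))
          (1 * (deriv D v + v * deriv (deriv D) v) + v * (deriv (deriv D) v +
            (1 * deriv (deriv D) v + v * deriv (deriv (deriv D)) v))) v :=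
        (hasDerivAt_id v).mul (k1.add ((hasDerivAt_id v).mul k2))
      rw [this.deriv]
      ring
    rw [d1'] at h2
    rw [d2] at h3
    have hva : v ^ a ≠ 0 := pow_ne_zero a hv0
    have g0 : D v = v ^ a * u v := hDu
    have g1 : deriv D v = v ^ a * u1 v / v := by
      rw [eq_div_iff hv0, ← h1]
      ring
    have g2 : deriv (deriv D) v = v ^ a * (u2 v - u1 v) / v ^ 2 := by
      rw [eq_div_iff (pow_ne_zero 2 hv0), mul_sub, ← h2, ← h1]
      ring
    have g3 : deriv (deriv (deriv D)) v = v ^ a * (u3 v - 3 * u2 v + 2 * u1 v) / v ^ 3 := by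
      rw [eq_div_iff (pow_ne_zero 3 hv0)]
      have : v ^ a * (u3 v - 3 * u2 v + 2 * u1 v) =
          v ^ a * u3 v - 3 * (v ^ a * u2 v) + 2 * (v ^ a * u1 v) := by ring
      rw [this, ← h3, ← h2, ← h1]
      ring
    rw [g3, g2, g1, g0] at hode
    have key : v ^ a * ((Real.sin (3 * v) / v) ^ 3 * ((u3 v - 3 * u2 v + 2 * u1 v) -
        23 * v ^ 2 * u1 v) +
        (Real.sin (3 * v) / v) ^ 2 * Real.cos (3 * v) * (9 * (u2 v - u1 v) - 15 * v ^ 2 * u v)) =
        v ^ a * (9 * (2 * (n : ℝ) * (2 * n + 1)) * ((Real.sin (3 * v) / v) * u1 v -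
        3 * Real.cos (3 * v) * u v)) := by
      have r1 : v ^ a * (9 * (2 * (n : ℝ) * (2 * n + 1)) * ((Real.sin (3 * v) / v) * u1 v -
        3 * Real.cos (3 * v) * u v)) = 9 * (2 * (n : ℝ) * (2 * n + 1)) *
      (Real.sin (3 * v) * (v ^ a * u1 v / v) - 3 * Real.cos (3 * v) * (v ^ a * u v)) := by
        ring
      rw [r1, ← hode]
      field_simp
      ring
    exact mul_left_cancel₀ hva key
  -- limits
  have tu : Tendsto u (𝓝[≠] 0) (𝓝 (u 0)) := hu.continuousAt.tendsto.mono_left nhdsWithin_le_nhds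
  have tu1 : Tendsto u1 (𝓝[≠] 0) (𝓝 (a * u 0)) := by
    rw [← e1]; exact hu1.continuousAt.tendsto.mono_left nhdsWithin_le_nhds
  have tu2 : Tendsto u2 (𝓝[≠] 0) (𝓝 (a * (a * u 0))) := by
    rw [← e2]; exact hu2.continuousAt.tendsto.mono_left nhdsWithin_le_nhds
  have tu3 : Tendsto u3 (𝓝[≠] 0) (𝓝 (a * (a * (a * u 0)))) := by
    rw [← e3]; exact hu3.continuousAt.tendsto.mono_left nhdsWithin_le_nhds
  have tc : Tendsto (fun v : ℝ => Real.cos (3 * v)) (𝓝[≠] 0) (𝓝 1) := by
    have : Tendsto (fun v : ℝ => Real.cos (3 * v)) (𝓝 0) (𝓝 (Real.cos (3 * 0))) := by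
      apply Continuous.tendsto
      fun_prop
    rw [mul_zero, Real.cos_zero] at this
    exact this.mono_left nhdsWithin_le_nhds
  have tv : Tendsto (fun v : ℝ => v ^ 2) (𝓝[≠] 0) (𝓝 0) := by
    have : Tendsto (fun v : ℝ => v ^ 2) (𝓝 0) (𝓝 (0 ^ 2)) := by
      apply Continuous.tendsto
      fun_prop
    rw [zero_pow (by norm_num)] at this
    exact this.mono_left nhdsWithin_le_nhds
  have tL := ((sin_div.pow 3).mul (((tu3.sub (tu2.const_mul 3)).add (tu1.const_mul 2)).sub
      ((tv.const_mul 23).mul tu1))).add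
    (((sin_div.pow 2).mul tc).mul (((tu2.sub tu1).const_mul 9).sub ((tv.const_mul 15).mul tu)))
  have tR := ((sin_div.mul tu1).sub ((tc.const_mul 3).mul tu)).const_mul
    (9 * (2 * (n : ℝ) * (2 * n + 1)))
  have hlim := tendsto_nhds_unique (tL.congr' hmain) tR
  -- the exponent is not one
  have ha1 : a ≠ 1 := by
    intro ha
    subst ha
    have t1 : Tendsto (fun v => D v / v) (𝓝[≠] 0) (𝓝 (u 0)) := by
      refine tu.congr' ?_
      filter_upwards [self_mem_nhdsWithin, hDu.filter_mono nhdsWithin_le_nhds] with v hv hDu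
      have hv0 : v ≠ 0 := hv
      rw [hDu, pow_one, mul_div_cancel_left₀ _ hv0]
    have t2 : Tendsto (fun v : ℝ => -v) (𝓝[≠] 0) (𝓝[≠] 0) := by
      have h3 : Tendsto (fun v : ℝ => -v) (𝓝[≠] 0) (𝓝 0) := by
        have : Tendsto (fun v : ℝ => -v) (𝓝 0) (𝓝 (-0)) := continuous_neg.tendsto 0
        rw [neg_zero] at this
        exact this.mono_left nhdsWithin_le_nhds
      refine tendsto_nhdsWithin_iff.mpr ⟨h3, ?_⟩
      filter_upwards [self_mem_nhdsWithin] with v hv
      have hv0 : v ≠ 0 := hv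
      show -v ≠ 0
      exact neg_ne_zero.mpr hv0
    have t3 := t1.comp t2
    have t4 : Tendsto (fun v => -(D v / v)) (𝓝[≠] 0) (𝓝 (u 0)) := by
      refine t3.congr ?_
      intro v
      simp only [Function.comp_apply]
      rw [hev, div_neg]
    have t5 := tendsto_nhds_unique t4 t1.neg
    apply hu0
    linarith
  have ha1' : (a : ℝ) - 1 ≠ 0 := by
    intro h
    apply ha1
    have : (a : ℝ) = ((1 : ℕ) : ℝ) := by push_cast; linarith
    exact_mod_cast this
  have hfin : ((a : ℝ) - 2 * n) * ((a : ℝ) + 2 * n + 1) = 0 := by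
    have h4 : (27 * (((a : ℝ) - 1) * u 0)) * (((a : ℝ) - 2 * n) * ((a : ℝ) + 2 * n + 1)) =
        (27 * (((a : ℝ) - 1) * u 0)) * 0 := by
      linear_combination hlim
    exact mul_left_cancel₀ (mul_ne_zero (by norm_num) (mul_ne_zero ha1' hu0)) h4
  have han : (a : ℝ) - 2 * n = 0 := by
    rcases mul_eq_zero.1 hfin with h | h
    · exact h
    · exfalso
      have : (0 : ℝ) < (a : ℝ) + 2 * n + 1 := by positivity
      linarith
  have haN : a = 2 * n := by
    have : (a : ℝ) = ((2 * n : ℕ) : ℝ) := by push_cast; linarith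
    exact_mod_cast this
  refine ⟨u 0, hu0, ?_⟩
  refine tu.congr' ?_
  filter_upwards [self_mem_nhdsWithin, hDu.filter_mono nhdsWithin_le_nhds] with v hv hDu
  have hv0 : v ≠ 0 := hv
  rw [hDu, ← haN]
  rw [mul_div_cancel_left₀ _ (pow_ne_zero a hv0)]

/-! ### analyticity -/

theorem YY_analytic (n : ℕ) (h : ℕ → ℝ) (v : ℝ) (hv : |v| < Real.pi / 3) :
    AnalyticAt ℝ (YY n h) v := by
  have hs : Real.sin (2 * Real.pi / 3 + v) ≠ 0 := (B1.sin_pos hv).ne'
  have hlin : AnalyticAt ℝ (fun v : ℝ => 2 * Real.pi / 3 + v) v := analyticAt_const.add analyticAt_id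
  have hsin : AnalyticAt ℝ (fun v : ℝ => Real.sin (2 * Real.pi / 3 + v)) v :=
    AnalyticAt.comp (g := Real.sin) (f := fun v : ℝ => 2 * Real.pi / 3 + v) Real.analyticAt_sin hlin
  have htt : AnalyticAt ℝ (fun v : ℝ => tt (2 * Real.pi / 3 + v)) v := by
    unfold tt
    refine analyticAt_const.sub (analyticAt_const.div (analyticAt_const.mul (hsin.pow 2)) ?_)
    have := pow_ne_zero 2 hs
    simpa using this
  have hsum : AnalyticAt ℝ (fun v : ℝ => ∑ k ∈ Finset.range (n + 1),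
      h k * tt (2 * Real.pi / 3 + v) ^ k) v := by
    apply Finset.analyticAt_fun_sum
    intro k _
    exact analyticAt_const.mul (htt.pow k)
  exact hsum.div hsin hs

theorem YD_analytic (n : ℕ) (h : ℕ → ℝ) (v : ℝ) (hv : |v| < Real.pi / 3) :
    AnalyticAt ℝ (YD n h) v := by
  have h1 := YY_analytic n h v hv
  have h2 : AnalyticAt ℝ (YY n h) (-v) := YY_analytic n h (-v) (by rwa [abs_neg])
  have h3 : AnalyticAt ℝ (fun v : ℝ => YY n h (-v)) v :=
    AnalyticAt.comp (g := YY n h) (f := fun v : ℝ => -v) h2 analyticAt_id.neg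
  exact h1.add h3

theorem YD_even (n : ℕ) (h : ℕ → ℝ) (v : ℝ) : YD n h (-v) = YD n h v := by
  unfold YD; rw [neg_neg]; ring

end B3

open Filter Topology in
theorem frob {n : ℕ} (hn : 1 ≤ n) (hne : ¬ ∀ᶠ v in 𝓝 (0:ℝ), YD n (ws n) v = 0) :
    ∃ c : ℝ, c ≠ 0 ∧ Tendsto (fun v : ℝ => YD n (ws n) v / v^(2*n)) (𝓝[≠] 0) (𝓝 c) := by
  have hpi : (0 : ℝ) < Real.pi / 3 := by positivity
  have h0 : |(0:ℝ)| < Real.pi / 3 := by simpa using hpi
  refine B3.exponent (B3.YD_analytic n (ws n) 0 h0) (B3.YD_even n (ws n)) ?_ hne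
  have hopen : IsOpen {v : ℝ | |v| < Real.pi / 3} := isOpen_lt continuous_abs continuous_const
  -- derivatives of the even part
  have hneg : ∀ v : ℝ, |v| < Real.pi / 3 → |(-v)| < Real.pi / 3 := fun v hv => by rwa [abs_neg]
  have an : ∀ v : ℝ, |v| < Real.pi / 3 → AnalyticAt ℝ (YY n (ws n)) v :=
    fun v hv => B3.YY_analytic n (ws n) v hv
  have dn : ∀ (f : ℝ → ℝ) (v : ℝ), AnalyticAt ℝ f (-v) →
      HasDerivAt (fun x => f (-x)) (-deriv f (-v)) v := by
    intro f v hf
    have h1 : HasDerivAt f (deriv f (-v)) (-v) := hf.differentiableAt.hasDerivAt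
    have h2 : HasDerivAt (fun x => f (-x)) (deriv f (-v) * -1) v := h1.comp v (hasDerivAt_neg v)
    rwa [mul_neg_one] at h2
  have D1 : ∀ v : ℝ, |v| < Real.pi / 3 → deriv (YD n (ws n)) v =
      deriv (YY n (ws n)) v - deriv (YY n (ws n)) (-v) := by
    intro v hv
    have h1 : HasDerivAt (YY n (ws n)) (deriv (YY n (ws n)) v) v :=
      (an v hv).differentiableAt.hasDerivAt
    have h2 := h1.add (dn _ v (an (-v) (hneg v hv)))
    have h3 : deriv (YD n (ws n)) v = deriv (YY n (ws n)) v + -deriv (YY n (ws n)) (-v) := h2.deriv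
    rw [h3]; ring
  have D2 : ∀ v : ℝ, |v| < Real.pi / 3 → deriv (deriv (YD n (ws n))) v =
      deriv (deriv (YY n (ws n))) v + deriv (deriv (YY n (ws n))) (-v) := by
    intro v hv
    have hE : deriv (YD n (ws n)) =ᶠ[𝓝 v]
        (fun v => deriv (YY n (ws n)) v - deriv (YY n (ws n)) (-v)) := by
      filter_upwards [hopen.mem_nhds hv] with x hx
      exact D1 x hx
    rw [hE.deriv_eq]
    have h1 : HasDerivAt (deriv (YY n (ws n))) (deriv (deriv (YY n (ws n))) v) v :=
      (an v hv).deriv.differentiableAt.hasDerivAt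
    have h2 := h1.sub (dn _ v (an (-v) (hneg v hv)).deriv)
    have h3 : deriv (fun v => deriv (YY n (ws n)) v - deriv (YY n (ws n)) (-v)) v =
      deriv (deriv (YY n (ws n))) v - -deriv (deriv (YY n (ws n))) (-v) := h2.deriv
    rw [h3]; ring
  have D3 : ∀ v : ℝ, |v| < Real.pi / 3 → deriv (deriv (deriv (YD n (ws n)))) v =
      deriv (deriv (deriv (YY n (ws n)))) v - deriv (deriv (deriv (YY n (ws n)))) (-v) := by
    intro v hv
    have hE : deriv (deriv (YD n (ws n))) =ᶠ[𝓝 v]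
        (fun v => deriv (deriv (YY n (ws n))) v + deriv (deriv (YY n (ws n))) (-v)) := by
      filter_upwards [hopen.mem_nhds hv] with x hx
      exact D2 x hx
    rw [hE.deriv_eq]
    have h1 : HasDerivAt (deriv (deriv (YY n (ws n)))) (deriv (deriv (deriv (YY n (ws n)))) v) v :=
      (an v hv).deriv.deriv.differentiableAt.hasDerivAt
    have h2 := h1.add (dn _ v (an (-v) (hneg v hv)).deriv.deriv)
    have h3 : deriv (fun v => deriv (deriv (YY n (ws n))) v + deriv (deriv (YY n (ws n))) (-v)) v =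
      deriv (deriv (deriv (YY n (ws n)))) v + -deriv (deriv (deriv (YY n (ws n)))) (-v) := h2.deriv
    rw [h3]; ring
  filter_upwards [hopen.mem_nhds h0] with v hv
  have e1 := ode hn v hv
  have e2 := ode hn (-v) (hneg v hv)
  rw [show 3 * -v = -(3 * v) by ring, Real.sin_neg, Real.cos_neg] at e2
  rw [D1 v hv, D2 v hv, D3 v hv]
  have e3 : YD n (ws n) v = YY n (ws n) v + YY n (ws n) (-v) := rfl
  rw [e3]
  linear_combination e1 + e2

/-! ### positivity and nonvanishing -/

theorem ws_pos {n k : ℕ} (h1 : 1 ≤ k) (h2 : k ≤ n) : 0 < ws n k := by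
  unfold ws
  apply mul_pos (by exact_mod_cast h1)
  apply Finset.prod_pos
  intro i hi
  rw [Finset.mem_Icc] at hi
  have hi1 : (i : ℝ) + 1 ≤ n := by
    have : i + 1 ≤ n := by omega
    exact_mod_cast this
  have hi0 : (1 : ℝ) ≤ i := by exact_mod_cast hi.1
  apply div_pos
  · apply mul_pos <;> nlinarith
  · apply mul_pos <;> nlinarith

namespace B3

/-- the sine -/
noncomputable def s (v : ℝ) : ℝ := Real.sin (2 * Real.pi / 3 + v)

/-- the regularised function -/
noncomputable def A (n : ℕ) (v : ℝ) : ℝ :=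
  ∑ k ∈ Finset.range (n + 1), ws n k * (s v ^ (2 * (n - k)) * ((4 * s v ^ 2 - 3) / 4) ^ k)

theorem s_cont : Continuous s := by
  unfold s
  fun_prop

theorem A_cont (n : ℕ) : Continuous (A n) := by
  unfold A
  have := s_cont
  fun_prop

theorem s_end : s (Real.pi / 3) = 0 := by
  unfold s
  rw [show 2 * Real.pi / 3 + Real.pi / 3 = Real.pi by ring, Real.sin_pi]

theorem A_end (n : ℕ) : A n (Real.pi / 3) = ws n n * (-3 / 4) ^ n := by
  unfold A
  rw [s_end, Finset.sum_range_succ, Finset.sum_eq_zero]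
  · rw [Nat.sub_self]
    norm_num
  · intro k hk
    rw [Finset.mem_range] at hk
    rw [zero_pow (by omega)]
    ring

theorem A_eq (n : ℕ) (v : ℝ) (hs : s v ≠ 0) :
    A n v = s v ^ (2 * n + 1) * YY n (ws n) v := by
  unfold A YY Sr
  have e0 : Real.sin (2 * Real.pi / 3 + v) = s v := rfl
  have ht : (4 * s v ^ 2 - 3) / 4 = s v ^ 2 * tt (2 * Real.pi / 3 + v) := by
    unfold tt
    rw [e0]
    field_simp
  rw [e0, mul_div_assoc', Finset.mul_sum, Finset.sum_div]
  apply Finset.sum_congr rfl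
  intro k hk
  rw [Finset.mem_range] at hk
  rw [ht, mul_pow, ← pow_mul]
  have e2 : s v ^ (2 * (n - k)) * s v ^ (2 * k) = s v ^ (2 * n) := by
    rw [← pow_add]
    congr 1
    omega
  rw [← mul_assoc (s v ^ (2 * (n - k))), e2, pow_succ, eq_div_iff hs]
  ring

theorem YY_end (n : ℕ) (h : ℕ → ℝ) : ContinuousAt (YY n h) (-(Real.pi / 3)) := by
  have hs : Real.sin (2 * Real.pi / 3 + -(Real.pi / 3)) ≠ 0 := by
    rw [show 2 * Real.pi / 3 + -(Real.pi / 3) = Real.pi / 3 by ring, Real.sin_pi_div_three]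
    positivity
  unfold YY Sr tt
  fun_prop (disch := positivity)

end B3

open Filter Topology in
theorem YD_ne {n : ℕ} (hn : 1 ≤ n) : ¬ ∀ᶠ v in 𝓝 (0:ℝ), YD n (ws n) v = 0 := by
  intro h0
  have hpi := Real.pi_pos
  have hA : AnalyticOnNhd ℝ (YD n (ws n)) (Set.Ioo (-(Real.pi / 3)) (Real.pi / 3)) := by
    intro v hv
    exact B3.YD_analytic n (ws n) v (abs_lt.2 hv)
  have hz : Set.EqOn (YD n (ws n)) 0 (Set.Ioo (-(Real.pi / 3)) (Real.pi / 3)) :=
    hA.eqOn_zero_of_preconnected_of_eventuallyEq_zero isPreconnected_Ioo (z₀ := 0)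
      ⟨by linarith, by linarith⟩ h0
  have hev : ∀ᶠ v in 𝓝[<] (Real.pi / 3),
      B3.A n v = -(B3.s v ^ (2 * n + 1) * YY n (ws n) (-v)) := by
    have h1 : Set.Ioo (0 : ℝ) (Real.pi / 3) ∈ 𝓝[<] (Real.pi / 3) :=
      Ioo_mem_nhdsLT (by linarith)
    filter_upwards [h1] with v hv
    have hs : B3.s v ≠ 0 := by
      apply ne_of_gt
      apply Real.sin_pos_of_pos_of_lt_pi
      · linarith [hv.1]
      · linarith [hv.2]
    rw [B3.A_eq n v hs, ← mul_neg]
    congr 1
    have := hz (show v ∈ Set.Ioo (-(Real.pi / 3)) (Real.pi / 3) from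
      ⟨by linarith [hv.1], hv.2⟩)
    unfold YD at this
    simp only [Pi.zero_apply] at this
    linarith
  have l1 : Tendsto (B3.A n) (𝓝[<] (Real.pi / 3)) (𝓝 (B3.A n (Real.pi / 3))) :=
    ((B3.A_cont n).tendsto _).mono_left nhdsWithin_le_nhds
  have l2 : Tendsto (fun v => -(B3.s v ^ (2 * n + 1) * YY n (ws n) (-v))) (𝓝[<] (Real.pi / 3))
      (𝓝 (-(B3.s (Real.pi / 3) ^ (2 * n + 1) * YY n (ws n) (-(Real.pi / 3))))) := by
    have c1 : ContinuousAt (fun v => B3.s v ^ (2 * n + 1)) (Real.pi / 3) :=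
      (B3.s_cont.pow _).continuousAt
    have c2 : ContinuousAt (fun v => YY n (ws n) (-v)) (Real.pi / 3) :=
      ContinuousAt.comp (f := fun v : ℝ => -v) (B3.YY_end n (ws n)) continuous_neg.continuousAt
    exact ((c1.mul c2).neg).tendsto.mono_left nhdsWithin_le_nhds
  have l3 := tendsto_nhds_unique (l1.congr' hev) l2
  rw [B3.A_end, B3.s_end, zero_pow (by omega), zero_mul, neg_zero] at l3
  rcases mul_eq_zero.1 l3 with h | h
  · exact (ws_pos hn le_rfl).ne' h
  · exact pow_ne_zero n (by norm_num) h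

end Pool.Agent.Helper38.EW
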