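import Pool.Agent.Helper38.EW.B3

/-!
Uniqueness of the solution of the functional equation.  (The plan is as in the library module `H731R6.Bc.U4`.)
-/

set_option autoImplicit false

namespace Pool.Agent.Helper38.EW

namespace B4

/-- the triangular system -/
lemma tri (n : ℕ) : ∀ h : ℕ → ℝ, h 0 = 0 → ∃ a : ℕ → ℝ, ∀ k ≤ n,
    h k = ∑ m ∈ Finset.Icc 1 n, a m * ws m k := by
  induction n with
  | zero =>
    intro h h0
    refine ⟨fun _ => 0, ?_⟩
    intro k hk
    obtain rfl : k = 0 := by omega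
    simp [h0]
  | succ n ih =>
    intro h hz
    have h0 : ws (n + 1) (n + 1) ≠ 0 := (ws_pos (by omega) le_rfl).ne'
    obtain ⟨a, ha⟩ := ih (fun k => h k - h (n + 1) / ws (n + 1) (n + 1) * ws (n + 1) k)
      (by simp [hz, ws_zero])
    refine ⟨fun m => if m = n + 1 then h (n + 1) / ws (n + 1) (n + 1) else a m, ?_⟩
    intro k hk
    rw [Finset.sum_Icc_succ_top (by omega)]
    beta_reduce
    rw [if_pos rfl]
    have e1 : ∑ m ∈ Finset.Icc 1 n,
        (if m = n + 1 then h (n + 1) / ws (n + 1) (n + 1) else a m) * ws m k =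
        ∑ m ∈ Finset.Icc 1 n, a m * ws m k := by
      apply Finset.sum_congr rfl
      intro m hm
      have hm' := Finset.mem_Icc.1 hm
      rw [if_neg (by omega)]
    rw [e1]
    rcases Nat.lt_or_ge n k with hk' | hk'
    · obtain rfl : k = n + 1 := by omega
      have e2 : ∑ m ∈ Finset.Icc 1 n, a m * ws m (n + 1) = 0 := by
        apply Finset.sum_eq_zero
        intro m hm
        have hm' := Finset.mem_Icc.1 hm
        rw [ws_big hm'.1 (by omega), mul_zero]
      rw [e2, zero_add, div_mul_cancel₀ _ h0]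
    · rw [← ha k hk']
      ring

lemma YY_ws {m n : ℕ} (hm1 : 1 ≤ m) (hm : m ≤ n) (v : ℝ) : YY n (ws m) v = YY m (ws m) v := by
  unfold YY Sr
  congr 1
  symm
  apply Finset.sum_subset
  · intro k hk
    rw [Finset.mem_range] at hk ⊢
    omega
  · intro k _ hk2
    rw [Finset.mem_range] at hk2
    rw [ws_big hm1 (by omega), zero_mul]

lemma YY_comb {n : ℕ} {h a : ℕ → ℝ}
    (ha : ∀ k ≤ n, h k = ∑ m ∈ Finset.Icc 1 n, a m * ws m k) (v : ℝ) :
    YY n h v = ∑ m ∈ Finset.Icc 1 n, a m * YY m (ws m) v := by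
  have e1 : ∑ m ∈ Finset.Icc 1 n, a m * YY m (ws m) v =
      ∑ m ∈ Finset.Icc 1 n, a m * YY n (ws m) v := by
    apply Finset.sum_congr rfl
    intro m hm
    have hm' := Finset.mem_Icc.1 hm
    rw [YY_ws hm'.1 hm'.2]
  rw [e1]
  unfold YY Sr
  have e2 : ∀ k ∈ Finset.range (n + 1), h k * tt (2 * Real.pi / 3 + v) ^ k =
      ∑ m ∈ Finset.Icc 1 n, a m * ws m k * tt (2 * Real.pi / 3 + v) ^ k := by
    intro k hk
    rw [ha k (Nat.lt_succ_iff.1 (Finset.mem_range.1 hk)), Finset.sum_mul]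
  rw [Finset.sum_congr rfl e2, Finset.sum_comm, Finset.sum_div]
  apply Finset.sum_congr rfl
  intro m _
  rw [← mul_div_assoc, Finset.mul_sum (Finset.range (n + 1)) _ (a m)]
  congr 1
  apply Finset.sum_congr rfl
  intro k _
  ring

lemma YD_comb {n : ℕ} {h a : ℕ → ℝ}
    (ha : ∀ k ≤ n, h k = ∑ m ∈ Finset.Icc 1 n, a m * ws m k) (v : ℝ) :
    YD n h v = ∑ m ∈ Finset.Icc 1 n, a m * YD m (ws m) v := by
  unfold YD
  rw [YY_comb ha v, YY_comb ha (-v), ← Finset.sum_add_distrib]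
  apply Finset.sum_congr rfl
  intro m _
  ring

open Filter Topology in
lemma lim_zero {m j : ℕ} (hm : 1 ≤ m) (hmj : m < j) :
    Tendsto (fun v : ℝ => YD j (ws j) v / v^(2*m)) (𝓝[≠] 0) (𝓝 0) := by
  obtain ⟨c, -, hc⟩ := frob (show 1 ≤ j by omega) (YD_ne (show 1 ≤ j by omega))
  have h1 : Tendsto (fun v : ℝ => v ^ (2 * (j - m))) (𝓝[≠] 0) (𝓝 0) := by
    have h2 : Tendsto (fun v : ℝ => v ^ (2 * (j - m))) (𝓝 0) (𝓝 (0 ^ (2 * (j - m)))) :=
      (continuous_pow _).tendsto 0
    rw [zero_pow (by omega)] at h2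
    exact h2.mono_left nhdsWithin_le_nhds
  have h3 := hc.mul h1
  rw [mul_zero] at h3
  refine h3.congr' ?_
  filter_upwards [self_mem_nhdsWithin] with v hv
  have hv' : v ≠ 0 := hv
  have e : v ^ (2 * j) = v ^ (2 * m) * v ^ (2 * (j - m)) := by
    rw [← pow_add]
    congr 1
    omega
  rw [e]
  have h4 : v ^ (2 * m) ≠ 0 := pow_ne_zero _ hv'
  have h5 : v ^ (2 * (j - m)) ≠ 0 := pow_ne_zero _ hv'
  field_simp

open Filter Topology Asymptotics in
lemma coeff_zero {n : ℕ} {h a : ℕ → ℝ}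
    (ha : ∀ k ≤ n, h k = ∑ m ∈ Finset.Icc 1 n, a m * ws m k)
    (hO : (fun v : ℝ => YD n h v) =O[𝓝 0] (fun v : ℝ => v^(2*n-1))) :
    ∀ m, 1 ≤ m → m < n → a m = 0 := by
  intro m
  induction m using Nat.strong_induction_on with
  | _ m ih =>
    intro hm1 hmn
    obtain ⟨c, hc0, hcl⟩ := frob hm1 (YD_ne hm1)
    have h1 : Tendsto (fun v : ℝ => YD n h v / v^(2*m)) (𝓝[≠] 0) (𝓝 0) := by
      have h2 : (fun v : ℝ => YD n h v) =o[𝓝 0] (fun v : ℝ => v^(2*m)) :=
        hO.trans_isLittleO (isLittleO_pow_pow (by omega))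
      exact (h2.mono nhdsWithin_le_nhds).tendsto_div_nhds_zero
    have h2 : Tendsto (fun v : ℝ => YD n h v / v^(2*m)) (𝓝[≠] 0)
        (𝓝 (∑ j ∈ Finset.Icc 1 n, if j = m then a m * c else 0)) := by
      have e : (fun v : ℝ => YD n h v / v^(2*m)) =
          fun v => ∑ j ∈ Finset.Icc 1 n, a j * (YD j (ws j) v / v^(2*m)) := by
        funext v
        rw [YD_comb ha, Finset.sum_div]
        apply Finset.sum_congr rfl
        intro j _
        rw [mul_div_assoc]
      rw [e]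
      apply tendsto_finsetSum
      intro j hj'
      have hj'' := Finset.mem_Icc.1 hj'
      rcases lt_trichotomy j m with hj | rfl | hj
      · rw [if_neg (by omega), ih j hj (by omega) (by omega)]
        simp
      · rw [if_pos rfl]
        exact hcl.const_mul _
      · rw [if_neg (by omega)]
        have h3 := (lim_zero hm1 hj).const_mul (a j)
        rwa [mul_zero] at h3
    rw [Finset.sum_ite_eq' (Finset.Icc 1 n) m (fun _ => a m * c),
      if_pos (Finset.mem_Icc.2 ⟨hm1, by omega⟩)] at h2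
    have h3 := tendsto_nhds_unique h2 h1
    rcases mul_eq_zero.1 h3 with h4 | h4
    · exact h4
    · exact absurd h4 hc0

end B4

open Filter Topology Asymptotics in
/-- uniqueness of the solution of the functional equation -/
theorem uniq {n : ℕ} (hn : 1 ≤ n) (h : ℕ → ℝ) (hz : h 0 = 0)
    (hO : (fun v : ℝ => YD n h v) =O[𝓝 0] (fun v : ℝ => v^(2*n-1))) :
    ∀ k ≤ n, h k = h 1 * ws n k := by
  obtain ⟨a, ha⟩ := B4.tri n h hz
  have h0 := B4.coeff_zero ha hO
  obtain ⟨m, rfl⟩ : ∃ m, n = m + 1 := ⟨n - 1, by omega⟩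
  have h1 : ∀ k ≤ m + 1, h k = a (m + 1) * ws (m + 1) k := by
    intro k hk
    rw [ha k hk, Finset.sum_Icc_succ_top (by omega), Finset.sum_eq_zero, zero_add]
    intro j hj
    have hj' := Finset.mem_Icc.1 hj
    rw [h0 j hj'.1 (by omega), zero_mul]
  have h2 : a (m + 1) = h 1 := by
    rw [h1 1 (by omega), ws_one, mul_one]
  intro k hk
  rw [h1 k hk, h2]

end Pool.Agent.Helper38.EW
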