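import Pool.Agent.Helper38.EW.B4
import Pool.Graph.R_seed8.H980R2.Cont.T17b

/-!
The masses of the words with `k` outermost arcs, and the chain of the strip of even width with both sides wired.
-/

set_option autoImplicit false

namespace Pool.Agent.Helper38.EW

open Pool.Agent.H988R2.Perc hiding X
open Pool.Agent.H980R2.Cross Pool.Agent.H980R2.Cont Finset

/-- total weight -/
noncomputable def wt (n : ℕ) : ℝ := ∑ k ∈ Finset.range (n + 1), ws n k

theorem wt_pos {n : ℕ} (hn : 1 ≤ n) : 0 < wt n := by
  unfold wt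
  refine Finset.sum_pos' (fun k hk => ?_) ⟨1, Finset.mem_range.2 (by omega), ws_pos le_rfl hn⟩
  rcases Nat.eq_zero_or_pos k with h | h
  · subst h; rw [ws_zero]
  · exact (ws_pos h (by have := Finset.mem_range.1 hk; omega)).le

theorem sm_zero {n : ℕ} (hn : 1 ≤ n) : sm n 0 = 0 := by
  unfold sm
  have hlen : (List.replicate (2 * n) (1:ℂ)).length = 2 * n := by simp
  unfold lin
  apply Finset.sum_eq_zero
  intro w hw
  rw [hlen] at hw
  have hw1 := mem_LP.1 hw
  have hr := T17b.ret_pos hw1.2 (by rw [hw1.1]; omega)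
  show (if ret w = 0 then (1:ℂ) else 0) * _ = 0
  rw [if_neg (by omega), zero_mul]

theorem sm_eq {n : ℕ} (hn : 1 ≤ n) (k : ℕ) (hk : k ≤ n) : sm n k = sm n 1 * (ws n k : ℂ) := by
  obtain ⟨h1, h2⟩ := sm_bigO hn
  have e0 := sm_zero hn
  have e1 := uniq hn (fun j => (sm n j).re) (by simp [e0]) h1 k hk
  have e2 := uniq hn (fun j => (sm n j).im) (by simp [e0]) h2 k hk
  apply Complex.ext
  · rw [e1]; simp
  · rw [e2]; simp

theorem sum_sm (n : ℕ) :
    ∑ k ∈ Finset.range (n + 1), sm n k = Z (List.replicate (2 * n) 1) := by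
  have hlen : (List.replicate (2 * n) (1:ℂ)).length = 2 * n := by simp
  rw [← lin_one]
  unfold sm lin
  rw [Finset.sum_comm, hlen]
  refine Finset.sum_congr rfl fun w hw => ?_
  obtain ⟨hl, hd⟩ := mem_LP.1 hw
  rw [← Finset.sum_mul]
  congr 1
  have h2 : 2 * ret w ≤ 2 * n := hl ▸ ret_le hd
  rw [Finset.sum_eq_single (ret w)]
  · exact if_pos rfl
  · intro b _ hb
    exact if_neg (Ne.symm hb)
  · intro h
    exact absurd (Finset.mem_range.2 (by omega)) h

theorem Z_ne (n : ℕ) : Z (List.replicate (2 * n) 1) ≠ 0 := by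
  rw [Z_ones]
  refine mul_ne_zero (pow_ne_zero _ q_ne_zero) ?_
  exact_mod_cast (Pool.Agent.H988R2.Perc.chi_pos (2*n)).ne'

/-- the law of the number of outermost arcs -/
theorem sm_law {n : ℕ} (hn : 1 ≤ n) (k : ℕ) (hk : k ≤ n) :
    sm n k / Z (List.replicate (2 * n) 1) = ((ws n k / wt n : ℝ) : ℂ) := by
  have h1 := sum_sm n
  have h2 : Z (List.replicate (2 * n) 1) = sm n 1 * (wt n : ℂ) := by
    rw [← h1]
    unfold wt
    push_cast
    rw [Finset.mul_sum]
    refine Finset.sum_congr rfl fun j hj => ?_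
    exact sm_eq hn j (by have := Finset.mem_range.1 hj; omega)
  have h3 : sm n 1 ≠ 0 := by
    intro h
    apply Z_ne n
    rw [h2, h, zero_mul]
  rw [h2, sm_eq hn k hk, mul_div_mul_left _ _ h3]
  push_cast
  rfl

/-! ### the chain -/

/-- the double row of the strip of even width with both sides wired -/
noncomputable def TE (L : ℕ) (f : St →₀ ℂ) : St →₀ ℂ :=
  Finsupp.mapDomain (St.cap 1) (bwV 2 L (fwV 2 L (Finsupp.mapDomain (St.ins 1) f)))

/-- the stationary vector -/
noncomputable def vE (L : ℕ) : St →₀ ℂ := PsiX (List.replicate L 1)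

namespace C1

theorem fwV_eq (L : ℕ) (hL : Even L) (k : ℕ) (hk : k ≤ L) :
    PsiX ((-q^2) :: List.replicate k 1 ++ (-q) :: (List.replicate (L-k) 1)) =
      fwV 2 k (PsiX ((-q^2) :: (-q) :: (List.replicate L 1))) := by
  induction k with
  | zero => simp [fwV]
  | succ k ih =>
    have ih' := ih (by omega)
    simp only [fwV]
    rw [← ih']
    obtain ⟨m, hm⟩ : ∃ m, L - k = m + 1 := ⟨L - k - 1, by omega⟩
    have hm' : L - (k+1) = m := by omega
    rw [hm, hm']
    have hu : ((-q^2) :: List.replicate k (1:ℂ)).length + 1 = k + 2 := by simp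
    have key := PsiX_right ((-q^2) :: List.replicate k (1:ℂ)) (List.replicate m 1) (by
      simp only [List.length_cons, List.length_replicate]
      obtain ⟨t, ht⟩ := hL
      exact ⟨t, by omega⟩)
    rw [hu] at key
    have e1 : (-q^2) :: List.replicate (k+1) (1:ℂ) ++ (-q) :: (List.replicate m 1)
        = ((-q^2) :: List.replicate k (1:ℂ)) ++ 1 :: (-q) :: (List.replicate m 1) := by
      rw [List.replicate_succ']; simp
    have e2 : (-q^2) :: List.replicate k (1:ℂ) ++ (-q) :: (List.replicate (m+1) 1)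
        = ((-q^2) :: List.replicate k (1:ℂ)) ++ (-q) :: 1 :: (List.replicate m 1) := by
      rw [List.replicate_succ]
    rw [e1, e2]
    exact key

theorem bwV_eq (L : ℕ) (hL : Even L) (k : ℕ) (hk : k ≤ L) :
    bwV 2 k (PsiX ((-q^2) :: List.replicate k 1 ++ (-q^2) :: (List.replicate (L-k) 1))) =
      PsiX ((-q^2) :: (-q^2) :: (List.replicate L 1)) := by
  induction k with
  | zero => simp [bwV]
  | succ k ih =>
    have ih' := ih (by omega)
    simp only [bwV]
    rw [← ih']
    obtain ⟨m, hm⟩ : ∃ m, L - k = m + 1 := ⟨L - k - 1, by omega⟩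
    have hm' : L - (k+1) = m := by omega
    rw [hm, hm']
    have hu : ((-q^2) :: List.replicate k (1:ℂ)).length + 1 = k + 2 := by simp
    have key := PsiX_left ((-q^2) :: List.replicate k (1:ℂ)) (List.replicate m 1) (by
      simp only [List.length_cons, List.length_replicate]
      obtain ⟨t, ht⟩ := hL
      exact ⟨t, by omega⟩)
    rw [hu] at key
    have e1 : (-q^2) :: List.replicate (k+1) (1:ℂ) ++ (-q^2) :: (List.replicate m 1)
        = ((-q^2) :: List.replicate k (1:ℂ)) ++ 1 :: (-q^2) :: (List.replicate m 1) := by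
      rw [List.replicate_succ']; simp
    have e2 : (-q^2) :: List.replicate k (1:ℂ) ++ (-q^2) :: (List.replicate (m+1) 1)
        = ((-q^2) :: List.replicate k (1:ℂ)) ++ (-q^2) :: 1 :: (List.replicate m 1) := by
      rw [List.replicate_succ]
    rw [e1, e2]
    rw [key]

theorem fac_ne (L : ℕ) : fac (-q^2) (List.replicate L 1) ≠ 0 := by
  unfold fac
  rw [List.map_replicate, List.prod_replicate]
  have h4 := T20.q4
  have hq := q_ne_zero
  apply pow_ne_zero
  have : (-q^2 - q^2 * 1) * (-q^2 * 1 - q^2) = 4 * q := by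
    linear_combination 4 * h4
  rw [this]
  exact mul_ne_zero (by norm_num) hq

end C1

open C1 T20 in
theorem vE_fix (L : ℕ) (hL : Even L) : TE L (vE L) = vE L := by
  set l0 : List ℂ := List.replicate L 1 with hl0
  set v0 := PsiX l0 with hv0
  have hlen : l0.length = L := by simp [hl0]
  have h4 := Pool.Agent.H988R2.Perc.T20.q4
  have h3 := q_cube
  have hqs := q_spec
  have hq := q_ne_zero
  -- recursion at the start
  have hrec : PsiX ((-q^2) :: (-q) :: l0) =
      fac (-q^2) l0 • Finsupp.mapDomain (St.ins 1) v0 := by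
    have := T17.PsiX_rec [] l0 (-q^2) (by
      rw [hlen, List.length_nil, zero_add]; exact hL)
    have e : q^2 * (-q^2) = -q := by linear_combination -h4
    rw [e] at this
    exact this
  -- forward
  have hf := C1.fwV_eq L hL L le_rfl
  rw [Nat.sub_self] at hf
  simp only [List.replicate_zero] at hf
  -- inversion of the last variable
  have hinv : PsiX ((-q^2) :: List.replicate L 1 ++ [(-q)]) =
      (-q)^L • PsiX ((-q^2) :: List.replicate L 1 ++ [(-q^2)]) := by
    have := PsiX_invN (-q) ((-q^2) :: List.replicate L 1) (neg_ne_zero.mpr hq)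
      (by
        simp only [List.length_cons, List.length_replicate]
        exact hL.add_one)
    have e : (-q)⁻¹ = -q^2 := by
      rw [inv_eq_iff_eq_inv]
      have : (-q^2) ≠ 0 := neg_ne_zero.mpr (pow_ne_zero _ hq)
      apply mul_right_cancel₀ this
      rw [inv_mul_cancel₀ this]
      linear_combination h3
    have e5 : ((-q^2) :: List.replicate L (1:ℂ)).length - 1 = L := by simp
    rw [e, e5] at this
    exact this
  have hb := C1.bwV_eq L hL L le_rfl
  rw [Nat.sub_self] at hb
  simp only [List.replicate_zero] at hb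
  -- inversion of the first variable
  have hinv1 : PsiX ((-q^2) :: (-q^2) :: l0) =
      (-q^2)^L • PsiX ((-q) :: (-q^2) :: l0) := by
    have := PsiX_inv1 (-q^2) ((-q^2) :: l0) (neg_ne_zero.mpr (pow_ne_zero _ hq))
      (by simp only [List.length_cons, hlen]; exact hL.add_one)
    have e : (-q^2)⁻¹ = -q := by
      rw [inv_eq_iff_eq_inv]
      have : (-q) ≠ 0 := neg_ne_zero.mpr hq
      apply mul_right_cancel₀ this
      rw [inv_mul_cancel₀ this]
      linear_combination h3
    have e5 : ((-q^2) :: l0).length - 1 = L := by simp only [List.length_cons, hlen]; omega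
    rw [e, e5] at this
    exact this
  -- exchange
  have hexch : PsiX ((-q^2) :: (-q) :: l0) =
      Finsupp.mapDomain (St.act 1) (PsiX ((-q) :: (-q^2) :: l0)) := by
    have := PsiX_exch [] l0 (-q) (-q^2) (by
      rw [hlen, List.length_nil, zero_add]; exact hL)
    have e1 : q * (-q) - q^2 * (-q^2) = -q^2 + q := by linear_combination h4
    have e2 : q * (-q^2) - q^2 * (-q) = 0 := by ring
    have e3 : (-q^2) - (-q) = -q^2 + q := by ring
    rw [e1, e2, e3, zero_smul, zero_add] at this
    have hne : -q^2 + q ≠ 0 := by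
      intro h
      have h1 : q * (1 - q) = 0 := by linear_combination h
      rcases mul_eq_zero.mp h1 with h2 | h2
      · exact hq h2
      · exact q_ne_one (by linear_combination -h2)
    have h5 := congrArg (fun f => (-q^2 + q)⁻¹ • f) this
    simp only [smul_smul, inv_mul_cancel₀ hne, one_smul] at h5
    exact h5
  -- cancel ins 1
  have hact : ∀ g : St →₀ ℂ, Finsupp.mapDomain (St.act 1) g =
      Finsupp.mapDomain (St.ins 1) (Finsupp.mapDomain (St.cap 1) g) := by
    intro g
    rw [← Finsupp.mapDomain_comp]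
    congr 1
    funext R
    exact St.act_eq 1 R
  have hcap : Finsupp.mapDomain (St.cap 1) (PsiX ((-q) :: (-q^2) :: l0)) =
      fac (-q^2) l0 • v0 := by
    apply Finsupp.mapDomain_injective (St.ins_inj 1)
    rw [← hact, ← hexch, hrec, Pool.Agent.H988R2.Perc.T20.mapDomain_lin]
  -- conclusion
  have hmain : fac (-q^2) l0 • TE L (vE L) = fac (-q^2) l0 • vE L := by
    have e0 : vE L = v0 := rfl
    rw [e0]
    have e6 : fac (-q^2) l0 • TE L v0 = TE L (fac (-q^2) l0 • v0) := by
      unfold TE
      rw [Pool.Agent.H988R2.Perc.T20.mapDomain_lin, T20.fwV_smul, T20.bwV_smul,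
        Pool.Agent.H988R2.Perc.T20.mapDomain_lin]
    rw [e6]
    unfold TE
    rw [Pool.Agent.H988R2.Perc.T20.mapDomain_lin (St.ins 1), ← hrec, ← hf]
    have e1 : (-q^2) :: List.replicate L (1:ℂ) ++ (-q) :: [] =
      (-q^2) :: List.replicate L 1 ++ [(-q)] := rfl
    rw [e1, hinv, T20.bwV_smul, hb, hinv1, smul_smul,
      Pool.Agent.H988R2.Perc.T20.mapDomain_lin (St.cap 1), hcap]
    have e3 : (-q)^L * (-q^2)^L = 1 := by
      rw [← mul_pow]
      have : -q * -q^2 = 1 := by linear_combination h3
      rw [this, one_pow]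
    rw [e3, one_smul]
  have hne : fac (-q^2) l0 ≠ 0 := C1.fac_ne L
  have h5 := congrArg (fun f => (fac (-q^2) l0)⁻¹ • f) hmain
  simp only [smul_smul, inv_mul_cancel₀ hne, one_smul] at h5
  exact h5

end Pool.Agent.Helper38.EW
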