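import Pool.Agent.Helper38.EW.C1

/-!
Convergence of the chain of the strip of even width with both sides wired.
-/

set_option autoImplicit false

namespace Pool.Agent.Helper38.EW

open Pool.Agent.H988R2.Perc hiding X
open Pool.Agent.H980R2.Cross Pool.Agent.H980R2.Cont Finset Filter Topology

open Classical in
/-- number of inner odd faces joined to the outer face -/
noncomputable def cntE (L : ℕ) (R : St) : ℕ :=
  ((range (L-1)).filter (fun k => R.rel (k+2) (L+1))).card

open Classical in
/-- mass of the states with `cntE = k` -/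
noncomputable def JE (L k : ℕ) (f : St →₀ ℂ) : ℂ := f.sum fun R a => if cntE L R = k then a else 0

/-- the class of the states of the chain -/
def CE (L : ℕ) (R : St) : Prop := R.rel 1 (L+1) ∧ T24.Bd (L+2) R

namespace C2

open Pool.Agent.H988R2.Perc.T24 Pool.Agent.H980R2.Cross.T22

theorem ce_ins {L : ℕ} (hL : L % 2 = 0) {R : St} (hR : CE L R) : CE (L+2) (St.ins 1 R) := by
  obtain ⟨h1, h2⟩ := hR
  refine ⟨Or.inr ⟨rfl, by omega, by omega, by omega, ?_⟩, ?_⟩
  · have e1 : St.low 1 1 = 1 := rfl
    have e2 : St.low 1 (L + 2 + 1) = L + 1 := by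
      unfold St.low; rw [if_neg (by omega)]; omega
    rw [e1, e2]
    exact h1
  · rintro a b (h | ⟨o1, o2, n1, n2, h⟩)
    · exact Or.inl h
    · unfold St.low at h
      rcases h2 _ _ h with k | k
      · split_ifs at k <;> omega
      · split_ifs at k <;> omega

theorem ce_act {L i : ℕ} (hL : L % 2 = 0) (h1 : 2 ≤ i) (hi : i < L + 2) {R : St}
    (hR : CE (L+2) R) : CE (L+2) (St.act i R) := by
  refine ⟨Or.inr ⟨rfl, by omega, by omega, by omega, Or.inl hR.1⟩, bd_act (by omega) hR.2⟩

theorem up_one (a : ℕ) (ha : a % 2 = 1) (h : a ≠ 1) : St.up 1 a = a + 2 := by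
  unfold St.up; rw [if_neg (by omega)]

theorem ce_cap {L : ℕ} (hL : L % 2 = 0) (hL2 : 2 ≤ L) {R : St} (hR : CE (L+2) R) :
    CE L (St.cap 1 R) := by
  obtain ⟨h1, h2⟩ := hR
  constructor
  · show (St.act 1 R).rel (St.up 1 1) (St.up 1 (L+1))
    have e1 : St.up 1 1 = 1 := rfl
    rw [e1, up_one (L+1) (by omega) (by omega)]
    exact Or.inr ⟨rfl, by omega, by omega, by omega, Or.inl h1⟩
  · intro a b h
    change (St.act 1 R).rel (St.up 1 a) (St.up 1 b) at h
    have h' := bd_act (K := L + 2 + 2) (i := 1) (by omega) h2 _ _ h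
    unfold St.up at h'
    split_ifs at h' <;> omega

theorem ce_TE {L : ℕ} (hL : L % 2 = 0) (hL2 : 2 ≤ L) {f : St →₀ ℂ} (hf : Cl (CE L) f) :
    Cl (CE L) (TE L f) := by
  have h1 : Cl (CE (L+2)) (Finsupp.mapDomain (St.ins 1) f) := hf.map (fun R hR => ce_ins hL hR)
  have h2 : Cl (CE (L+2)) (fwV 2 L (Finsupp.mapDomain (St.ins 1) f)) :=
    h1.fwV (fun i hi1 hi R hR => ce_act hL hi1 (by omega) hR)
  have h3 : Cl (CE (L+2)) (bwV 2 L (fwV 2 L (Finsupp.mapDomain (St.ins 1) f))) :=
    h2.bwV (fun i hi1 hi R hR => ce_act hL hi1 (by omega) hR)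
  exact h3.map (fun R hR => ce_cap hL hL2 hR)

theorem gfw_two {L : ℕ} (hL : L % 2 = 0) (k : ℕ) (hk : k ≤ L) {R : St} (hR : CE (L+2) R) :
    CE (L+2) (gfw 2 k R) := by
  induction k with
  | zero => exact hR
  | succ k ih =>
    have h := ih (by omega)
    rw [gfw]
    unfold good
    split_ifs
    · exact ce_act hL (by omega) (by omega) h
    · exact h

theorem gbw_RW2 {L : ℕ} (k : ℕ) (hk : k ≤ L) : gbw 2 k (RW (L+1)) = RW (L+1) := by
  induction k with
  | zero => rfl
  | succ k ih => rw [gbw, good_RW (by omega) (by omega), ih (by omega)]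

theorem cap_RW {L : ℕ} (hL : L % 2 = 0) (hL2 : 2 ≤ L) : St.cap 1 (RW (L+1)) = RW (L-1) := by
  apply St.ext
  funext a b
  apply propext
  change (St.act 1 (RW (L+1))).rel (St.up 1 a) (St.up 1 b) ↔ _
  constructor
  · rintro (h | ⟨o1, o2, n1, n2, h⟩)
    · left
      unfold St.up at h
      split_ifs at h <;> omega
    · have key : (RW (L+1)).rel (St.up 1 a) (St.up 1 b) := by
        rcases h with h | ⟨h, h'⟩ | ⟨h, h'⟩
        · exact h
        · exfalso
          rcases h' with h' | ⟨_, h', _⟩
          · unfold St.up at h'; split_ifs at h' <;> omega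
          · omega
        · exfalso
          rcases h with h | ⟨_, _, h⟩
          · unfold St.up at h; split_ifs at h <;> omega
          · omega
      rcases key with h | ⟨h1, h2, h3⟩
      · left
        unfold St.up at h
        split_ifs at h <;> omega
      · right
        refine ⟨by omega, ?_, ?_⟩
        · unfold St.up at h2
          split_ifs at h2 <;> omega
        · unfold St.up at h3
          split_ifs at h3 <;> omega
  · rintro (h | ⟨h1, h2, h3⟩)
    · subst h; exact (St.act 1 (RW (L+1))).eqv.refl _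
    · right
      have ha : St.up 1 a = 1 ∨ St.up 1 a = L + 3 := by
        unfold St.up
        split_ifs <;> omega
      have hb : St.up 1 b = 1 ∨ St.up 1 b = L + 3 := by
        unfold St.up
        split_ifs <;> omega
      refine ⟨by omega, by omega, by omega, by omega, Or.inl (Or.inr ⟨by omega, ?_, ?_⟩)⟩
      · omega
      · omega

theorem goodE {L : ℕ} (hL : L % 2 = 0) (hL2 : 2 ≤ L) {R : St} (hR : CE L R) :
    St.cap 1 (gbw 2 L (gfw 2 L (St.ins 1 R))) = RW (L-1) := by
  have hI := ce_ins hL hR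
  have h1 : gfw 2 L (St.ins 1 R) = RW (L+1) := by
    have hrel := (gfw_two hL L le_rfl hI).1
    apply St.ext
    funext a b
    apply propext
    constructor
    · intro h
      rcases gfw_rel 2 L _ a b h with h | ⟨h1, h2⟩
      · exact Or.inl h
      · rcases hI.2 a b h1 with h | ⟨l1, l2⟩
        · exact Or.inl h
        · rcases (St.ins 1 R).odd a b h1 with h | ⟨o1, o2⟩
          · exact Or.inl h
          · refine Or.inr ⟨by omega, ?_, ?_⟩
            · by_contra hne
              exact (h2 (a - 1) (by omega) (by omega) (by omega)).1 (by omega)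
            · by_contra hne
              exact (h2 (b - 1) (by omega) (by omega) (by omega)).2 (by omega)
    · intro h
      rcases h with h | ⟨_, h3, h4⟩
      · subst h
        exact (gfw 2 L (St.ins 1 R)).eqv.refl a
      · rcases h3 with h3 | h3 <;> rcases h4 with h4 | h4 <;> subst h3 <;> subst h4
        · exact (gfw 2 L (St.ins 1 R)).eqv.refl _
        · exact hrel
        · exact (gfw 2 L (St.ins 1 R)).eqv.symm hrel
        · exact (gfw 2 L (St.ins 1 R)).eqv.refl _
  rw [h1, gbw_RW2 L le_rfl, cap_RW hL hL2]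

theorem dob_TE (L : ℕ) :
    Dob (TE L) (fun R => St.cap 1 (gbw 2 L (gfw 2 L (St.ins 1 R)))) ((1/2)^L * (1/2)^L) := by
  have h := (dob_map (St.cap 1)).comp ((dob_bwV 2 L).comp ((dob_fwV 2 L).comp
    (dob_map (St.ins 1))))
  rw [one_mul, mul_one] at h
  exact h

theorem JE_add (L k : ℕ) (f g : St →₀ ℂ) : JE L k (f + g) = JE L k f + JE L k g := by
  classical
  unfold JE
  exact Finsupp.sum_add_index' (fun _ => by split_ifs <;> rfl)
    (fun _ _ _ => by split_ifs <;> simp)

theorem JE_smul (L k : ℕ) (c : ℂ) (f : St →₀ ℂ) : JE L k (c • f) = c * JE L k f := by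
  classical
  unfold JE
  rw [Finsupp.sum_smul_index' (fun _ => by split_ifs <;> rfl), Finsupp.mul_sum]
  refine Finsupp.sum_congr fun R _ => ?_
  split_ifs
  · rfl
  · rw [mul_zero]

theorem JE_zero (L k : ℕ) : JE L k 0 = 0 := by
  unfold JE
  exact Finsupp.sum_zero_index

theorem JE_single (L k : ℕ) (R : St) (c : ℂ) :
    JE L k (Finsupp.single R c) = if cntE L R = k then c else 0 := by
  unfold JE
  rw [Finsupp.sum_single_index (by split_ifs <;> rfl)]

theorem JE_sum {ι : Type*} (L k : ℕ) (s : Finset ι) (f : ι → St →₀ ℂ) :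
    JE L k (∑ i ∈ s, f i) = ∑ i ∈ s, JE L k (f i) := by
  classical
  induction s using Finset.induction_on with
  | empty => simp [JE_zero]
  | insert a s ha ih => rw [Finset.sum_insert ha, Finset.sum_insert ha, JE_add, ih]

theorem JE_le (L k : ℕ) (f : St →₀ ℂ) : ‖JE L k f‖ ≤ nrm f := by
  unfold JE nrm
  rw [Finsupp.sum, Finsupp.sum]
  refine (norm_sum_le _ _).trans (Finset.sum_le_sum fun R _ => ?_)
  split_ifs
  · exact le_rfl
  · rw [norm_zero]; exact norm_nonneg _

theorem cntE_phi {m : ℕ} (hm : 1 ≤ m) (w : Word) (hw : Dyck w) (hl : w.length = 2*m) :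
    cntE (2*m) (Pool.Agent.H988R2.Perc.Phi (m+1) (Pool.Agent.H980R2.Cross.ext w)) = ret w - 1 := by
  classical
  have key : ∀ k, k < 2*m-1 → ((Pool.Agent.H988R2.Perc.Phi (m+1) (Pool.Agent.H980R2.Cross.ext w)).rel (k+2) (2*m+1) ↔ bal w (k+1)) := by
    intro k hk
    rcases Nat.mod_two_eq_zero_or_one (k+1) with h0 | h0
    · exact sh_phi w m hw hl (k+1) h0 (by omega)
    · constructor
      · intro h
        rcases (Pool.Agent.H988R2.Perc.Phi (m+1) (Pool.Agent.H980R2.Cross.ext w)).odd _ _ h with h1 | ⟨h1, _⟩ <;> omega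
      · intro h
        have := T16b.bal_even (b := k+1) (by omega) h
        omega
  have h1 : cntE (2*m) (Pool.Agent.H988R2.Perc.Phi (m+1) (Pool.Agent.H980R2.Cross.ext w)) =
      ((range (2*m-1)).filter (fun k => bal w (k+1))).card := by
    unfold cntE
    congr 1
    apply Finset.filter_congr
    intro a ha
    exact key a (Finset.mem_range.1 ha)
  have h2 : ret w = ((range (2*m-1)).filter (fun k => bal w (k+1))).card + 1 := by
    unfold ret
    have e : w.length = (2*m-1) + 1 := by omega
    rw [e, List.range_succ, List.filter_append, List.length_append]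
    have h3 : bal w (2*m-1+1) := by
      have := T16b.bal_full hw
      rw [hl] at this
      have e2 : 2*m-1+1 = 2*m := by omega
      rw [e2]
      exact this
    have h4 : (List.filter (fun k => decide (bal w (k+1))) [2*m-1]).length = 1 := by
      simp [h3]
    rw [h4]
    congr 1
  rw [h1, h2]
  rfl

theorem JE_vE {n : ℕ} (hn : 1 ≤ n) (k : ℕ) : JE (2*n) k (vE (2*n)) = sm n (k+1) := by
  have hlen : (List.replicate (2*n) (1:ℂ)).length = 2*n := by simp
  unfold vE sm lin
  rw [PsiX_eq hlen, JE_sum, hlen]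
  refine Finset.sum_congr rfl fun w hw => ?_
  have hw1 := mem_LP.1 hw
  rw [JE_single, cntE_phi hn w hw1.2 hw1.1]
  have hr := T17b.ret_pos hw1.2 (by rw [hw1.1]; omega)
  show (if ret w - 1 = k then Fw w _ else 0) = (if ret w = k + 1 then (1:ℂ) else 0) * Fw w _
  by_cases h : ret w = k + 1
  · rw [if_pos h, if_pos (by omega), one_mul]
  · rw [if_neg h, if_neg (by omega), zero_mul]

theorem vE_supp {L : ℕ} (hL : L % 2 = 0) : Cl (CE L) (vE L) := by
  intro R hR
  have hev : Even (List.replicate L (1:ℂ)).length := by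
    rw [List.length_replicate]; exact Nat.even_iff.2 hL
  have h := PsiX_supp _ hev R hR
  rw [List.length_replicate] at h
  exact h

end C2

open Pool.Agent.H988R2.Perc.T24 in
theorem JE_law {n : ℕ} (hn : 1 ≤ n) (k : ℕ) (hk : k + 1 ≤ n) :
    Tendsto (fun M => JE (2*n) k ((TE (2*n))^[M] (Finsupp.single (RW (2*n-1)) 1))) atTop
      (𝓝 ((ws n (k+1) / wt n : ℝ) : ℂ)) := by
  have hL : (2*n) % 2 = 0 := by omega
  have hL2 : 2 ≤ 2*n := by omega
  have hε : (0:ℝ) < (1/2)^(2*n) * (1/2)^(2*n) := by positivity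
  have hm : mass (vE (2*n)) = Z (List.replicate (2*n) 1) := mass_PsiX _
  have h := T22.conv_abs (C2.dob_TE (2*n)) hε (C := CE (2*n))
    (fun f hf => C2.ce_TE hL hL2 hf) (R0 := RW (2*n-1)) (fun R hR => C2.goodE hL hL2 hR)
    (vE_fix _ (Nat.even_iff.2 hL)) (C2.vE_supp hL) (by rw [hm]; exact Z_ne n) (s0 := RW (2*n-1))
    (by
      refine ⟨Or.inr ⟨by omega, Or.inl rfl, Or.inr (by omega)⟩, ?_⟩
      rintro a b (h | ⟨_, h3, h4⟩)
      · exact Or.inl h
      · right
        constructor
        · rcases h3 with h3 | h3 <;> omega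
        · rcases h4 with h4 | h4 <;> omega)
    (J := JE (2*n) k) (C2.JE_add _ _) (C2.JE_smul _ _) (K := 1)
    zero_le_one (fun f => by rw [one_mul]; exact C2.JE_le _ _ f)
  rw [hm, C2.JE_vE hn, sm_law hn (k+1) hk] at h
  exact h

end Pool.Agent.Helper38.EW
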