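import Pool.Agent.Helper38.EW.C2
import Pool.Graph.R_seed8.H988R2.Perc.T23

/-!
The chain driven by bits; the law of the chain as an average over the bits.  (Template: `H988R2.Perc.T23`.)
-/

set_option autoImplicit false

namespace Pool.Agent.Helper38.EW

open Pool.Agent.H988R2.Perc hiding X
open Pool.Agent.H980R2.Cross Pool.Agent.H980R2.Cont Finset

/-- forward sweep: the tile `i` acts at the position `i+1` -/
def fwE : ℕ → (ℕ → Bool) → St → St
  | 0, _, R => R
  | L+1, c, R => let R' := fwE L c R; if c (L+1) then St.act (L+2) R' else R'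

/-- backward sweep -/
def bwE : ℕ → (ℕ → Bool) → St → St
  | 0, _, R => R
  | L+1, c, R => bwE L c (if c (L+1) then St.act (L+2) R else R)

/-- state after `M` double rows driven by the bits `c k i` (row `k`, tile `i`) -/
def XE (L : ℕ) (c : ℕ → ℕ → Bool) : ℕ → St
  | 0 => RW (L-1)
  | M+1 => St.cap 1 (bwE L (c (2*M+1)) (fwE L (c (2*M)) (St.ins 1 (XE L c M))))

/-- translation of open bits into bits of the chain -/
def aE (o : ℕ → ℕ → Bool) (k i : ℕ) : Bool := if i % 2 = 0 then o k i else !(o k i)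

namespace D1

open Pool.Agent.H988R2.Perc.T23 (bits SS row mem_row mem_SS SS_succ row_succ row_succ' bits_insert
  bits_insert_self bits_not_mem tile_single_sum tile_smul mapDomain_sum_single)

theorem fwE_congr (n : ℕ) (c c' : ℕ → Bool) (R : St)
    (h : ∀ i, 1 ≤ i → i ≤ n → c i = c' i) : fwE n c R = fwE n c' R := by
  induction n with
  | zero => rfl
  | succ n ih =>
    simp only [fwE]
    rw [ih (fun i h1 h2 => h i h1 (by omega)), h (n+1) (by omega) le_rfl]

theorem bwE_congr (n : ℕ) (c c' : ℕ → Bool) (R : St)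
    (h : ∀ i, 1 ≤ i → i ≤ n → c i = c' i) : bwE n c R = bwE n c' R := by
  induction n generalizing R with
  | zero => rfl
  | succ n ih =>
    simp only [bwE]
    rw [h (n+1) (by omega) le_rfl, ih _ (fun i h1 h2 => h i h1 (by omega))]

theorem XE_congr (L : ℕ) (c c' : ℕ → ℕ → Bool) (M : ℕ)
    (h : ∀ k i, k < 2*M → 1 ≤ i → i ≤ L → c k i = c' k i) : XE L c M = XE L c' M := by
  induction M with
  | zero => rfl
  | succ M ih =>
    simp only [XE]
    rw [ih (fun k i hk h1 h2 => h k i (by omega) h1 h2),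
      fwE_congr L (c (2*M)) (c' (2*M)) _ (fun i h1 h2 => h _ i (by omega) h1 h2),
      bwE_congr L (c (2*M+1)) (c' (2*M+1)) _ (fun i h1 h2 => h _ i (by omega) h1 h2)]

theorem aE_insert (t : Finset (ℕ × ℕ)) (k i i' : ℕ) (h : i ≠ i') :
    aE (bits (insert (k, i') t)) k i = aE (bits t) k i := by
  simp [aE, bits_insert t k i i' h]

/-- one tile doubles the sum -/
theorem tile_step (S : Finset (ℕ × ℕ)) (k i : ℕ) (hS : (k, i) ∉ S)
    (Y : Finset (ℕ × ℕ) → St) (hY : ∀ t, Y (insert (k, i) t) = Y t) :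
    tile (i+1) (∑ t ∈ S.powerset, Finsupp.single (Y t) (1:ℂ)) =
      (1/2 : ℂ) • ∑ t ∈ (insert (k, i) S).powerset,
        Finsupp.single (if aE (bits t) k i then St.act (i+1) (Y t) else Y t) (1:ℂ) := by
  rw [tile_single_sum, Finset.sum_powerset_insert hS, ← Finset.sum_add_distrib]
  congr 1
  apply Finset.sum_congr rfl
  intro t ht
  have hnt : (k, i) ∉ t := fun h => hS (Finset.mem_powerset.mp ht h)
  rw [hY]
  have h1 : aE (bits t) k i = if i % 2 = 0 then false else true := by
    simp [aE, bits_not_mem t k i hnt]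
  have h2 : aE (bits (insert (k, i) t)) k i = if i % 2 = 0 then true else false := by
    simp [aE, bits_insert_self t k i]
  rw [h1, h2]
  by_cases h : i % 2 = 0
  · simp [h]
  · simp only [h, if_false, Bool.false_eq_true, if_true]
    rw [add_comm]

theorem fw_step (n : ℕ) (S : Finset (ℕ × ℕ)) (k : ℕ) (hS : ∀ i, 1 ≤ i → i ≤ n → (k, i) ∉ S)
    (Y : Finset (ℕ × ℕ) → St) (hY : ∀ i t, 1 ≤ i → i ≤ n → Y (insert (k, i) t) = Y t) :
    fwV 2 n (∑ t ∈ S.powerset, Finsupp.single (Y t) (1:ℂ)) =
      ((1/2 : ℂ))^n • ∑ t ∈ (S ∪ row k n).powerset,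
        Finsupp.single (fwE n (aE (bits t) k) (Y t)) (1:ℂ) := by
  induction n with
  | zero =>
    have : S ∪ row k 0 = S := by
      ext j; simp only [mem_union, mem_row]; constructor
      · rintro (h | h)
        · exact h
        · omega
      · exact Or.inl
    simp [fwV, fwE, this]
  | succ n ih =>
    simp only [fwV]
    rw [ih (fun i h1 h2 => hS i h1 (by omega)) (fun i t h1 h2 => hY i t h1 (by omega)),
      tile_smul, row_succ]
    have hn : (k, n+1) ∉ S ∪ row k n := by
      simp only [mem_union, mem_row, not_or]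
      exact ⟨hS (n+1) (by omega) le_rfl, by omega⟩
    have e2 : n + 2 = (n + 1) + 1 := rfl
    rw [e2, tile_step (S ∪ row k n) k (n+1) hn
      (fun t => fwE n (aE (bits t) k) (Y t)) (by
        intro t
        rw [hY (n+1) t (by omega) le_rfl]
        exact fwE_congr n _ _ _ (fun i _ h2 => aE_insert t k i (n+1) (by omega)))]
    rw [smul_smul, pow_succ]
    rfl

theorem bw_step (n : ℕ) (S : Finset (ℕ × ℕ)) (k : ℕ) (hS : ∀ i, 1 ≤ i → i ≤ n → (k, i) ∉ S)
    (Y : Finset (ℕ × ℕ) → St) (hY : ∀ i t, 1 ≤ i → i ≤ n → Y (insert (k, i) t) = Y t) :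
    bwV 2 n (∑ t ∈ S.powerset, Finsupp.single (Y t) (1:ℂ)) =
      ((1/2 : ℂ))^n • ∑ t ∈ (S ∪ row k n).powerset,
        Finsupp.single (bwE n (aE (bits t) k) (Y t)) (1:ℂ) := by
  induction n generalizing S Y with
  | zero =>
    have : S ∪ row k 0 = S := by
      ext j; simp only [mem_union, mem_row]; constructor
      · rintro (h | h)
        · exact h
        · omega
      · exact Or.inl
    simp [bwV, bwE, this]
  | succ n ih =>
    simp only [bwV]
    have e2 : n + 2 = (n + 1) + 1 := rfl
    rw [e2, tile_step S k (n+1) (hS (n+1) (by omega) le_rfl) Y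
      (fun t => hY (n+1) t (by omega) le_rfl), T20.bwV_smul]
    rw [ih (insert (k, n+1) S) ?_
      (fun t => if aE (bits t) k (n+1) then St.act (n+1+1) (Y t) else Y t) ?_]
    · rw [smul_smul, row_succ', pow_succ']
      rfl
    · intro i h1 h2 h
      rw [mem_insert] at h
      rcases h with h | h
      · simp only [Prod.mk.injEq] at h; omega
      · exact hS i h1 (by omega) h
    · intro i t h1 h2
      rw [hY i t h1 (by omega), aE_insert t k (n+1) i (by omega)]

end D1

open D1 Pool.Agent.H988R2.Perc.T23 in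
theorem lawE_eq (L M : ℕ) : (TE L)^[M] (Finsupp.single (RW (L-1)) 1) =
    ((1/2 : ℂ))^(2*M*L) • ∑ t ∈ (T23.SS L M).powerset,
      Finsupp.single (XE L (aE (T23.bits t)) M) (1:ℂ) := by
  induction M with
  | zero =>
    have : T23.SS L 0 = ∅ := by simp [T23.SS]
    simp [this, XE]
  | succ M ih =>
    rw [Function.iterate_succ_apply', ih]
    unfold TE
    rw [Finsupp.mapDomain_smul, T23.mapDomain_sum_single, T20.fwV_smul,
      D1.fw_step L (T23.SS L M) (2*M) (fun i _ _ h => by rw [T23.mem_SS] at h; simp at h)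
        (fun t => St.ins 1 (XE L (aE (T23.bits t)) M)) ?_, T20.bwV_smul, T20.bwV_smul,
      D1.bw_step L (T23.SS L M ∪ T23.row (2*M) L) (2*M+1)
        (fun i _ _ h => by
          rw [mem_union, T23.mem_SS, T23.mem_row] at h
          simp only at h
          omega)
        (fun t => fwE L (aE (T23.bits t) (2*M)) (St.ins 1 (XE L (aE (T23.bits t)) M))) ?_,
      Finsupp.mapDomain_smul, Finsupp.mapDomain_smul, Finsupp.mapDomain_smul,
      T23.mapDomain_sum_single, ← T23.SS_succ, smul_smul, smul_smul]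
    · congr 1
      rw [← pow_add, ← pow_add]
      congr 1
      ring
    · intro i t _ _
      have e1 : ∀ k i', k ≠ 2*M+1 → aE (T23.bits (insert (2*M+1, i) t)) k i' =
          aE (T23.bits t) k i' := by
        intro k i' hk
        simp [aE, T23.bits, hk]
      rw [D1.XE_congr L _ (aE (T23.bits t)) M (fun k i' hk _ _ => e1 k i' (by omega)),
        D1.fwE_congr L _ (aE (T23.bits t) (2*M)) _ (fun i' _ _ => e1 _ i' (by omega))]
    · intro i t _ _
      have e1 : ∀ k i', k ≠ 2*M → aE (T23.bits (insert (2*M, i) t)) k i' =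
          aE (T23.bits t) k i' := by
        intro k i' hk
        simp [aE, T23.bits, hk]
      rw [D1.XE_congr L _ (aE (T23.bits t)) M (fun k i' hk _ _ => e1 k i' (by omega))]

end Pool.Agent.Helper38.EW
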