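import Pool.Agent.Helper38.EW.D1
import Pool.Graph.R_seed8.H988R2.Perc.T21

/-!
The state `XE` describes the connectivity of the strip of even width with both sides wired.
(Template: `H988R2.Perc.T21`.)
-/

set_option autoImplicit false

namespace Pool.Agent.Helper38.EW

open Pool.Agent.H988R2.Perc hiding X
open Pool.Agent.H980R2.Cross Pool.Agent.H980R2.Cont Finset

namespace D2

open Relation Pool.Agent.H988R2.Perc.T21

/-- adjacency by the open tiles of a set `S` of tiles, plus the wiring of both sides -/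
def SB2 (L : ℕ) (o : ℕ → ℕ → Bool) (S : ℕ → ℕ → Prop) (a b : ℕ × ℕ) : Prop :=
  (∃ i k, S i k ∧ o k i = true ∧
    (((i + k) % 2 = 0 ∧ a = (i, k) ∧ b = (i-1, k+1)) ∨
     ((i + k) % 2 = 1 ∧ a = (i-1, k) ∧ b = (i, k+1)))) ∨
  ((a.1 = 0 ∨ a.1 = L) ∧ (b.1 = 0 ∨ b.1 = L))

theorem add (L : ℕ) (o : ℕ → ℕ → Bool) (S S' : ℕ → ℕ → Prop) (i k : ℕ) (p p' : ℕ × ℕ)
    (hS : ∀ i' k', S' i' k' ↔ (S i' k' ∨ (i' = i ∧ k' = k)))
    (hp : ((i + k) % 2 = 0 ∧ p = (i, k) ∧ p' = (i-1, k+1)) ∨
      ((i + k) % 2 = 1 ∧ p = (i-1, k) ∧ p' = (i, k+1))) (a b : ℕ × ℕ) :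
    (SB2 L o S a b ∨ (o k i = true ∧ a = p ∧ b = p')) ↔ SB2 L o S' a b := by
  unfold SB2
  constructor
  · rintro ((⟨i', k', h1, h2, h3⟩ | h) | ⟨h1, h2, h3⟩)
    · exact Or.inl ⟨i', k', (hS _ _).2 (Or.inl h1), h2, h3⟩
    · exact Or.inr h
    · refine Or.inl ⟨i, k, (hS _ _).2 (Or.inr ⟨rfl, rfl⟩), h1, ?_⟩
      subst h2; subst h3; exact hp
  · rintro (⟨i', k', h1, h2, h3⟩ | h)
    · rcases (hS _ _).1 h1 with h1 | ⟨rfl, rfl⟩
      · exact Or.inl (Or.inl ⟨i', k', h1, h2, h3⟩)
      · refine Or.inr ⟨h2, ?_⟩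
        rcases hp with ⟨hp, rfl, rfl⟩ | ⟨hp, rfl, rfl⟩ <;>
          rcases h3 with ⟨h3, h4, h5⟩ | ⟨h3, h4, h5⟩ <;>
          first
          | exact ⟨h4, h5⟩
          | (exfalso; omega)
    · exact Or.inl (Or.inr h)

/-- a vertex outside the sides without tile in `S` is isolated -/
theorem iso (L : ℕ) (o : ℕ → ℕ → Bool) (S : ℕ → ℕ → Prop) (v : ℕ × ℕ) (hv0 : v.1 ≠ 0)
    (hv : v.1 ≠ L)
    (hS : ∀ i k, 1 ≤ i → S i k →
      ((i + k) % 2 = 0 → v ≠ (i, k) ∧ v ≠ (i-1, k+1)) ∧
      ((i + k) % 2 = 1 → v ≠ (i-1, k) ∧ v ≠ (i, k+1)))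
    (hS1 : ∀ i k, S i k → 1 ≤ i) :
    (∀ a, ¬ SB2 L o S v a) ∧ (∀ a, ¬ SB2 L o S a v) := by
  constructor
  · rintro a (⟨i, k, h1, _, ⟨h3, h4, h5⟩ | ⟨h3, h4, h5⟩⟩ | ⟨h | h, _⟩)
    · exact ((hS i k (hS1 i k h1) h1).1 h3).1 h4
    · exact ((hS i k (hS1 i k h1) h1).2 h3).1 h4
    · exact hv0 h
    · exact hv h
  · rintro a (⟨i, k, h1, _, ⟨h3, h4, h5⟩ | ⟨h3, h4, h5⟩⟩ | ⟨_, h | h⟩)
    · exact ((hS i k (hS1 i k h1) h1).1 h3).2 h5
    · exact ((hS i k (hS1 i k h1) h1).2 h3).2 h5
    · exact hv0 h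
    · exact hv h

/-- replace frontier vertices by equivalent ones -/
theorem Rep_equiv {n : ℕ} {R : St} {E : ℕ × ℕ → ℕ × ℕ → Prop} {α α' : ℕ → ℕ × ℕ}
    (h : Rep n R E α) (hα : ∀ a, a % 2 = 1 → a ≤ n → EqvGen E (α a) (α' a)) : Rep n R E α' := by
  intro a b ha hb haL hbL
  rw [h a b ha hb haL hbL]
  constructor
  · intro h'
    exact (((hα a ha haL).symm _ _).trans _ _ _ h').trans _ _ _ (hα b hb hbL)
  · intro h'
    exact ((hα a ha haL).trans _ _ _ h').trans _ _ _ ((hα b hb hbL).symm _ _)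

/-- frontier at the stage `i` of the forward sweep of row `t` -/
def gF (t i j : ℕ) : ℕ × ℕ := if j ≤ i + 2 then (j-2, t+1) else (j-3, t)

/-- frontier at the stage `i` of the backward sweep of row `t+1` -/
def gB (t i j : ℕ) : ℕ × ℕ := if j ≤ i + 2 then (j-2, t+1) else (j-3, t+2)

theorem wired {L : ℕ} {o : ℕ → ℕ → Bool} {S : ℕ → ℕ → Prop} {a b : ℕ × ℕ}
    (ha : a.1 = 0 ∨ a.1 = L) (hb : b.1 = 0 ∨ b.1 = L) : EqvGen (SB2 L o S) a b :=
  EqvGen.rel _ _ (Or.inr ⟨ha, hb⟩)

theorem rep_ins {L t : ℕ} (hL : L % 2 = 0) {o : ℕ → ℕ → Bool} {R : St}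
    (h : Rep (L+1) R (SB2 L o (fun j k => 1 ≤ j ∧ j ≤ L ∧ k < t)) (fun a => (a-1, t))) :
    Rep (L+3) (R.ins 1) (SB2 L o (SF L t 0)) (gF t 0) := by
  have hE : (fun j k => 1 ≤ j ∧ j ≤ L ∧ k < t) = SF L t 0 := by
    funext j k
    apply propext
    unfold SF
    constructor
    · rintro ⟨h1, h2, h3⟩; exact ⟨h1, h2, Or.inl h3⟩
    · rintro ⟨h1, h2, h3 | ⟨_, h3⟩⟩
      · exact ⟨h1, h2, h3⟩
      · omega
  rw [hE] at h
  have h' : Rep (L+3) (R.ins 1) (SB2 L o (SF L t 0)) (fun a => (St.low 1 a - 1, t)) := by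
    intro a b ha hb haL hbL
    have hla : St.low 1 a % 2 = 1 := by unfold St.low; split_ifs <;> omega
    have hlb : St.low 1 b % 2 = 1 := by unfold St.low; split_ifs <;> omega
    have hla2 : St.low 1 a ≤ L + 1 := by unfold St.low; split_ifs <;> omega
    have hlb2 : St.low 1 b ≤ L + 1 := by unfold St.low; split_ifs <;> omega
    rw [← h (St.low 1 a) (St.low 1 b) hla hlb hla2 hlb2]
    constructor
    · rintro (h | ⟨_, _, _, _, h⟩)
      · subst h; exact rel_refl R _
      · exact h
    · intro h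
      exact Or.inr ⟨ha, hb, by omega, by omega, h⟩
  refine Rep_equiv h' ?_
  intro a ha haL
  by_cases h1 : a ≤ 1
  · have e : a = 1 := by omega
    subst e
    apply wired
    · left; rfl
    · left; rfl
  · have e1 : gF t 0 a = (a - 3, t) := by
      unfold gF; rw [if_neg (by omega)]
    have e2 : (St.low 1 a - 1, t) = (a - 3, t) := by
      unfold St.low; rw [if_neg (by omega)]
      apply Prod.ext
      · show a - 2 - 1 = a - 3; omega
      · rfl
    rw [e1]
    show EqvGen _ (St.low 1 a - 1, t) (a - 3, t)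
    rw [e2]
    exact EqvGen.refl _

theorem rep_fwd {L t : ℕ} (ht : t % 2 = 0) (hL : L % 2 = 0) {o : ℕ → ℕ → Bool} {R : St}
    (h : Rep (L+3) R (SB2 L o (SF L t 0)) (gF t 0)) (i : ℕ) (hi : i ≤ L) :
    Rep (L+3) (fwE i (aE o t) R) (SB2 L o (SF L t i)) (gF t i) := by
  induction i with
  | zero => simpa [fwE] using h
  | succ i ih =>
    have ih := ih (by omega)
    simp only [fwE]
    have hSadd : ∀ i' k', SF L t (i+1) i' k' ↔ (SF L t i i' k' ∨ (i' = i+1 ∧ k' = t)) := by
      intro i' k'; unfold SF; omega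
    by_cases hodd : (i+1) % 2 = 0
    · have hact : aE o t (i+1) = o t (i+1) := by
        unfold aE; rw [if_pos hodd]
      rw [hact]
      have key := ih.join (i := i+2) (by omega) (by omega) (o t (i+1)) (i+1, t) (i+1-1, t+1)
        (by
          right
          constructor
          · unfold gF; rw [if_neg (by omega)]; apply Prod.ext
            · show i + 1 = i + 2 + 2 - 3; omega
            · rfl
          · unfold gF; rw [if_pos (by omega)]; apply Prod.ext
            · show i + 1 - 1 = i + 2 - 2; omega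
            · rfl)
      refine key.congr ?_ ?_
      · intro a b
        exact add L o (SF L t i) (SF L t (i+1)) (i+1) t _ _ hSadd
          (Or.inl ⟨by omega, rfl, rfl⟩) a b
      · intro a ha haL
        unfold gF
        by_cases h1 : a ≤ i + 2
        · rw [if_pos h1, if_pos (by omega)]
        · rw [if_neg h1, if_neg (by omega)]
    · have hact : aE o t (i+1) = !(o t (i+1)) := by
        unfold aE; rw [if_neg hodd]
      rw [hact]
      have hv := iso L o (SF L t i) (i+1, t+1) (by simp only; omega) (by simp only; omega)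
        (by
          rintro i' k hi ⟨h1, h2, h3⟩
          refine ⟨fun _ => ⟨?_, ?_⟩, fun _ => ⟨?_, ?_⟩⟩ <;>
          · intro h
            simp only [Prod.mk.injEq] at h
            omega)
        (by rintro i k ⟨h, _⟩; exact h)
      have key := ih.move (i := i+2) (α' := gF t (i+1)) (by omega) (o t (i+1))
        (i+1, t+1) hv.1 hv.2
        (by unfold gF; rw [if_pos (by omega)]; apply Prod.ext
            · show i + 2 + 1 - 2 = i + 1; omega
            · rfl)
        (by
          intro a ha haL hai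
          unfold gF
          by_cases h1 : a ≤ i + 2
          · rw [if_pos h1, if_pos (by omega)]
          · rw [if_neg h1, if_neg (by omega)])
        (by
          intro a ha haL h
          unfold gF at h
          split_ifs at h <;> simp only [Prod.mk.injEq] at h <;> omega)
      refine key.congr ?_ ?_
      · intro a b
        have e : gF t i (i+2+1) = (i+1-1, t) := by
          unfold gF; rw [if_neg (by omega)]; apply Prod.ext
          · show i + 2 + 1 - 3 = i + 1 - 1; omega
          · rfl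
        rw [e]
        exact add L o (SF L t i) (SF L t (i+1)) (i+1) t _ _ hSadd
          (Or.inr ⟨by omega, rfl, rfl⟩) a b
      · intro a ha haL; rfl

theorem rep_turn {L t : ℕ} (hL : L % 2 = 0) {o : ℕ → ℕ → Bool} {R : St}
    (h : Rep (L+3) R (SB2 L o (SF L t L)) (gF t L)) :
    Rep (L+3) R (SB2 L o (SB L t L)) (gB t L) := by
  have hE : SF L t L = SB L t L := by
    funext j k
    apply propext
    unfold SF SB
    omega
  rw [hE] at h
  refine Rep_equiv h ?_
  intro a ha haL
  by_cases h1 : a ≤ L + 2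
  · have : gF t L a = gB t L a := by
      unfold gF gB; rw [if_pos h1, if_pos h1]
    rw [this]; exact EqvGen.refl _
  · have ea : a = L + 3 := by omega
    subst ea
    unfold gF gB
    rw [if_neg h1, if_neg h1]
    apply wired
    · right; simp
    · right; simp

theorem rep_bwd {L t : ℕ} (ht : t % 2 = 0) (hL : L % 2 = 0) {o : ℕ → ℕ → Bool} (i : ℕ)
    (hi : i + 1 ≤ L) : ∀ {R : St}
    (_ : Rep (L+3) R (SB2 L o (SB L t (i+1))) (gB t (i+1))),
    ∃ R' : St, Rep (L+3) R' (SB2 L o (SB L t 1)) (gB t 1) ∧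
      bwE (i+1) (aE o (t+1)) R = if !(o (t+1) 1) then St.act 2 R' else R' := by
  induction i with
  | zero =>
    intro R h
    refine ⟨R, h, ?_⟩
    simp only [bwE]
    have hact : aE o (t+1) (0+1) = !(o (t+1) 1) := by
      unfold aE; rw [if_neg (by omega)]
    rw [hact]
  | succ i ih =>
    intro R h
    have e0 : bwE (i+1+1) (aE o (t+1)) R =
      bwE (i+1) (aE o (t+1)) (if aE o (t+1) (i+1+1) then St.act (i+1+2) R else R) := rfl
    rw [e0]
    apply ih (by omega)
    have hSadd : ∀ i' k', SB L t (i+1) i' k' ↔ (SB L t (i+1+1) i' k' ∨ (i' = i+1+1 ∧ k' = t+1)) := by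
      intro i' k'; unfold SB; omega
    by_cases hodd : (i+1+1) % 2 = 0
    · have hact : aE o (t+1) (i+1+1) = o (t+1) (i+1+1) := by
        unfold aE; rw [if_pos hodd]
      rw [hact]
      have key := h.join (i := i+1+2) (by omega) (by omega) (o (t+1) (i+1+1)) (i+1+1-1, t+1)
        (i+1+1, t+1+1)
        (by
          left
          constructor
          · unfold gB; rw [if_pos (by omega)]; apply Prod.ext
            · show i + 1 + 1 - 1 = i + 1 + 2 - 2; omega
            · rfl
          · unfold gB; rw [if_neg (by omega)]; apply Prod.ext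
            · show i + 1 + 1 = i + 1 + 2 + 2 - 3; omega
            · rfl)
      refine key.congr ?_ ?_
      · intro a b
        exact add L o (SB L t (i+1+1)) (SB L t (i+1)) (i+1+1) (t+1) _ _ hSadd
          (Or.inr ⟨by omega, rfl, rfl⟩) a b
      · intro a ha haL
        unfold gB
        by_cases h1 : a ≤ i + 3
        · rw [if_pos (by omega), if_pos (by omega)]
        · rw [if_neg (by omega), if_neg (by omega)]
    · have hact : aE o (t+1) (i+1+1) = !(o (t+1) (i+1+1)) := by
        unfold aE; rw [if_neg hodd]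
      rw [hact]
      have hv := iso L o (SB L t (i+1+1)) (i+1, t+2) (by simp only; omega) (by simp only; omega)
        (by
          rintro i' k hi ⟨h1, h2, h3⟩
          refine ⟨fun _ => ⟨?_, ?_⟩, fun _ => ⟨?_, ?_⟩⟩ <;>
          · intro h
            simp only [Prod.mk.injEq] at h
            omega)
        (by rintro i k ⟨h, _⟩; exact h)
      have key := h.move (i := i+1+2) (α' := gB t (i+1)) (by omega) (o (t+1) (i+1+1))
        (i+1, t+2) hv.1 hv.2
        (by unfold gB; rw [if_neg (by omega)]; apply Prod.ext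
            · show i + 1 + 2 + 1 - 3 = i + 1; omega
            · rfl)
        (by
          intro a ha haL hai
          unfold gB
          by_cases h1 : a ≤ i + 3
          · rw [if_pos (by omega), if_pos (by omega)]
          · rw [if_neg (by omega), if_neg (by omega)])
        (by
          intro a ha haL h
          unfold gB at h
          split_ifs at h <;> simp only [Prod.mk.injEq] at h <;> omega)
      refine key.congr ?_ ?_
      · intro a b
        have e : gB t (i+1+1) (i+1+2+1) = (i+1+1, t+1) := by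
          unfold gB; rw [if_pos (by omega)]; apply Prod.ext
          · show i + 1 + 2 + 1 - 2 = i + 1 + 1; omega
          · rfl
        rw [e]
        exact add L o (SB L t (i+1+1)) (SB L t (i+1)) (i+1+1) (t+1) _ _ hSadd
          (Or.inl ⟨by omega, rfl, by simp⟩) a b
      · intro a ha haL; rfl

theorem up_one (a : ℕ) : St.up 1 a = if a ≤ 1 then a else a + 2 := rfl

/-- the last tile and the removal of the face -/
theorem rep_cap {L t : ℕ} (ht : t % 2 = 0) (hL : L % 2 = 0) (hL2 : 2 ≤ L) {o : ℕ → ℕ → Bool}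
    {R : St} (h : Rep (L+3) R (SB2 L o (SB L t 1)) (gB t 1)) :
    Rep (L+1) (St.cap 1 (if !(o (t+1) 1) then St.act 2 R else R))
      (SB2 L o (fun j k => 1 ≤ j ∧ j ≤ L ∧ k < t+2)) (fun a => (a-1, t+2)) := by
  have hE : SB L t 0 = (fun j k => 1 ≤ j ∧ j ≤ L ∧ k < t+2) := by
    funext j k
    apply propext
    unfold SB
    omega
  rw [← hE]
  have hSadd : ∀ i' k', SB L t 0 i' k' ↔ (SB L t 1 i' k' ∨ (i' = 1 ∧ k' = t+1)) := by
    intro i' k'; unfold SB; omega
  -- new frontier
  set β : ℕ → ℕ × ℕ := fun a => if a ≤ 1 then (0, t+2) else gB t 1 a with hβ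
  have hβ' : Rep (L+3) R (SB2 L o (SB L t 1)) β := by
    refine Rep_equiv h ?_
    intro a ha haL
    by_cases h1 : a ≤ 1
    · have e : a = 1 := by omega
      subst e
      apply wired
      · left; rfl
      · left; rfl
    · simp only [hβ, if_neg h1]
      exact EqvGen.refl _
  have hup : ∀ a, a % 2 = 1 → a ≤ L + 1 → St.up 1 a % 2 = 1 ∧ St.up 1 a ≤ L + 3 ∧ St.up 1 a ≠ 3 ∧
      St.up 1 a ≠ 2 ∧ β (St.up 1 a) = (a - 1, t+2) := by
    intro a ha haL
    rw [up_one]
    by_cases h1 : a ≤ 1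
    · rw [if_pos h1]
      refine ⟨ha, by omega, by omega, by omega, ?_⟩
      simp only [hβ, if_pos h1]
      apply Prod.ext
      · show 0 = a - 1; omega
      · rfl
    · rw [if_neg h1]
      refine ⟨by omega, by omega, by omega, by omega, ?_⟩
      simp only [hβ]
      rw [if_neg (by omega)]
      unfold gB
      rw [if_neg (by omega)]
      apply Prod.ext
      · show a + 2 - 3 = a - 1; omega
      · rfl
  intro a b ha hb haL hbL
  obtain ⟨a1, a2, a3, a4, a5⟩ := hup a ha haL
  obtain ⟨b1, b2, b3, b4, b5⟩ := hup b hb hbL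
  show (St.act 1 (if !(o (t+1) 1) then St.act 2 R else R)).rel (St.up 1 a) (St.up 1 b) ↔ _
  rw [← eqvGen_congr (add L o (SB L t 1) (SB L t 0) 1 (t+1) (1, t+1) (0, t+2) hSadd
    (Or.inl ⟨by omega, rfl, rfl⟩))]
  show _ ↔ EqvGen _ (a - 1, t + 2) (b - 1, t + 2)
  rw [← a5, ← b5]
  cases ho : o (t+1) 1 with
  | true =>
    simp only [Bool.not_true, Bool.false_eq_true, if_false, true_and]
    have key := hβ'.join (i := 1) rfl (by omega) true (1, t+1) (0, t+2)
      (by
        right
        constructor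
        · simp only [hβ]
          rw [if_neg (by omega)]
          unfold gB
          rw [if_pos (by omega)]
        · simp only [hβ]
          rw [if_pos (by omega)])
    have := key (St.up 1 a) (St.up 1 b) a1 b1 a2 b2
    simpa using this
  | false =>
    simp only [Bool.not_false, if_true, Bool.false_eq_true, false_and, or_false]
    rw [act_rel_odd _ 1 _ _ rfl a1 b1, act_rel_even R 2 _ _ rfl a1 b1,
      act_rel_even R 2 (1+2) _ rfl rfl b1, act_rel_even R 2 _ (1+2) rfl a1 rfl]
    rw [← hβ' (St.up 1 a) (St.up 1 b) a1 b1 a2 b2]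
    constructor
    · rintro ((h | ⟨_, _, h⟩) | ⟨_, h | ⟨h, _⟩⟩ | ⟨h | ⟨_, h, _⟩, _⟩)
      · rw [h]; exact rel_refl R _
      · exact h
      · omega
      · omega
      · omega
      · omega
    · intro h
      exact Or.inl (Or.inr ⟨a3, b3, h⟩)

theorem rep_XE (L : ℕ) (hL : L % 2 = 0) (hL2 : 2 ≤ L) (o : ℕ → ℕ → Bool) (M : ℕ) :
    Rep (L+1) (XE L (aE o) M) (SB2 L o (fun j k => 1 ≤ j ∧ j ≤ L ∧ k < 2*M))
      (fun a => (a-1, 2*M)) := by
  induction M with
  | zero =>
    intro a b ha hb haL hbL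
    change (a = b ∨ _) ↔ _
    constructor
    · rintro (rfl | ⟨_, h1, h2⟩)
      · exact EqvGen.refl _
      · apply wired
        · show a - 1 = 0 ∨ a - 1 = L
          omega
        · show b - 1 = 0 ∨ b - 1 = L
          omega
    · intro h
      have key : ∀ x y : ℕ × ℕ, EqvGen (SB2 L o (fun j k => 1 ≤ j ∧ j ≤ L ∧ k < 2*0)) x y →
          x = y ∨ ((x.1 = 0 ∨ x.1 = L) ∧ (y.1 = 0 ∨ y.1 = L)) := by
        intro x y h
        induction h with
        | rel a b h =>
          rcases h with ⟨i, k, ⟨_, _, h⟩, _⟩ | h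
          · omega
          · exact Or.inr h
        | refl a => exact Or.inl rfl
        | symm a b _ ih =>
          rcases ih with h | ⟨h, h'⟩
          · exact Or.inl h.symm
          · exact Or.inr ⟨h', h⟩
        | trans a b d _ _ ih1 ih2 =>
          rcases ih1 with h | ⟨h, h'⟩ <;> rcases ih2 with k | ⟨k, k'⟩
          · exact Or.inl (h.trans k)
          · subst h; exact Or.inr ⟨k, k'⟩
          · subst k; exact Or.inr ⟨h, h'⟩
          · exact Or.inr ⟨h, k'⟩
      rcases key _ _ h with h | ⟨h, h'⟩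
      · simp only [Prod.mk.injEq] at h
        left; omega
      · simp only at h h'
        right
        refine ⟨by omega, by omega, by omega⟩
  | succ M ih =>
    simp only [XE]
    have h1 := rep_ins (t := 2*M) hL ih
    have h2 := rep_fwd (t := 2*M) (by omega) hL h1 L le_rfl
    have h3 := rep_turn (t := 2*M) hL h2
    obtain ⟨i, rfl⟩ : ∃ i, L = i + 1 := ⟨L - 1, by omega⟩
    obtain ⟨R', h4, h5⟩ := rep_bwd (t := 2*M) (by omega) hL i le_rfl h3
    rw [h5]
    exact rep_cap (t := 2*M) (by omega) hL hL2 h4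

end D2

end Pool.Agent.Helper38.EW
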