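import Pool.Agent.Helper38.EW.D2
import Pool.Graph.R_seed8.H988R2.Perc.T22

/-!
Percolation in the half-infinite strip of even width: the end vertices joined to the sides.
(Template: `H980R2.Cont.T18b`.)
-/

set_option autoImplicit false

namespace Pool.Agent.Helper38.EW

open Pool.Agent.H988R2.Perc hiding X
open Pool.Agent.H980R2.Cross Pool.Agent.H980R2.Cont Finset Filter Topology

/-- the half-infinite strip `0 ≤ u - v ≤ L`, `u + v ≤ 0` -/
def InStripE (L : ℕ) (x : ℤ × ℤ) : Prop := 0 ≤ x.1 - x.2 ∧ x.1 - x.2 ≤ L ∧ x.1 + x.2 ≤ 0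

/-- open path inside the half-infinite strip -/
def JoinedE (L : ℕ) (ω : Conf) : ℤ × ℤ → ℤ × ℤ → Prop :=
  Relation.ReflTransGen (fun a b => OpenAdj ω a b ∧ InStripE L a ∧ InStripE L b)

/-- the vertices of the flat end, not on the sides, joined to one of the two sides -/
def touchE (L : ℕ) (ω : Conf) : Set (ℤ × ℤ) :=
  {x | x.1 + x.2 = 0 ∧ 0 < x.1 - x.2 ∧ x.1 - x.2 < (L : ℤ) ∧
    ∃ y : ℤ × ℤ, (y.1 - y.2 = 0 ∨ y.1 - y.2 = (L : ℤ)) ∧ JoinedE L ω x y}

/-- open bits of the window `-2M ≤ u + v ≤ 0` -/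
def oPE (ω : Conf) (M : ℕ) (k i : ℕ) : Bool := ω (edgeOf i ((k : ℤ) - 2 * M - 1))

namespace D3

open Relation Pool.Agent.H988R2.Perc.T21 D2

/-- the vertex of the plane of a vertex of the window -/
def toW (M : ℕ) (p : ℕ × ℕ) : ℤ × ℤ :=
  (((p.1 : ℤ) + ((p.2 : ℤ) - 2 * M)) / 2, (((p.2 : ℤ) - 2 * M) - p.1) / 2)

/-- inverse -/
def ct (M : ℕ) (x : ℤ × ℤ) : ℕ × ℕ := ((x.1 - x.2).toNat, (x.1 + x.2 + 2 * M).toNat)

/-- the end vertex in the column `c` -/
def pt (c : ℕ) : ℤ × ℤ := (((c : ℤ)) / 2, -((c : ℤ) / 2))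

/-- the tiles of the window -/
def WS (L M : ℕ) : ℕ → ℕ → Prop := fun j k => 1 ≤ j ∧ j ≤ L ∧ k < 2*M

theorem toW_facts (M : ℕ) (p : ℕ × ℕ) (h : (p.1 + p.2) % 2 = 0) :
    (toW M p).1 - (toW M p).2 = p.1 ∧ (toW M p).1 + (toW M p).2 = (p.2 : ℤ) - 2 * M := by
  unfold toW
  dsimp only
  omega

theorem toW_pt (M c : ℕ) (hc : c % 2 = 0) : toW M (c, 2*M) = pt c := by
  unfold toW pt
  apply Prod.ext
  · dsimp only; push_cast; omega
  · dsimp only; push_cast; omega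

theorem ct_pt (M c : ℕ) (hc : c % 2 = 0) : ct M (pt c) = (c, 2*M) := by
  unfold ct pt
  apply Prod.ext
  · dsimp only; omega
  · dsimp only; omega

theorem openAdj_symm {ω : Conf} {a b : ℤ × ℤ} (h : OpenAdj ω a b) : OpenAdj ω b a :=
  T22.openAdj_symm h

/-- an edge of the window is an open edge of the strip -/
theorem sb_open {L M : ℕ} {ω : Conf} {p p' : ℕ × ℕ}
    (h : ∃ i k, WS L M i k ∧ oPE ω M k i = true ∧
      (((i + k) % 2 = 0 ∧ p = (i, k) ∧ p' = (i-1, k+1)) ∨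
       ((i + k) % 2 = 1 ∧ p = (i-1, k) ∧ p' = (i, k+1)))) :
    (p.1 + p.2) % 2 = 0 ∧ (p'.1 + p'.2) % 2 = 0 ∧ OpenAdj ω (toW M p) (toW M p') ∧
      InStripE L (toW M p) ∧ InStripE L (toW M p') := by
  obtain ⟨i, k, ⟨h1, h2, h3⟩, h4, h5⟩ := h
  unfold oPE edgeOf at h4
  rcases h5 with ⟨h5, rfl, rfl⟩ | ⟨h5, rfl, rfl⟩
  · have f1 : ((i, k).1 + (i, k).2) % 2 = 0 := h5
    have f2 : ((i-1, k+1).1 + (i-1, k+1).2) % 2 = 0 := by show (i - 1 + (k + 1)) % 2 = 0; omega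
    obtain ⟨g1, g2⟩ := toW_facts M (i, k) f1
    obtain ⟨g3, g4⟩ := toW_facts M (i-1, k+1) f2
    dsimp only at g1 g2 g3 g4
    refine ⟨f1, f2, ?_, ⟨by omega, by omega, by omega⟩, ⟨by omega, by omega, by omega⟩⟩
    rw [if_pos (by omega)] at h4
    right; right; left
    constructor
    · unfold toW
      apply Prod.ext
      · dsimp only; omega
      · dsimp only; omega
    · have e1 : (toW M (i, k)).1 = ((i : ℤ) + ((k : ℤ) - 2 * M - 1) + 1) / 2 := by
        unfold toW; dsimp only; congr 1; ring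
      have e2 : (toW M (i, k)).2 = ((k : ℤ) - 2 * M - 1 + 1 - i) / 2 := by
        unfold toW; dsimp only; congr 1; ring
      rw [e1, e2]
      exact h4
  · have f1 : ((i-1, k).1 + (i-1, k).2) % 2 = 0 := by show (i - 1 + k) % 2 = 0; omega
    have f2 : ((i, k+1).1 + (i, k+1).2) % 2 = 0 := by show (i + (k + 1)) % 2 = 0; omega
    obtain ⟨g1, g2⟩ := toW_facts M (i-1, k) f1
    obtain ⟨g3, g4⟩ := toW_facts M (i, k+1) f2
    dsimp only at g1 g2 g3 g4
    refine ⟨f1, f2, ?_, ⟨by omega, by omega, by omega⟩, ⟨by omega, by omega, by omega⟩⟩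
    rw [if_neg (by omega)] at h4
    left
    constructor
    · unfold toW
      apply Prod.ext
      · dsimp only; omega
      · dsimp only; omega
    · have e1 : (toW M (i-1, k)).1 = ((i : ℤ) + ((k : ℤ) - 2 * M - 1)) / 2 := by
        unfold toW; dsimp only; congr 1; omega
      have e2 : (toW M (i-1, k)).2 = ((k : ℤ) - 2 * M - 1 + 2 - i) / 2 := by
        unfold toW; dsimp only; congr 1; omega
      rw [e1, e2]
      exact h4

/-- an end vertex related to the side face touches a side -/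
theorem touch_of_rel {L : ℕ} (hL : L % 2 = 0) (hL2 : 2 ≤ L) (ω : Conf) (M c : ℕ) (hc : c % 2 = 0)
    (hc0 : 0 < c) (hcL : c < L) (h : (XE L (aE (oPE ω M)) M).rel (c+1) (L+1)) :
    pt c ∈ touchE L ω := by
  rw [rep_XE L hL hL2 (oPE ω M) M (c+1) (L+1) (by omega) (by omega) (by omega) le_rfl] at h
  change EqvGen _ (c, 2*M) (L, 2*M) at h
  by_contra hcon
  have hc' : ∀ y : ℤ × ℤ, (y.1 - y.2 = 0 ∨ y.1 - y.2 = (L : ℤ)) → ¬ JoinedE L ω (pt c) y := by
    intro y hy hj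
    apply hcon
    refine ⟨?_, ?_, ?_, y, hy, hj⟩
    · unfold pt; dsimp only; omega
    · unfold pt; dsimp only; omega
    · unfold pt; dsimp only; omega
  let P : ℕ × ℕ → Prop := fun p => (p.1 + p.2) % 2 = 0 ∧ JoinedE L ω (pt c) (toW M p)
  have wired : ∀ p : ℕ × ℕ, (p.1 = 0 ∨ p.1 = L) → ¬ P p := by
    rintro p hp ⟨h1, h2⟩
    obtain ⟨g1, g2⟩ := toW_facts M p h1
    exact hc' (toW M p) (by rw [g1]; omega) h2
  have key : P (c, 2*M) ↔ P (L, 2*M) := by
    refine T22.eqvGen_iff P ?_ h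
    rintro p p' (h1 | ⟨h1, h2⟩)
    · obtain ⟨f1, f2, f3, f4, f5⟩ := sb_open h1
      constructor
      · rintro ⟨_, h3⟩
        exact ⟨f2, Relation.ReflTransGen.tail h3 ⟨f3, f4, f5⟩⟩
      · rintro ⟨_, h3⟩
        exact ⟨f1, Relation.ReflTransGen.tail h3 ⟨openAdj_symm f3, f5, f4⟩⟩
    · exact ⟨fun h => absurd h (wired p h1), fun h => absurd h (wired p' h2)⟩
  have hP1 : P (c, 2*M) := by
    refine ⟨by show (c + 2 * M) % 2 = 0; omega, ?_⟩
    rw [toW_pt M c hc]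
    exact Relation.ReflTransGen.refl
  exact wired _ (Or.inr rfl) (key.1 hP1)

/-- an open edge of the half-infinite strip belongs to a large window -/
theorem open_part (L : ℕ) (ω : Conf) (x y : ℤ × ℤ) (h : OpenAdj ω x y)
    (hx : InStripE L x) (hy : InStripE L y) (M : ℕ)
    (hM : |x.1 + x.2| + |y.1 + y.2| + 1 ≤ (M : ℤ)) :
    EqvGen (SB2 L (oPE ω M) (WS L M)) (ct M x) (ct M y) := by
  have hb1 := abs_le.mp (le_refl |x.1 + x.2|)
  have hb2 := abs_le.mp (le_refl |y.1 + y.2|)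
  obtain ⟨hx0, hx1, hx2⟩ := hx
  obtain ⟨hy0, hy1, hy2⟩ := hy
  obtain ⟨x1, x2⟩ := x
  obtain ⟨y1, y2⟩ := y
  dsimp only at *
  have hh : ∀ u v : ℤ, ω (u, v, false) = true → 0 ≤ u - v → u + 1 - v ≤ L → u + 1 + v ≤ 0 →
      -(2 * (M : ℤ)) ≤ u + v → SB2 L (oPE ω M) (WS L M) (ct M (u, v)) (ct M (u+1, v)) := by
    intro u v h h0 h1 h2 h3
    left
    refine ⟨(u - v + 1).toNat, (u + v + 2 * M).toNat, ⟨by omega, by omega, by omega⟩, ?_,
      Or.inr ⟨by omega, ?_, ?_⟩⟩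
    · unfold oPE edgeOf
      have e1 : (((u - v + 1).toNat : ℕ) : ℤ) = u - v + 1 := by omega
      have e2 : (((u + v + 2 * M).toNat : ℕ) : ℤ) = u + v + 2 * M := by omega
      rw [e1, e2, if_neg (by omega)]
      have e3 : (u - v + 1 + (u + v + 2 * (M:ℤ) - 2 * M - 1)) / 2 = u := by omega
      have e4 : (u + v + 2 * (M:ℤ) - 2 * M - 1 + 2 - (u - v + 1)) / 2 = v := by omega
      rw [e3, e4]; exact h
    · unfold ct; apply Prod.ext
      · dsimp only; omega
      · rfl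
    · unfold ct; apply Prod.ext
      · dsimp only; omega
      · dsimp only; omega
  have hv : ∀ u v : ℤ, ω (u, v, true) = true → 0 ≤ u - (v+1) → u - v ≤ L → u + (v + 1) ≤ 0 →
      -(2 * (M : ℤ)) ≤ u + v → SB2 L (oPE ω M) (WS L M) (ct M (u, v)) (ct M (u, v+1)) := by
    intro u v h h0 h1 h2 h3
    left
    refine ⟨(u - v).toNat, (u + v + 2 * M).toNat, ⟨by omega, by omega, by omega⟩, ?_,
      Or.inl ⟨by omega, ?_, ?_⟩⟩
    · unfold oPE edgeOf
      have e1 : (((u - v).toNat : ℕ) : ℤ) = u - v := by omega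
      have e2 : (((u + v + 2 * M).toNat : ℕ) : ℤ) = u + v + 2 * M := by omega
      rw [e1, e2, if_pos (by omega)]
      have e3 : (u - v + (u + v + 2 * (M:ℤ) - 2 * M - 1) + 1) / 2 = u := by omega
      have e4 : (u + v + 2 * (M:ℤ) - 2 * M - 1 + 1 - (u - v)) / 2 = v := by omega
      rw [e3, e4]; exact h
    · unfold ct; apply Prod.ext
      · rfl
      · rfl
    · unfold ct; apply Prod.ext
      · dsimp only; omega
      · dsimp only; omega
  rcases h with ⟨e, h⟩ | ⟨e, h⟩ | ⟨e, h⟩ | ⟨e, h⟩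
  · simp only [Prod.mk.injEq] at e
    obtain ⟨rfl, rfl⟩ := e
    exact EqvGen.rel _ _ (hh _ _ h (by omega) (by omega) (by omega) (by omega))
  · simp only [Prod.mk.injEq] at e
    obtain ⟨rfl, rfl⟩ := e
    exact EqvGen.symm _ _ (EqvGen.rel _ _ (hh _ _ h (by omega) (by omega) (by omega) (by omega)))
  · simp only [Prod.mk.injEq] at e
    obtain ⟨rfl, rfl⟩ := e
    exact EqvGen.rel _ _ (hv _ _ h (by omega) (by omega) (by omega) (by omega))
  · simp only [Prod.mk.injEq] at e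
    obtain ⟨rfl, rfl⟩ := e
    exact EqvGen.symm _ _ (EqvGen.rel _ _ (hv _ _ h (by omega) (by omega) (by omega) (by omega)))

theorem joined_part (L : ℕ) (ω : Conf) (x y : ℤ × ℤ) (h : JoinedE L ω x y) :
    ∃ M₀ : ℕ, ∀ M, M₀ ≤ M → EqvGen (SB2 L (oPE ω M) (WS L M)) (ct M x) (ct M y) := by
  unfold JoinedE at h
  induction h with
  | refl => exact ⟨0, fun M _ => EqvGen.refl _⟩
  | tail _ hs ih =>
    rename_i y z _
    obtain ⟨M₁, h1⟩ := ih
    obtain ⟨ho, s1, s2⟩ := hs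
    refine ⟨M₁ + (|y.1 + y.2| + |z.1 + z.2| + 1).toNat, fun M hM => ?_⟩
    refine EqvGen.trans _ _ _ (h1 M (by omega)) (open_part L ω y z ho s1 s2 M ?_)
    have := Int.self_le_toNat (|y.1 + y.2| + |z.1 + z.2| + 1)
    omega

/-- a touching end vertex is related to the side face in all large windows -/
theorem rel_of_touch {L : ℕ} (hL : L % 2 = 0) (hL2 : 2 ≤ L) (ω : Conf) (c : ℕ) (hc : c % 2 = 0)
    (hcL : c < L) (h : pt c ∈ touchE L ω) : ∃ M₀ : ℕ, ∀ M, M₀ ≤ M →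
      (XE L (aE (oPE ω M)) M).rel (c+1) (L+1) := by
  obtain ⟨_, _, _, y, hy, hj⟩ := h
  obtain ⟨M₀, h0⟩ := joined_part L ω _ _ hj
  refine ⟨M₀, fun M hM => ?_⟩
  rw [rep_XE L hL hL2 (oPE ω M) M (c+1) (L+1) (by omega) (by omega) (by omega) le_rfl]
  have h1 := h0 M hM
  rw [ct_pt M c hc] at h1
  refine EqvGen.trans _ _ _ h1 (EqvGen.rel _ _ (Or.inr ⟨?_, Or.inr rfl⟩))
  unfold ct
  dsimp only
  omega

open Classical in
/-- the columns (minus one) of the touching end vertices -/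
noncomputable def A (L : ℕ) (ω : Conf) : Finset ℕ :=
  (range (L-1)).filter (fun k => (k+1) % 2 = 0 ∧ pt (k+1) ∈ touchE L ω)

theorem mem_A (L : ℕ) (ω : Conf) (k : ℕ) :
    k ∈ A L ω ↔ k < L - 1 ∧ (k+1) % 2 = 0 ∧ pt (k+1) ∈ touchE L ω := by
  classical
  unfold A
  simp only [Finset.mem_filter, Finset.mem_range]

theorem touch_eq (L : ℕ) (ω : Conf) :
    touchE L ω = (fun k : ℕ => pt (k+1)) '' (A L ω : Set ℕ) := by
  ext x
  constructor
  · intro hx
    obtain ⟨h1, h2, h3, _⟩ := id hx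
    have e : pt ((x.1 - x.2).toNat - 1 + 1) = x := by
      unfold pt
      apply Prod.ext <;> dsimp only <;> omega
    refine ⟨(x.1 - x.2).toNat - 1, ?_, e⟩
    rw [Finset.mem_coe, mem_A]
    refine ⟨by omega, by omega, ?_⟩
    rw [e]; exact hx
  · rintro ⟨a, ha, rfl⟩
    rw [Finset.mem_coe, mem_A] at ha
    exact ha.2.2

theorem ncard_eq (L : ℕ) (ω : Conf) : (touchE L ω).ncard = (A L ω).card := by
  rw [touch_eq, Set.InjOn.ncard_image, Set.ncard_coe_finset]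
  intro a ha b hb hab
  rw [Finset.mem_coe, mem_A] at ha hb
  have h1 := ct_pt 0 (a+1) ha.2.1
  have h2 := ct_pt 0 (b+1) hb.2.1
  have hab' : pt (a+1) = pt (b+1) := hab
  rw [hab', h2] at h1
  have := congrArg Prod.fst h1
  dsimp only at this
  omega

end D3

open D3 in
theorem touchE_finite (L : ℕ) (ω : Conf) : (touchE L ω).Finite := by
  rw [touch_eq]
  exact (Finset.finite_toSet _).image _

open D3 in
theorem touchE_eventually {L : ℕ} (hL : L % 2 = 0) (hL2 : 2 ≤ L) (ω : Conf) :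
    ∀ᶠ M in atTop, cntE L (XE L (aE (oPE ω M)) M) = (touchE L ω).ncard := by
  have h1 : ∀ᶠ M : ℕ in atTop, ∀ k ∈ range (L-1), (k+1) % 2 = 0 →
      ((XE L (aE (oPE ω M)) M).rel (k+2) (L+1) ↔ pt (k+1) ∈ touchE L ω) := by
    rw [Filter.eventually_all_finset]
    intro k hk
    rw [Finset.mem_range] at hk
    by_cases h : (k+1) % 2 = 0
    · by_cases ht : pt (k+1) ∈ touchE L ω
      · obtain ⟨M₀, h0⟩ := rel_of_touch hL hL2 ω (k+1) h (by omega) ht
        filter_upwards [eventually_ge_atTop M₀] with M hM _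
        exact ⟨fun _ => ht, fun _ => h0 M hM⟩
      · refine Filter.Eventually.of_forall fun M _ => ?_
        exact ⟨fun hr => touch_of_rel hL hL2 ω M (k+1) h (by omega) (by omega) hr,
          fun hr => absurd hr ht⟩
    · exact Filter.Eventually.of_forall fun M h' => absurd h' h
  filter_upwards [h1] with M hM
  rw [ncard_eq]
  unfold cntE
  apply congrArg Finset.card
  ext k
  rw [mem_A]
  simp only [Finset.mem_filter, Finset.mem_range]
  constructor
  · rintro ⟨h2, h4⟩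
    have h3 : (k+1) % 2 = 0 := by
      rcases (XE L (aE (oPE ω M)) M).odd _ _ h4 with h5 | ⟨h5, _⟩ <;> omega
    exact ⟨h2, h3, (hM k (Finset.mem_range.2 h2) h3).1 h4⟩
  · rintro ⟨h2, h3, h4⟩
    exact ⟨h2, (hM k (Finset.mem_range.2 h2) h3).2 h4⟩

end Pool.Agent.Helper38.EW
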