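import Pool.Agent.Helper38.EW.D3

/-!
The exact law of the number of end vertices joined to the sides.
(Templates: `H988R2.Perc.T23`, `H980R2.Cont.T18`, `T18c`, `T19`.)
-/

set_option autoImplicit false

namespace Pool.Agent.Helper38.EW

open Pool.Agent.H988R2.Perc hiding X
open Pool.Agent.H980R2.Cross Pool.Agent.H980R2.Cont Finset Filter Topology MeasureTheory

namespace D4

open Pool.Agent.H988R2.Perc.T23 (bits mem_SS)

/-- edge of a coordinate -/
def eE (M : ℕ) (j : ℕ × ℕ) : Edge := edgeOf j.2 ((j.1 : ℤ) - 2 * M - 1)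

/-- bits as a set -/
def tE (L M : ℕ) (ω : Conf) : Finset (ℕ × ℕ) := (T23.SS L M).filter (fun j => ω (eE M j) = true)

theorem XE_past (L M : ℕ) (ω : Conf) :
    XE L (aE (oPE ω M)) M = XE L (aE (bits (tE L M ω))) M := by
  apply D1.XE_congr
  intro k i hk h1 h2
  have : oPE ω M k i = bits (tE L M ω) k i := by
    have hm : (k, i) ∈ T23.SS L M := by rw [mem_SS]; exact ⟨hk, h1, h2⟩
    have hiff : (k, i) ∈ tE L M ω ↔ oPE ω M k i = true := by
      unfold tE
      rw [Finset.mem_filter]
      exact ⟨fun h => h.2, fun h => ⟨hm, h⟩⟩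
    unfold T23.bits
    by_cases h : oPE ω M k i = true
    · rw [h]; exact (decide_eq_true (hiff.2 h)).symm
    · have h' : oPE ω M k i = false := by simpa using h
      rw [h']; exact (decide_eq_false (fun hh => h (hiff.1 hh))).symm
  simp only [aE, this]

theorem eE_inj (L M : ℕ) : Function.Injective (fun j : ↥(T23.SS L M) => eE M j) := by
  rintro ⟨⟨k, i⟩, h⟩ ⟨⟨k', i'⟩, h'⟩ hh
  simp only [eE] at hh
  have := T23.edgeOf_inj hh
  simp only [Subtype.mk.injEq, Prod.mk.injEq]
  omega

theorem cell_eq (L M : ℕ) (t : Finset (ℕ × ℕ)) (ht : t ⊆ T23.SS L M) :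
    {ω : Conf | tE L M ω = t} =
      ⋂ j : ↥(T23.SS L M), (fun ω : Conf => ω (eE M j)) ⁻¹' {decide ((j : ℕ × ℕ) ∈ t)} := by
  ext ω
  simp only [Set.mem_ofPred_eq, Set.mem_iInter, Set.mem_preimage, Set.mem_singleton_iff]
  constructor
  · rintro e ⟨j, hj⟩
    rw [← e]
    simp only [tE, mem_filter, hj, true_and]
    cases ω (eE M j) <;> simp
  · intro h
    ext j
    simp only [tE, mem_filter]
    constructor
    · rintro ⟨hj, ho⟩
      have := h ⟨j, hj⟩
      simp only [ho] at this
      simpa using this.symm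
    · intro hj
      refine ⟨ht hj, ?_⟩
      have := h ⟨j, ht hj⟩
      simp only [hj, decide_true] at this
      exact this

theorem perc_cell (L M : ℕ) (t : Finset (ℕ × ℕ)) (ht : t ⊆ T23.SS L M) :
    perc {ω : Conf | tE L M ω = t} = (1/2) ^ (2*M*L) := by
  rw [cell_eq L M t ht]
  have hind : ProbabilityTheory.iIndepFun (fun (e : Edge) (ω : Conf) => ω e) perc := by
    unfold perc
    exact ProbabilityTheory.iIndepFun_infinitePi (X := fun _ b => b) (fun _ => measurable_id)
  have hind2 := hind.precomp (eE_inj L M)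
  have h3 := hind2.measure_inter_preimage_eq_mul (Finset.univ : Finset ↥(T23.SS L M))
    (sets := fun j => {decide ((j : ℕ × ℕ) ∈ t)}) (fun j _ => measurableSet_singleton _)
  simp only [Finset.mem_univ, Set.iInter_true, Function.comp_def] at h3
  have h4 : ∀ j : ↥(T23.SS L M), perc ((fun ω : Conf => ω (eE M j)) ⁻¹'
      {decide ((j : ℕ × ℕ) ∈ t)}) = 1/2 := by
    intro j
    have := (measurePreserving_eval_infinitePi (fun _ : Edge => coin) (eE M j)).measure_preimage
      (measurableSet_singleton (decide ((j : ℕ × ℕ) ∈ t))).nullMeasurableSet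
    unfold perc
    rw [← T23.coin_singleton (decide ((j : ℕ × ℕ) ∈ t)), ← this]
  rw [h3]
  simp only [h4]
  rw [Finset.prod_const, Finset.card_univ, Fintype.card_coe]
  congr 1
  unfold T23.SS
  rw [card_product, card_range, Nat.card_Icc, Nat.add_sub_cancel]

theorem measurable_cell (L M : ℕ) (t : Finset (ℕ × ℕ)) :
    MeasurableSet {ω : Conf | tE L M ω = t} := by
  by_cases ht : t ⊆ T23.SS L M
  · rw [cell_eq L M t ht]
    exact MeasurableSet.iInter (fun j => (measurable_pi_apply (eE M j)) (measurableSet_singleton _))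
  · have h : {ω : Conf | tE L M ω = t} = ∅ := by
      ext ω
      simp only [Set.mem_ofPred_eq, Set.mem_empty_iff_false, iff_false]
      intro h
      exact ht (h ▸ filter_subset _ _)
    rw [h]
    exact MeasurableSet.empty

open Classical in
/-- the good sets of bits -/
noncomputable def good (L k M : ℕ) : Finset (Finset (ℕ × ℕ)) :=
  (T23.SS L M).powerset.filter (fun t => cntE L (XE L (aE (bits t)) M) = k)

theorem mem_good {L k M : ℕ} {t : Finset (ℕ × ℕ)} : t ∈ good L k M ↔
    t ⊆ T23.SS L M ∧ cntE L (XE L (aE (bits t)) M) = k := by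
  classical
  unfold good
  rw [Finset.mem_filter, Finset.mem_powerset]

theorem set_eq (L k M : ℕ) : {ω : Conf | cntE L (XE L (aE (oPE ω M)) M) = k} =
      ⋃ t ∈ good L k M, {ω : Conf | tE L M ω = t} := by
  ext ω
  simp only [Set.mem_ofPred_eq, Set.mem_iUnion, exists_prop]
  rw [XE_past]
  constructor
  · intro h
    exact ⟨tE L M ω, mem_good.2 ⟨filter_subset _ _, h⟩, rfl⟩
  · rintro ⟨t, ht, rfl⟩
    exact (mem_good.1 ht).2

theorem measurable_cnt (L M k : ℕ) :
    MeasurableSet {ω : Conf | cntE L (XE L (aE (oPE ω M)) M) = k} := by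
  rw [set_eq]
  exact Finset.measurableSet_biUnion _ (fun t _ => measurable_cell L M t)

open Classical in
theorem JE_lin (L k : ℕ) (f : St →₀ ℂ) : JE L k f =
    Finsupp.linearCombination ℂ (fun R => if cntE L R = k then (1:ℂ) else 0) f := by
  unfold JE
  rw [Finsupp.linearCombination_apply]
  apply Finsupp.sum_congr
  intro x _
  rw [smul_eq_mul]
  split_ifs <;> simp

theorem perc_cnt (L k M : ℕ) :
    ((perc.real {ω | cntE L (XE L (aE (oPE ω M)) M) = k} : ℝ) : ℂ) =
      JE L k ((TE L)^[M] (Finsupp.single (RW (L-1)) 1)) := by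
  classical
  rw [set_eq, measureReal_biUnion_finset]
  · have h1 : ∀ t ∈ good L k M, perc.real {ω : Conf | tE L M ω = t} = (1/2 : ℝ)^(2*M*L) := by
      intro t ht
      rw [measureReal_def, perc_cell L M t (mem_good.1 ht).1]
      simp
    rw [Finset.sum_congr rfl h1, Finset.sum_const, nsmul_eq_mul, good, JE_lin, lawE_eq, map_smul,
      map_sum]
    simp only [Finsupp.linearCombination_single, smul_eq_mul, one_mul]
    rw [Finset.sum_boole]
    push_cast
    ring
  · intro p _ p' _ hne
    rw [Function.onFun, Set.disjoint_left]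
    rintro ω h1 h3
    exact hne (h1.symm.trans h3)
  · intro t _
    exact measurable_cell L M t

end D4

open D4

theorem measurable_touchE {L : ℕ} (hL : L % 2 = 0) (hL2 : 2 ≤ L) (k : ℕ) :
    MeasurableSet {ω : Conf | (touchE L ω).ncard = k} := by
  have h : {ω : Conf | (touchE L ω).ncard = k} =
      ⋃ M0 : ℕ, ⋂ M : ℕ, ⋂ _ : M0 ≤ M, {ω : Conf | cntE L (XE L (aE (oPE ω M)) M) = k} := by
    ext ω
    simp only [Set.mem_ofPred_eq, Set.mem_iUnion, Set.mem_iInter]
    obtain ⟨M1, h1⟩ := eventually_atTop.mp (touchE_eventually hL hL2 ω)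
    constructor
    · intro h
      exact ⟨M1, fun M hM => (h1 M hM).trans h⟩
    · rintro ⟨M0, h0⟩
      rw [← h1 (max M0 M1) (le_max_right _ _)]
      exact h0 _ (le_max_left _ _)
  rw [h]
  exact MeasurableSet.iUnion (fun M0 => MeasurableSet.iInter (fun M => MeasurableSet.iInter
    (fun _ => D4.measurable_cnt L M k)))

theorem perc_touchE {L : ℕ} (hL : L % 2 = 0) (hL2 : 2 ≤ L) (k : ℕ) :
    Tendsto (fun M => perc.real {ω | cntE L (XE L (aE (oPE ω M)) M) = k}) atTop
      (𝓝 (perc.real {ω | (touchE L ω).ncard = k})) := by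
  have h := tendsto_measure_of_tendsto_indicator_of_isFiniteMeasure (μ := perc) (L := atTop)
    (As := fun M => {ω | cntE L (XE L (aE (oPE ω M)) M) = k})
    (A := {ω | (touchE L ω).ncard = k}) (fun M => D4.measurable_cnt L M k)
    (fun ω => by
      filter_upwards [touchE_eventually hL hL2 ω] with M hM
      simp only [hM])
  exact (ENNReal.tendsto_toReal (measure_ne_top _ _)).comp h

/-- the exact law -/
theorem exact_lawE {n : ℕ} (hn : 1 ≤ n) (k : ℕ) (hk : k + 1 ≤ n) :
    perc.real {ω | (touchE (2*n) ω).ncard = k} = ws n (k+1) / wt n := by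
  have h1 := perc_touchE (L := 2*n) (by omega) (by omega) k
  have h2 : Tendsto (fun M => ((perc.real
      {ω | cntE (2*n) (XE (2*n) (aE (oPE ω M)) M) = k} : ℝ) : ℂ)) atTop
      (𝓝 ((perc.real {ω | (touchE (2*n) ω).ncard = k} : ℝ) : ℂ)) :=
    (Complex.continuous_ofReal.tendsto _).comp h1
  have h3 : Tendsto (fun M => ((perc.real
      {ω | cntE (2*n) (XE (2*n) (aE (oPE ω M)) M) = k} : ℝ) : ℂ)) atTop
      (𝓝 ((ws n (k+1) / wt n : ℝ) : ℂ)) := by
    simp only [D4.perc_cnt]
    exact JE_law hn k hk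
  exact_mod_cast tendsto_nhds_unique h2 h3

/-- the flat end has `n - 1` inner vertices -/
theorem touchE_le (n : ℕ) (ω : Conf) : (touchE (2*n) ω).ncard ≤ n - 1 := by
  have hsub : touchE (2*n) ω ⊆ ((range (n-1)).image (fun j : ℕ => ((j : ℤ) + 1, -(j : ℤ) - 1)) :
      Finset (ℤ × ℤ)) := by
    rintro ⟨a, b⟩ ⟨h1, h2, h3, _⟩
    simp only at h1 h2 h3
    push_cast at h3
    rw [Finset.mem_coe, Finset.mem_image]
    refine ⟨a.toNat - 1, ?_, ?_⟩
    · rw [mem_range]
      omega
    · refine Prod.ext ?_ ?_ <;> simp only <;> omega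
  refine (Set.ncard_le_ncard hsub (Finset.finite_toSet _)).trans ?_
  rw [Set.ncard_coe_finset]
  exact card_image_le.trans (card_range (n-1)).le

end Pool.Agent.Helper38.EW
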