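import Pool.Agent.Helper38.EW.B4
import Pool.Graph.R_seed8.H980R2.Cont.T20b

/-!
Asymptotics of the product weights.  (Templates: `H980R2.Cont.T20`, `T20b`.)
-/

set_option autoImplicit false

namespace Pool.Agent.Helper38.EW

open Finset Filter Topology Pool.Agent.H980R2.Cont

namespace E1

theorem factor (n i : ℕ) (hi : 1 ≤ i) (hin : i < n) :
    0 ≤ (2 * (2 * (n : ℝ) + 2 * i + 1) * ((n : ℝ) - i)) /
      ((2 * (n : ℝ) - i - 1) * (2 * n + i + 2)) ∧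
    (2 * (2 * (n : ℝ) + 2 * i + 1) * ((n : ℝ) - i)) /
      ((2 * (n : ℝ) - i - 1) * (2 * n + i + 2)) ≤
      Real.exp (-(3 * (i : ℝ) * ((i : ℝ) - 1) / (10 * (n:ℝ) ^ 2))) := by
  have hi' : (1 : ℝ) ≤ i := by exact_mod_cast hi
  have hin' : (i : ℝ) + 1 ≤ n := by exact_mod_cast hin
  have hn1 : (1 : ℝ) ≤ n := by linarith
  have hD1 : 0 < 2*(n:ℝ) - i - 1 := by linarith
  have hD2 : 0 < 2*(n:ℝ) + i + 2 := by linarith
  have hD : 0 < (2*(n:ℝ) - i - 1) * (2*n + i + 2) := mul_pos hD1 hD2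
  refine ⟨by apply div_nonneg _ hD.le; apply mul_nonneg; positivity; linarith, ?_⟩
  have h1 : (2 * (2*(n:ℝ) + 2*i + 1) * ((n:ℝ) - i)) / ((2*(n:ℝ) - i - 1) * (2*n + i + 2)) ≤
      1 - 3 * (i : ℝ) * ((i : ℝ) - 1) / (10 * (n:ℝ) ^ 2) := by
    rw [div_le_iff₀ hD]
    have h2 : 0 ≤ 3 * (i : ℝ) * ((i : ℝ) - 1) := by
      apply mul_nonneg; positivity; linarith
    have h3 : (2*(n:ℝ) - i - 1) * (2*n + i + 2) ≤ 10 * (n:ℝ) ^ 2 := by nlinarith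
    have h4 : 3 * (i : ℝ) * ((i : ℝ) - 1) / (10 * (n:ℝ) ^ 2) * ((2*(n:ℝ) - i - 1) * (2*n + i + 2)) ≤
        3 * (i : ℝ) * ((i : ℝ) - 1) := by
      rw [div_mul_eq_mul_div, div_le_iff₀ (by positivity)]
      exact mul_le_mul_of_nonneg_left h3 h2
    have h5 : (2*(n:ℝ) - i - 1) * (2*n + i + 2) - 2 * (2*(n:ℝ) + 2*i + 1) * ((n:ℝ) - i) =
      3 * (i : ℝ) * ((i : ℝ) - 1) + 2 * ((i : ℝ) - 1) := by ring
    rw [sub_mul, one_mul]
    linarith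
  refine h1.trans ?_
  have := Real.add_one_le_exp (-(3 * (i : ℝ) * ((i : ℝ) - 1) / (10 * (n:ℝ) ^ 2)))
  linarith

/-- the closed form of the sum -/
theorem sum_eq (s : ℕ) (hs : 1 ≤ s) :
    ∑ i ∈ Icc 1 (s-1), (3 * (i:ℝ)^2 - i - 2) = ((s:ℝ) - 1) * ((s:ℝ) + 1) * ((s:ℝ) - 2) := by
  obtain ⟨k, rfl⟩ : ∃ k, s = k + 1 := ⟨s - 1, by omega⟩
  rw [Nat.add_sub_cancel]
  clear hs
  induction k with
  | zero => simp
  | succ k ih =>
    rw [Finset.sum_Icc_succ_top (by omega), ih]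
    push_cast
    ring

/-- two sided bound of the product -/
theorem prod_bd (n s : ℕ) (hs : 1 ≤ s) (hsn : s ≤ n) (D M : ℝ)
    (hD : D = 4 * (n:ℝ)^2 + 2 * n - (s:ℝ)^2 - s) (hD0 : 0 < D)
    (hM : M = 3 * (s:ℝ)^2 / D) (hM2 : M ≤ 1/2) :
    Real.exp (-((1 + 2 * M) * ((((s:ℝ) - 1) * ((s:ℝ) + 1) * ((s:ℝ) - 2)) / D))) ≤
      ∏ i ∈ Icc 1 (s-1),
        (2 * (2*(n:ℝ) + 2*i + 1) * ((n:ℝ) - i)) / ((2*(n:ℝ) - i - 1) * (2*n + i + 2)) ∧
    ∏ i ∈ Icc 1 (s-1),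
        (2 * (2*(n:ℝ) + 2*i + 1) * ((n:ℝ) - i)) / ((2*(n:ℝ) - i - 1) * (2*n + i + 2)) ≤
      Real.exp (-((((s:ℝ) - 1) * ((s:ℝ) + 1) * ((s:ℝ) - 2)) / (4 * (n:ℝ)^2 + 2 * n))) := by
  have hn0 : (0:ℝ) ≤ n := Nat.cast_nonneg _
  have hn1 : (1:ℝ) ≤ n := by exact_mod_cast le_trans hs hsn
  have key : ∀ i ∈ Icc 1 (s-1),
      ∃ x : ℝ, (2 * (2*(n:ℝ) + 2*i + 1) * ((n:ℝ) - i)) / ((2*(n:ℝ) - i - 1) * (2*n + i + 2)) = 1 - x ∧
        (3 * (i:ℝ)^2 - i - 2) / (4 * (n:ℝ)^2 + 2 * n) ≤ x ∧ x ≤ (3 * (i:ℝ)^2 - i - 2) / D ∧ 0 ≤ x ∧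
        x ≤ M := by
    intro i hi
    rw [Finset.mem_Icc] at hi
    have hi1 : (1:ℝ) ≤ i := by exact_mod_cast hi.1
    have his : (i:ℝ) + 1 ≤ s := by
      have : i + 1 ≤ s := by omega
      exact_mod_cast this
    have hden : (2*(n:ℝ) - i - 1) * (2*n + i + 2) = 4 * (n:ℝ)^2 + 2 * n - (i:ℝ)^2 - 3 * i - 2 := by
      ring
    have hDi : D ≤ 4 * (n:ℝ)^2 + 2 * n - (i:ℝ)^2 - 3 * i - 2 := by
      rw [hD]
      nlinarith
    have hDi0 : 0 < 4 * (n:ℝ)^2 + 2 * n - (i:ℝ)^2 - 3 * i - 2 := lt_of_lt_of_le hD0 hDi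
    have hnum : 0 ≤ 3 * (i:ℝ)^2 - i - 2 := by nlinarith
    have hup : (3 * (i:ℝ)^2 - i - 2) / (4 * (n:ℝ)^2 + 2 * n - (i:ℝ)^2 - 3 * i - 2) ≤
        (3 * (i:ℝ)^2 - i - 2) / D := div_le_div_of_nonneg_left hnum hD0 hDi
    refine ⟨(3 * (i:ℝ)^2 - i - 2) / (4 * (n:ℝ)^2 + 2 * n - (i:ℝ)^2 - 3 * i - 2), ?_, ?_, hup,
      div_nonneg hnum hDi0.le, hup.trans ?_⟩
    · rw [hden, eq_sub_iff_add_eq, ← add_div, div_eq_one_iff_eq hDi0.ne']
      ring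
    · apply div_le_div_of_nonneg_left hnum hDi0
      nlinarith
    · rw [hM]
      apply div_le_div_of_nonneg_right _ hD0.le
      nlinarith
  choose! x hx using key
  constructor
  · rw [← sum_eq s hs, Finset.sum_div, Finset.mul_sum, ← Finset.sum_neg_distrib, Real.exp_sum]
    apply Finset.prod_le_prod
    · intro i _
      exact (Real.exp_pos _).le
    · intro i hi
      obtain ⟨h1, h2, h3, h4, h5⟩ := hx i hi
      rw [h1]
      refine le_trans ?_ (t20b_low (x i) M h4 h5 hM2)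
      apply Real.exp_le_exp.2
      have h6 : 0 ≤ 1 + 2 * M := by linarith [h4.trans h5]
      have := mul_le_mul_of_nonneg_left h3 h6
      linarith
  · rw [← sum_eq s hs, Finset.sum_div, ← Finset.sum_neg_distrib, Real.exp_sum]
    apply Finset.prod_le_prod
    · intro i hi
      obtain ⟨h1, h2, h3, h4, h5⟩ := hx i hi
      rw [h1]
      linarith
    · intro i hi
      obtain ⟨h1, h2, h3, h4, h5⟩ := hx i hi
      rw [h1]
      have := Real.add_one_le_exp (-(x i))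
      refine le_trans (by linarith : 1 - x i ≤ Real.exp (-(x i))) ?_
      apply Real.exp_le_exp.2
      linarith

end E1

theorem ws_le : ∃ c C : ℝ, 0 < c ∧ 0 < C ∧ ∀ n s : ℕ, 1 ≤ n → s ≤ n →
    ws n s ≤ C * (s:ℝ) * Real.exp (-(c * (s:ℝ)^3 / (n:ℝ)^2)) := by
  refine ⟨1 / 10, Real.exp (3 / 10), by norm_num, by positivity, ?_⟩
  intro n s hn hs
  rcases Nat.eq_zero_or_pos s with rfl | hs0
  · simp [ws]
  obtain ⟨k, rfl⟩ : ∃ k, s = k + 1 := ⟨s - 1, by omega⟩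
  have hn' : (0 : ℝ) < n := by exact_mod_cast hn
  have hprod : ∏ i ∈ Icc 1 k,
      (2 * (2*(n:ℝ) + 2*i + 1) * ((n:ℝ) - i)) / ((2*(n:ℝ) - i - 1) * (2*n + i + 2)) ≤
      Real.exp (-((((k : ℝ) + 1) * k * (k - 1)) / (10 * (n:ℝ) ^ 2))) := by
    rw [← T20_sum, Finset.sum_div, ← Finset.sum_neg_distrib, Real.exp_sum]
    apply Finset.prod_le_prod
    · intro i hi
      rw [Finset.mem_Icc] at hi
      exact (E1.factor n i hi.1 (by omega)).1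
    · intro i hi
      rw [Finset.mem_Icc] at hi
      exact (E1.factor n i hi.1 (by omega)).2
  have hk : (k : ℝ) + 1 ≤ n := by exact_mod_cast hs
  have hk0 : (0 : ℝ) ≤ k := Nat.cast_nonneg k
  unfold ws
  rw [Nat.add_sub_cancel]
  push_cast
  have h2 : Real.exp (-((((k : ℝ) + 1) * k * (k - 1)) / (10 * (n:ℝ) ^ 2))) ≤
      Real.exp (3 / 10) * Real.exp (-(1 / 10 * ((k : ℝ) + 1) ^ 3 / (n:ℝ) ^ 2)) := by
    rw [← Real.exp_add]
    apply Real.exp_le_exp.mpr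
    have e : -((((k : ℝ) + 1) * k * (k - 1)) / (10 * (n:ℝ) ^ 2)) =
        -(1 / 10 * ((k : ℝ) + 1) ^ 3 / (n:ℝ) ^ 2) + (3 * ((k:ℝ) + 1) ^ 2 - 2 * ((k : ℝ) + 1)) / (10 * (n : ℝ) ^ 2) := by
      field_simp
      ring
    rw [e]
    have h3 : (3 * ((k:ℝ) + 1) ^ 2 - 2 * ((k : ℝ) + 1)) / (10 * (n : ℝ) ^ 2) ≤ 3 / 10 := by
      rw [div_le_iff₀ (by positivity)]
      have : ((k : ℝ) + 1) ^ 2 ≤ (n : ℝ) ^ 2 := pow_le_pow_left₀ (by positivity) hk 2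
      nlinarith
    linarith
  calc ((k : ℝ) + 1) * ∏ i ∈ Icc 1 k,
      (2 * (2*(n:ℝ) + 2*i + 1) * ((n:ℝ) - i)) / ((2*(n:ℝ) - i - 1) * (2*n + i + 2))
      ≤ ((k : ℝ) + 1) * Real.exp (-((((k : ℝ) + 1) * k * (k - 1)) / (10 * (n:ℝ) ^ 2))) :=
        mul_le_mul_of_nonneg_left hprod (by positivity)
    _ ≤ ((k : ℝ) + 1) * (Real.exp (3 / 10) * Real.exp (-(1 / 10 * ((k : ℝ) + 1) ^ 3 / (n:ℝ) ^ 2))) :=
        mul_le_mul_of_nonneg_left h2 (by positivity)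
    _ = Real.exp (3 / 10) * ((k : ℝ) + 1) * Real.exp (-(1 / 10 * ((k : ℝ) + 1) ^ 3 / (n:ℝ) ^ 2)) := by ring

theorem ws_tendsto (y : ℝ) (hy : 0 < y) (s : ℕ → ℕ)
    (hs : Tendsto (fun n : ℕ => (s n : ℝ) / (2*(n:ℝ))^((2:ℝ)/3)) atTop (𝓝 y)) :
    Tendsto (fun n : ℕ => ws n (s n) / (2*(n:ℝ))^((2:ℝ)/3)) atTop
      (𝓝 (y * Real.exp (-y^3))) := by
  obtain ⟨a, ha⟩ : ∃ a : ℕ → ℝ, ∀ n, a n = 2*(n:ℝ) := ⟨fun n => 2*(n:ℝ), fun _ => rfl⟩
  obtain ⟨m, hm⟩ : ∃ m : ℕ → ℝ, ∀ n, m n = (a n)^((2:ℝ)/3) := ⟨_, fun _ => rfl⟩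
  have ha0 : ∀ n, 0 ≤ a n := fun n => by rw [ha]; positivity
  have ha1 : ∀ᶠ n in atTop, 0 < a n := by
    filter_upwards [eventually_ge_atTop 1] with n hn
    rw [ha]
    have : (0:ℝ) < n := by exact_mod_cast hn
    positivity
  have hm1 : ∀ᶠ n in atTop, 0 < m n := by
    filter_upwards [ha1] with n hn
    rw [hm]; exact Real.rpow_pos_of_pos hn _
  have hm3 : ∀ n, m n ^ 3 = a n ^ 2 := fun n => by
    rw [hm, ← Real.rpow_natCast, ← Real.rpow_mul (ha0 n), ← Real.rpow_natCast]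
    norm_num
  have hat : Tendsto a atTop atTop := by
    have : a = fun n : ℕ => 2*(n:ℝ) := funext ha
    rw [this]
    exact tendsto_natCast_atTop_atTop.const_mul_atTop two_pos
  have hmt : Tendsto m atTop atTop := by
    have : m = fun n : ℕ => (a n)^((2:ℝ)/3) := funext hm
    rw [this]
    exact (tendsto_rpow_atTop (by norm_num)).comp hat
  have hu : Tendsto (fun n => 1 / m n) atTop (𝓝 0) := by
    simp only [one_div]
    exact tendsto_inv_atTop_zero.comp hmt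
  have hv : Tendsto (fun n => 1 / a n) atTop (𝓝 0) := by
    simp only [one_div]
    exact tendsto_inv_atTop_zero.comp hat
  have hσ : Tendsto (fun n => (s n : ℝ) / m n) atTop (𝓝 y) := by
    refine hs.congr fun n => ?_
    rw [hm, ha]
  have htriple : Tendsto (fun n => ((s n : ℝ) / m n, 1 / m n, 1 / a n)) atTop (𝓝 (y, 0, 0)) :=
    hσ.prodMk_nhds (hu.prodMk_nhds hv)
  obtain ⟨G, hG⟩ : ∃ G : ℝ × ℝ × ℝ → ℝ, ∀ p, G p =
      1 + p.2.2 - p.1 ^ 2 * p.2.1 - p.1 * p.2.1 ^ 2 := ⟨_, fun _ => rfl⟩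
  have hGc : ContinuousAt G (y, 0, 0) := by
    have : G = fun p => 1 + p.2.2 - p.1 ^ 2 * p.2.1 - p.1 * p.2.1 ^ 2 :=
      funext hG
    rw [this]
    fun_prop
  have hG1 : G (y, 0, 0) = 1 := by rw [hG]; simp
  have hGt : Tendsto (fun n => G ((s n : ℝ) / m n, 1 / m n, 1 / a n)) atTop (𝓝 1) := by
    have := hGc.tendsto.comp htriple
    rw [hG1] at this
    exact this
  -- the three limits
  have hnt : Tendsto (fun n => ((s n : ℝ) / m n - 1 / m n) * ((s n : ℝ) / m n + 1 / m n) *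
      ((s n : ℝ) / m n - 2 * (1 / m n))) atTop (𝓝 (y ^ 3)) := by
    have := ((hσ.sub hu).mul (hσ.add hu)).mul (hσ.sub (hu.const_mul 2))
    have e : (y - 0) * (y + 0) * (y - 2 * 0) = y ^ 3 := by ring
    rw [e] at this
    exact this
  have hMt : Tendsto (fun n => (3 * ((s n : ℝ) / m n) ^ 2 * (1 / m n)) /
      G ((s n : ℝ) / m n, 1 / m n, 1 / a n)) atTop (𝓝 0) := by
    have := ((((hσ.pow 2).const_mul 3).mul hu)).div hGt one_ne_zero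
    have e : (3 * y ^ 2 * 0) / 1 = 0 := by ring
    rw [e] at this
    exact this
  have hTt : Tendsto (fun n => ((s n : ℝ) / m n - 1 / m n) * ((s n : ℝ) / m n + 1 / m n) *
      ((s n : ℝ) / m n - 2 * (1 / m n)) /
      G ((s n : ℝ) / m n, 1 / m n, 1 / a n)) atTop (𝓝 (y ^ 3)) := by
    have := hnt.div hGt one_ne_zero
    rwa [div_one] at this
  have hBt : Tendsto (fun n => ((s n : ℝ) / m n - 1 / m n) * ((s n : ℝ) / m n + 1 / m n) *
      ((s n : ℝ) / m n - 2 * (1 / m n)) /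
      (1 + 1 / a n)) atTop (𝓝 (y ^ 3)) := by
    have h1 : Tendsto (fun n => 1 + 1 / a n) atTop (𝓝 1) := by
      have := hv.const_add 1
      rw [add_zero] at this
      exact this
    have := hnt.div h1 one_ne_zero
    rwa [div_one] at this
  -- the identities
  have idD : ∀ n : ℕ, 0 < a n → 0 < m n → 4 * (n:ℝ)^2 + 2 * n - (s n:ℝ)^2 - s n =
      a n ^ 2 * G ((s n : ℝ) / m n, 1 / m n, 1 / a n) := by
    intro n ha0 hm0
    rw [hG]
    have e1 : a n ^ 2 * (((s n : ℝ) / m n) ^ 2 * (1 / m n)) = (s n : ℝ) ^ 2 := by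
      rw [← hm3]
      field_simp
    have e2 : a n ^ 2 * (((s n : ℝ) / m n) * (1 / m n) ^ 2) = (s n : ℝ) := by
      rw [← hm3]
      field_simp
    have e3 : a n ^ 2 * (1 / a n) = a n := by
      field_simp
    have e5 : (n : ℝ) = a n / 2 := by rw [ha]; ring
    show _ = a n ^ 2 * (1 + 1 / a n - ((s n : ℝ) / m n) ^ 2 * (1 / m n) -
      ((s n : ℝ) / m n) * (1 / m n) ^ 2)
    rw [e5]
    linear_combination e1 + e2 - e3
  have idB : ∀ n : ℕ, 0 < a n → 4 * (n:ℝ)^2 + 2 * n = a n ^ 2 * (1 + 1 / a n) := by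
    intro n ha0
    have e3 : a n ^ 2 * (1 / a n) = a n := by
      field_simp
    have e5 : (n : ℝ) = a n / 2 := by rw [ha]; ring
    rw [e5]
    linear_combination (-1) * e3
  have idN : ∀ n : ℕ, 0 < m n → ((s n:ℝ) - 1) * ((s n:ℝ) + 1) * ((s n:ℝ) - 2) =
      a n ^ 2 * (((s n : ℝ) / m n - 1 / m n) * ((s n : ℝ) / m n + 1 / m n) *
      ((s n : ℝ) / m n - 2 * (1 / m n))) := by
    intro n hm0
    rw [← hm3]
    field_simp
  have idM : ∀ n : ℕ, 0 < m n → 3 * (s n:ℝ)^2 =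
      a n ^ 2 * (3 * ((s n : ℝ) / m n) ^ 2 * (1 / m n)) := by
    intro n hm0
    rw [← hm3]
    field_simp
  -- eventual conditions
  have ev1 : ∀ᶠ n in atTop, (1:ℝ)/2 < G ((s n : ℝ) / m n, 1 / m n, 1 / a n) :=
    hGt.eventually (lt_mem_nhds (by norm_num))
  have ev2 : ∀ᶠ n in atTop, (3 * ((s n : ℝ) / m n) ^ 2 * (1 / m n)) /
      G ((s n : ℝ) / m n, 1 / m n, 1 / a n) < 1/2 :=
    hMt.eventually (gt_mem_nhds (by norm_num))
  have ev3 : ∀ᶠ n in atTop, y / 2 < (s n : ℝ) / m n := hσ.eventually (lt_mem_nhds (by linarith))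
  have ev4 : ∀ᶠ n in atTop, 2 / y ≤ m n := hmt.eventually_ge_atTop _
  have ev5 : ∀ᶠ n in atTop, s n ≤ n := by
    have h1 : Tendsto (fun n => ((s n : ℝ) / m n) ^ 2 * (1 / m n)) atTop (𝓝 0) := by
      have := (hσ.pow 2).mul hu
      simpa using this
    have h2 : ∀ᶠ n in atTop, ((s n : ℝ) / m n) ^ 2 * (1 / m n) < 1 / 16 :=
      h1.eventually (gt_mem_nhds (by norm_num))
    filter_upwards [h2, eventually_ge_atTop 1, hm1] with n hn hn1 hm0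
    have e1 : a n ^ 2 * (((s n : ℝ) / m n) ^ 2 * (1 / m n)) = (s n : ℝ) ^ 2 := by
      rw [← hm3]
      field_simp
    have h3 : (s n : ℝ) ^ 2 ≤ (a n / 4) ^ 2 := by
      rw [← e1]
      have := mul_le_mul_of_nonneg_left hn.le (sq_nonneg (a n))
      calc _ ≤ a n ^ 2 * (1 / 16) := this
        _ = (a n / 4) ^ 2 := by ring
    have h4 : (s n : ℝ) ≤ a n / 4 := by
      exact (pow_le_pow_iff_left₀ (Nat.cast_nonneg _) (by linarith [ha0 n]) two_ne_zero).1 h3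
    have h5 : (1:ℝ) ≤ n := by exact_mod_cast hn1
    have h6 : (s n : ℝ) ≤ n := by rw [ha] at h4; linarith
    exact_mod_cast h6
  -- the product
  have hP : Tendsto (fun n : ℕ => ∏ i ∈ Icc 1 (s n-1),
        (2 * (2*(n:ℝ) + 2*i + 1) * ((n:ℝ) - i)) / ((2*(n:ℝ) - i - 1) * (2*n + i + 2))) atTop
      (𝓝 (Real.exp (-y^3))) := by
    have lo : Tendsto (fun n => Real.exp (-((1 + 2 * ((3 * ((s n : ℝ) / m n) ^ 2 * (1 / m n)) /
        G ((s n : ℝ) / m n, 1 / m n, 1 / a n))) *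
        (((s n : ℝ) / m n - 1 / m n) * ((s n : ℝ) / m n + 1 / m n) *
      ((s n : ℝ) / m n - 2 * (1 / m n)) /
      G ((s n : ℝ) / m n, 1 / m n, 1 / a n))))) atTop (𝓝 (Real.exp (-y^3))) := by
      have h1 := (((hMt.const_mul 2).const_add 1).mul hTt).neg
      have h2 := (Real.continuous_exp.tendsto _).comp h1
      have e : -((1 + 2 * 0) * y ^ 3) = - y ^ 3 := by ring
      rw [e] at h2
      exact h2
    have hi : Tendsto (fun n => Real.exp (-(((s n : ℝ) / m n - 1 / m n) * ((s n : ℝ) / m n + 1 / m n) *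
      ((s n : ℝ) / m n - 2 * (1 / m n)) / (1 + 1 / a n)))) atTop (𝓝 (Real.exp (-y^3))) :=
      (Real.continuous_exp.tendsto _).comp hBt.neg
    have hbd : ∀ᶠ n in atTop, (Real.exp (-((1 + 2 * ((3 * ((s n : ℝ) / m n) ^ 2 * (1 / m n)) /
        G ((s n : ℝ) / m n, 1 / m n, 1 / a n))) *
        (((s n : ℝ) / m n - 1 / m n) * ((s n : ℝ) / m n + 1 / m n) *
      ((s n : ℝ) / m n - 2 * (1 / m n)) /
      G ((s n : ℝ) / m n, 1 / m n, 1 / a n)))) ≤ ∏ i ∈ Icc 1 (s n-1),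
        (2 * (2*(n:ℝ) + 2*i + 1) * ((n:ℝ) - i)) / ((2*(n:ℝ) - i - 1) * (2*n + i + 2))) ∧
        (∏ i ∈ Icc 1 (s n-1),
        (2 * (2*(n:ℝ) + 2*i + 1) * ((n:ℝ) - i)) / ((2*(n:ℝ) - i - 1) * (2*n + i + 2)) ≤
        Real.exp (-(((s n : ℝ) / m n - 1 / m n) * ((s n : ℝ) / m n + 1 / m n) *
      ((s n : ℝ) / m n - 2 * (1 / m n)) / (1 + 1 / a n)))) := by
      filter_upwards [ev1, ev2, ev3, ev4, ev5, ha1, hm1] with n h1 h2 h3 h4 h5 ha0 hm0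
      have hs1 : 1 ≤ s n := by
        have h6 : (y / 2) * m n < s n := by
          rwa [lt_div_iff₀ hm0] at h3
        have h7 : 1 ≤ (y / 2) * m n := by
          have h8 := mul_le_mul_of_nonneg_left h4 (by positivity : 0 ≤ y / 2)
          calc 1 = (y / 2) * (2 / y) := by field_simp
            _ ≤ _ := h8
        have h9 : (0:ℝ) < s n := by linarith
        exact_mod_cast h9
      have ha2 : a n ^ 2 ≠ 0 := pow_ne_zero 2 ha0.ne'
      have e1 : (3 * ((s n : ℝ) / m n) ^ 2 * (1 / m n)) / G ((s n : ℝ) / m n, 1 / m n, 1 / a n) =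
          (3 * (s n:ℝ)^2) / (4 * (n:ℝ)^2 + 2 * n - (s n:ℝ)^2 - s n) := by
        rw [idD n ha0 hm0, idM n hm0, mul_div_mul_left _ _ ha2]
      have e2 : ((s n : ℝ) / m n - 1 / m n) * ((s n : ℝ) / m n + 1 / m n) *
          ((s n : ℝ) / m n - 2 * (1 / m n)) /
          G ((s n : ℝ) / m n, 1 / m n, 1 / a n) = ((s n:ℝ) - 1) * ((s n:ℝ) + 1) * ((s n:ℝ) - 2) /
          (4 * (n:ℝ)^2 + 2 * n - (s n:ℝ)^2 - s n) := by
        rw [idD n ha0 hm0, idN n hm0, mul_div_mul_left _ _ ha2]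
      have e3 : ((s n : ℝ) / m n - 1 / m n) * ((s n : ℝ) / m n + 1 / m n) *
          ((s n : ℝ) / m n - 2 * (1 / m n)) /
          (1 + 1 / a n) = ((s n:ℝ) - 1) * ((s n:ℝ) + 1) * ((s n:ℝ) - 2) /
          (4 * (n:ℝ)^2 + 2 * n) := by
        rw [idB n ha0, idN n hm0, mul_div_mul_left _ _ ha2]
      have hDpos : 0 < 4 * (n:ℝ)^2 + 2 * n - (s n:ℝ)^2 - s n := by
        rw [idD n ha0 hm0]
        positivity
      have hM2 : (3 * (s n:ℝ)^2) / (4 * (n:ℝ)^2 + 2 * n - (s n:ℝ)^2 - s n) ≤ 1/2 := by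
        rw [← e1]
        exact h2.le
      rw [e1, e2, e3]
      exact E1.prod_bd n (s n) hs1 h5 _ _ rfl hDpos rfl hM2
    exact tendsto_of_tendsto_of_tendsto_of_le_of_le' lo hi (hbd.mono fun _ h => h.1)
      (hbd.mono fun _ h => h.2)
  have hfin := hσ.mul hP
  refine hfin.congr fun n => ?_
  have e : (2*(n:ℝ))^((2:ℝ)/3) = m n := by rw [hm, ha]
  rw [e]
  unfold ws
  rw [mul_div_right_comm]

end Pool.Agent.Helper38.EW
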