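import Pool.Agent.Helper38.EW.E1
import Pool.Agent.Helper38.EW.D4
import Pool.Graph.R_seed8.H980R2.Cont.T21

/-!
The scaling limit of the law.  (Templates: `H980R2.Cont.T22`, `Mom`.)
-/

set_option autoImplicit false

namespace Pool.Agent.Helper38.EW

open Pool.Agent.H988R2.Perc hiding X
open Pool.Agent.H980R2.Cross Pool.Agent.H980R2.Cont Finset Filter Topology MeasureTheory Set

/-- weight of `j` joined inner end vertices -/
noncomputable def av (n j : ℕ) : ℝ := if j + 1 ≤ n then ws n (j+1) else 0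

/-- the scale -/
noncomputable def rr (n : ℕ) : ℝ := (2*(n:ℝ))^((2:ℝ)/3)

namespace E2

theorem av_nonneg (n j : ℕ) : 0 ≤ av n j := by
  unfold av
  split_ifs with h
  · exact (ws_pos (by omega) h).le
  · exact le_rfl

theorem av_zero (n j : ℕ) (h : n ≤ j) : av n j = 0 := by
  unfold av
  rw [if_neg (by omega)]

theorem rr_tend : Tendsto rr atTop atTop := by
  refine (tendsto_rpow_atTop (by norm_num : (0:ℝ) < 2/3)).comp ?_
  exact tendsto_natCast_atTop_atTop.const_mul_atTop (by norm_num)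

theorem rr_nonneg (n : ℕ) : 0 ≤ rr n := Real.rpow_nonneg (by positivity) _

theorem rr_one {n : ℕ} (hn : 1 ≤ n) : 1 ≤ rr n := by
  apply Real.one_le_rpow
  · have : (1:ℝ) ≤ n := by exact_mod_cast hn
    linarith
  · norm_num

theorem rr_cube (n : ℕ) : rr n ^ 3 = (2*(n:ℝ))^2 := by
  have h0 : (0:ℝ) ≤ 2*(n:ℝ) := by positivity
  unfold rr
  rw [← Real.rpow_natCast, ← Real.rpow_mul h0]
  norm_num

theorem exp_int (m : ℕ) {b : ℝ} (hb : 0 < b) :
    IntegrableOn (fun y : ℝ => y^m * Real.exp (-(b * y^3))) (Ioi 0) := by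
  have h := integrableOn_rpow_mul_exp_neg_mul_rpow (p := 3) (s := m) (b := b)
    (by have : (0:ℝ) ≤ m := Nat.cast_nonneg m
        linarith)
    (by norm_num) hb
  refine h.congr_fun (fun y hy => ?_) measurableSet_Ioi
  simp only [Real.rpow_natCast]
  congr 2
  rw [show (3:ℝ) = ((3:ℕ):ℝ) by norm_num, Real.rpow_natCast]
  ring

theorem int_val (m : ℕ) : ∫ y in Ioi (0:ℝ), y^m * (y * Real.exp (-y^3)) =
    Real.Gamma (((m:ℝ)+2)/3) / 3 := by
  have h := integral_rpow_mul_exp_neg_rpow (p := 3) (q := m + 1) (by norm_num)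
    (by have : (0:ℝ) ≤ m := Nat.cast_nonneg m
        linarith)
  have h2 : ∫ y in Ioi (0:ℝ), y^m * (y * Real.exp (-y^3)) =
      (∫ y in Ioi (0:ℝ), y^((m:ℝ)+1) * Real.exp (-y^(3:ℝ))) := by
    refine setIntegral_congr_fun measurableSet_Ioi fun y hy => ?_
    show y^m * (y * Real.exp (-y^3)) = y^((m:ℝ)+1) * Real.exp (-y^(3:ℝ))
    rw [show (3:ℝ) = ((3:ℕ):ℝ) by norm_num, show (m:ℝ)+1 = ((m+1:ℕ):ℝ) by push_cast; ring,
      Real.rpow_natCast, Real.rpow_natCast]
    ring
  rw [h2, h]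
  rw [show ((m:ℝ) + 1 + 1) = (m:ℝ) + 2 by ring]
  ring

theorem floor_div (y : ℝ) (hy : 0 < y) : Tendsto (fun n : ℕ =>
    ((⌊y * rr n⌋₊ : ℕ) : ℝ) / rr n) atTop (𝓝 y) :=
  (tendsto_nat_floor_mul_div_atTop hy.le).comp rr_tend

theorem inv_tend : Tendsto (fun n : ℕ => 1 / rr n) atTop (𝓝 0) := by
  simp only [one_div]
  exact tendsto_inv_atTop_zero.comp rr_tend

theorem le_ev (y : ℝ) (hy : 0 < y) : ∀ᶠ n : ℕ in atTop, ⌊y * rr n⌋₊ + 1 ≤ n := by
  have h1 : Tendsto (fun n : ℕ => (((⌊y * rr n⌋₊ : ℕ) : ℝ) / rr n + 1 / rr n) ^ 2 * (1 / rr n)) atTop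
      (𝓝 0) := by
    have := (((floor_div y hy).add inv_tend).pow 2).mul inv_tend
    simpa using this
  have h2 : ∀ᶠ n : ℕ in atTop, (((⌊y * rr n⌋₊ : ℕ) : ℝ) / rr n + 1 / rr n) ^ 2 * (1 / rr n) < 1 / 4 :=
    h1.eventually (gt_mem_nhds (by norm_num))
  filter_upwards [h2, eventually_ge_atTop 1] with n hn hn1
  have hr : 0 < rr n := lt_of_lt_of_le one_pos (rr_one hn1)
  have e1 : (2*(n:ℝ))^2 * ((((⌊y * rr n⌋₊ : ℕ) : ℝ) / rr n + 1 / rr n) ^ 2 * (1 / rr n)) =
      (((⌊y * rr n⌋₊ : ℕ) : ℝ) + 1) ^ 2 := by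
    rw [← rr_cube]
    field_simp
  have hn0 : (0:ℝ) < n := by exact_mod_cast hn1
  have h3 : (((⌊y * rr n⌋₊ : ℕ) : ℝ) + 1) ^ 2 ≤ (n : ℝ) ^ 2 := by
    rw [← e1]
    have := mul_le_mul_of_nonneg_left hn.le (sq_nonneg (2*(n:ℝ)))
    calc _ ≤ (2*(n:ℝ)) ^ 2 * (1 / 4) := this
      _ = (n : ℝ) ^ 2 := by ring
  have h4 : (((⌊y * rr n⌋₊ : ℕ) : ℝ) + 1) ≤ n :=
    (pow_le_pow_iff_left₀ (by positivity) hn0.le two_ne_zero).1 h3
  exact_mod_cast h4

theorem point (y : ℝ) (hy : 0 < y) :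
    Tendsto (fun n : ℕ => av n ⌊y * rr n⌋₊ / rr n) atTop (𝓝 (y * Real.exp (-y^3))) := by
  have h1 : Tendsto (fun n : ℕ => (((⌊y * rr n⌋₊ + 1 : ℕ)) : ℝ) / (2*(n:ℝ))^((2:ℝ)/3)) atTop (𝓝 y) := by
    have := (floor_div y hy).add inv_tend
    rw [add_zero] at this
    refine this.congr fun n => ?_
    push_cast
    rw [← add_div]
    rfl
  refine (ws_tendsto y hy (fun n => ⌊y * rr n⌋₊ + 1) h1).congr' ?_
  filter_upwards [le_ev y hy] with n hn
  unfold av
  rw [if_pos hn]
  rfl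

theorem dom (m : ℕ) : ∃ h : ℝ → ℝ, IntegrableOn h (Ioi 0) ∧
    ∀ᶠ n : ℕ in atTop, ∀ y : ℝ, 0 < y →
      ((⌊y * rr n⌋₊ : ℕ) : ℝ)^m * av n ⌊y * rr n⌋₊ / (rr n ^ m * rr n) ≤ h y := by
  obtain ⟨c, C, hc, hC, hle⟩ := ws_le
  refine ⟨fun y => C * (y^(m+1) * Real.exp (-(c * y^3))) + C * (y^m * Real.exp (-(c * y^3))),
    ((exp_int (m+1) hc).const_mul _).add ((exp_int m hc).const_mul _), ?_⟩
  filter_upwards [eventually_ge_atTop 1] with n hn y hy
  have hn1 : (1:ℝ) ≤ n := by exact_mod_cast hn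
  have hr1 : 1 ≤ rr n := rr_one hn
  have hr3 := rr_cube n
  obtain ⟨r, hr⟩ : ∃ r, r = rr n := ⟨_, rfl⟩
  rw [← hr] at hr1 hr3 ⊢
  obtain ⟨k, hk⟩ : ∃ k : ℕ, k = ⌊y * r⌋₊ := ⟨_, rfl⟩
  rw [← hk]
  have hr0 : 0 < r := by linarith
  have hkr : (k:ℝ) ≤ y * r := by rw [hk]; exact Nat.floor_le (by positivity)
  have hkr2 : y * r < (k:ℝ) + 1 := by rw [hk]; exact Nat.lt_floor_add_one _
  have hexp : c * y^3 ≤ c * ((k:ℝ)+1)^3 / (n:ℝ)^2 := by
    rw [le_div_iff₀ (by positivity)]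
    have h1 : (y * r)^3 ≤ ((k:ℝ)+1)^3 := pow_le_pow_left₀ (by positivity) hkr2.le 3
    rw [mul_pow, hr3] at h1
    have h2 : y^3 * (n:ℝ)^2 ≤ ((k:ℝ)+1)^3 := by
      have : 0 ≤ y^3 * (n:ℝ)^2 := by positivity
      nlinarith
    calc c * y^3 * (n:ℝ)^2 = c * (y^3 * (n:ℝ)^2) := by ring
      _ ≤ c * ((k:ℝ)+1)^3 := mul_le_mul_of_nonneg_left h2 hc.le
  have h8 : av n k ≤ C * ((k:ℝ)+1) * Real.exp (-(c * y^3)) := by
    unfold av
    split_ifs with h
    · refine (hle n (k+1) hn h).trans ?_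
      push_cast
      apply mul_le_mul_of_nonneg_left _ (by positivity)
      apply Real.exp_le_exp.2
      linarith
    · positivity
  have h11 : (k:ℝ)^m ≤ (y*r)^m := pow_le_pow_left₀ (Nat.cast_nonneg k) hkr m
  rw [div_le_iff₀ (by positivity)]
  have h12 : (k:ℝ) + 1 ≤ (y + 1) * r := by nlinarith
  calc (k:ℝ)^m * av n k
      ≤ (y*r)^m * (C * ((y+1)*r) * Real.exp (-(c * y^3))) := by
        apply mul_le_mul h11 _ (av_nonneg n k) (by positivity)
        refine h8.trans ?_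
        apply mul_le_mul_of_nonneg_right _ (Real.exp_pos _).le
        exact mul_le_mul_of_nonneg_left h12 hC.le
    _ = (C * (y^(m+1) * Real.exp (-(c * y^3))) + C * (y^m * Real.exp (-(c * y^3)))) *
          (r^m * r) := by
        rw [mul_pow]; ring

theorem riem (m : ℕ) (x : ℝ) (hx : 0 ≤ x) :
    Tendsto (fun n : ℕ => (∑ᶠ j ∈ {j : ℕ | ⌊x * rr n⌋₊ ≤ j}, (j:ℝ)^m * av n j) /
      (rr n * (rr n ^ m * rr n))) atTop
      (𝓝 (∫ y in Ioi x, y^m * (y * Real.exp (-y^3)))) := by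
  obtain ⟨h, hint, hdom⟩ := dom m
  refine riemann (fun n j => (j:ℝ)^m * av n j) rr (fun n => rr n ^ m * rr n)
    (fun y => y^m * (y * Real.exp (-y^3))) h rr_tend ?_ ?_ ?_ ?_ hint hdom x hx
  · filter_upwards [eventually_ge_atTop 1] with n hn
    have := rr_one hn
    positivity
  · intro n k
    exact mul_nonneg (by positivity) (av_nonneg n k)
  · intro n
    refine (Finset.finite_toSet (Finset.range (n+1))).subset ?_
    intro k hk
    rw [Function.mem_support] at hk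
    rw [Finset.mem_coe, Finset.mem_range]
    by_contra hlt
    apply hk
    show (k:ℝ)^m * av n k = 0
    rw [av_zero n k (by omega), mul_zero]
  · intro y hy
    have h1 := (floor_div y hy).pow m
    have h2 := h1.mul (point y hy)
    refine h2.congr fun n => ?_
    rw [div_pow, div_mul_div_comm]

theorem fsum (m n f : ℕ) : ∑ᶠ j ∈ {j : ℕ | f ≤ j}, (j:ℝ)^m * av n j
    = ∑ j ∈ (Finset.range n).filter (fun j => f ≤ j), (j:ℝ)^m * av n j := by
  apply finsum_mem_eq_sum_of_subset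
  · intro k hk
    rw [Finset.mem_coe, Finset.mem_filter, Finset.mem_range]
    refine ⟨?_, hk.1⟩
    by_contra hlt
    apply hk.2
    show (k:ℝ)^m * av n k = 0
    rw [av_zero n k (by omega), mul_zero]
  · intro k hk
    rw [Finset.mem_coe, Finset.mem_filter] at hk
    exact hk.2

theorem wt_eq (n : ℕ) : wt n = ∑ j ∈ Finset.range n, av n j := by
  unfold wt
  rw [Finset.sum_range_succ', ws_zero, add_zero]
  refine Finset.sum_congr rfl fun j hj => ?_
  have := Finset.mem_range.1 hj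
  unfold av
  rw [if_pos (by omega)]

theorem split (n f : ℕ) : ∑ k ∈ (Finset.range n).filter (fun k => k ≤ f), av n k
    = wt n - ∑ k ∈ (Finset.range n).filter (fun k => f ≤ k), av n k + av n f := by
  have h1 : ∑ k ∈ Finset.range n, (if k = f then av n k else 0) = av n f := by
    by_cases h : f ∈ Finset.range n
    · rw [Finset.sum_ite_eq' _ f (fun k => av n k), if_pos h]
    · rw [Finset.sum_ite_eq' _ f (fun k => av n k), if_neg h, av_zero n f (by
        rw [Finset.mem_range] at h; omega)]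
  rw [← h1, wt_eq]
  rw [Finset.sum_filter, Finset.sum_filter, ← Finset.sum_sub_distrib, ← Finset.sum_add_distrib]
  refine Finset.sum_congr rfl fun k _ => ?_
  rcases lt_trichotomy k f with h | h | h
  · rw [if_pos h.le, if_neg (by omega), if_neg (by omega)]; ring
  · rw [if_pos h.le, if_pos h.ge, if_pos h]; ring
  · rw [if_neg (by omega), if_pos h.le, if_neg (by omega)]; ring

theorem riem2 (x : ℝ) (hx : 0 ≤ x) :
    Tendsto (fun n : ℕ => (∑ k ∈ (Finset.range n).filter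
      (fun k => ⌊x * rr n⌋₊ ≤ k), av n k) / (rr n * rr n)) atTop
      (𝓝 (∫ y in Ioi x, y * Real.exp (-y^3))) := by
  have h := riem 0 x hx
  simp only [pow_zero, one_mul] at h
  refine h.congr fun n => ?_
  have := fsum 0 n ⌊x * rr n⌋₊
  simp only [pow_zero, one_mul] at this
  rw [this]

theorem riem0 :
    Tendsto (fun n : ℕ => wt n / (rr n * rr n)) atTop (𝓝 (Real.Gamma (2/3) / 3)) := by
  have h := riem2 0 le_rfl
  have e : ∫ y in Ioi (0:ℝ), y * Real.exp (-y^3) = Real.Gamma (2/3) / 3 := by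
    have := int_val 0
    simp only [pow_zero, one_mul, Nat.cast_zero, zero_add] at this
    exact this
  rw [e] at h
  refine h.congr fun n => ?_
  rw [wt_eq]
  simp only [zero_mul, Nat.floor_zero, Nat.zero_le, Finset.filter_true]

theorem riemm (m : ℕ) :
    Tendsto (fun n : ℕ => (∑ j ∈ Finset.range n, (j:ℝ)^m * av n j) / (rr n * (rr n ^ m * rr n)))
      atTop (𝓝 (Real.Gamma (((m:ℝ)+2)/3) / 3)) := by
  have h := riem m 0 le_rfl
  rw [int_val] at h
  refine h.congr fun n => ?_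
  rw [fsum]
  simp only [zero_mul, Nat.floor_zero, Nat.zero_le, Finset.filter_true]

theorem int_split (t : ℝ) (ht : 0 ≤ t) : (∫ y in Ioi (0:ℝ), y * Real.exp (-y^3))
    - (∫ y in Ioi t, y * Real.exp (-y^3)) = ∫ x in (0:ℝ)..t, x * Real.exp (-x^3) := by
  have hi : IntegrableOn (fun y : ℝ => y * Real.exp (-y^3)) (Ioi 0) := by
    have h := exp_int 1 (b := 1) one_pos
    simp only [one_mul, pow_one] at h
    exact h
  rw [intervalIntegral.integral_of_le ht, ← Ioc_union_Ioi_eq_Ioi ht,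
    setIntegral_union (Ioc_disjoint_Ioi le_rfl) measurableSet_Ioi
      (hi.mono_set Ioc_subset_Ioi_self) (hi.mono_set (Ioi_subset_Ioi ht))]
  ring

theorem single (t : ℝ) (ht : 0 ≤ t) :
    Tendsto (fun n : ℕ => av n ⌊t * rr n⌋₊ / (rr n * rr n)) atTop (𝓝 0) := by
  obtain ⟨c, C, hc, hC, hle⟩ := ws_le
  have hlim : Tendsto (fun n : ℕ => C * (t + 1) * (1 / rr n)) atTop (𝓝 0) := by
    have := inv_tend.const_mul (C * (t+1))
    rwa [mul_zero] at this
  refine squeeze_zero' ?_ ?_ hlim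
  · refine Eventually.of_forall fun n => ?_
    exact div_nonneg (av_nonneg _ _) (mul_nonneg (rr_nonneg n) (rr_nonneg n))
  · filter_upwards [eventually_ge_atTop 1] with n hn
    have hr1 := rr_one hn
    have hr0 : 0 < rr n := by linarith
    have h1 : av n ⌊t * rr n⌋₊ ≤ C * ((t + 1) * rr n) := by
      unfold av
      split_ifs with h
      · refine (hle n _ hn h).trans ?_
        have h2 : ((⌊t * rr n⌋₊ + 1 : ℕ) : ℝ) ≤ (t + 1) * rr n := by
          push_cast
          have := Nat.floor_le (mul_nonneg ht hr0.le)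
          linarith
        have h3 : Real.exp (-(c * ((⌊t * rr n⌋₊ + 1 : ℕ) : ℝ)^3 / (n:ℝ)^2)) ≤ 1 := by
          rw [Real.exp_le_one_iff]
          have : 0 ≤ c * ((⌊t * rr n⌋₊ + 1 : ℕ) : ℝ)^3 / (n:ℝ)^2 := by positivity
          linarith
        calc C * ((⌊t * rr n⌋₊ + 1 : ℕ) : ℝ) * Real.exp (-(c * ((⌊t * rr n⌋₊ + 1 : ℕ) : ℝ)^3 / (n:ℝ)^2))
            ≤ C * ((⌊t * rr n⌋₊ + 1 : ℕ) : ℝ) * 1 :=
              mul_le_mul_of_nonneg_left h3 (by positivity)
          _ ≤ C * ((t + 1) * rr n) := by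
              rw [mul_one]
              exact mul_le_mul_of_nonneg_left h2 hC.le
      · positivity
    rw [div_le_iff₀ (by positivity)]
    refine h1.trans (le_of_eq ?_)
    field_simp

end E2

open E2 in
/-- the limit of the distribution function -/
theorem formula_tendsto (t : ℝ) (ht : 0 ≤ t) :
    Tendsto (fun n : ℕ => (∑ k ∈ (Finset.range n).filter
      (fun k : ℕ => (k : ℝ) ≤ t * rr n), av n k) / wt n) atTop
      (𝓝 (3 / Real.Gamma (2/3) * ∫ x in (0:ℝ)..t, x * Real.exp (-x^3))) := by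
  have h0 := riem0
  have ht' := riem2 t ht
  have hG : 0 < Real.Gamma (2/3) := Real.Gamma_pos_of_pos (by norm_num)
  have h2 := ((h0.sub ht').add (E2.single t ht)).div h0 (by positivity)
  have e0 : ∫ y in Ioi (0:ℝ), y * Real.exp (-y^3) = Real.Gamma (2/3) / 3 := by
    have := int_val 0
    simp only [pow_zero, one_mul, Nat.cast_zero, zero_add] at this
    exact this
  have e1 : (Real.Gamma (2/3) / 3 - (∫ y in Ioi t, y * Real.exp (-y^3)) + 0) / (Real.Gamma (2/3) / 3)
      = 3 / Real.Gamma (2/3) * ∫ x in (0:ℝ)..t, x * Real.exp (-x^3) := by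
    rw [← int_split t ht, e0]
    field_simp
    ring
  rw [e1] at h2
  refine h2.congr' ?_
  filter_upwards [eventually_ge_atTop 1] with n hn
  have hr : rr n ≠ 0 := by
    have := rr_one hn
    positivity
  have htot : wt n ≠ 0 := (wt_pos hn).ne'
  have e2 : (Finset.range n).filter (fun k : ℕ => (k : ℝ) ≤ t * rr n)
      = (Finset.range n).filter (fun k => k ≤ ⌊t * rr n⌋₊) := by
    ext k
    rw [Finset.mem_filter, Finset.mem_filter, Nat.le_floor_iff (mul_nonneg ht (rr_nonneg n))]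
  rw [e2, E2.split]
  simp only [Pi.div_apply]
  field_simp

open E2 in
/-- moments of the formula -/
theorem formula_moments (m : ℕ) :
    Tendsto (fun n : ℕ => (∑ k ∈ Finset.range n, ((k:ℝ) / rr n)^m * (av n k / wt n))) atTop
      (𝓝 (Real.Gamma (((m:ℝ)+2)/3) / Real.Gamma (2/3))) := by
  have hG : 0 < Real.Gamma (2/3) := Real.Gamma_pos_of_pos (by norm_num)
  have h1 := (riemm m).div riem0 (by positivity)
  have h2 : Real.Gamma (((m:ℝ)+2)/3) / 3 / (Real.Gamma (2/3) / 3) =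
      Real.Gamma (((m:ℝ)+2)/3) / Real.Gamma (2/3) := by
    field_simp
  rw [h2] at h1
  refine h1.congr' ?_
  filter_upwards [eventually_ge_atTop 1] with n hn
  have hr : rr n ≠ 0 := by
    have := rr_one hn
    positivity
  have htot : wt n ≠ 0 := (wt_pos hn).ne'
  have hs : ∑ k ∈ Finset.range n, ((k:ℝ) / rr n)^m * (av n k / wt n) =
      (∑ k ∈ Finset.range n, (k:ℝ)^m * av n k) / (rr n ^ m * wt n) := by
    rw [Finset.sum_div]
    refine Finset.sum_congr rfl fun k _ => ?_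
    rw [div_pow, div_mul_div_comm]
  rw [hs]
  simp only [Pi.div_apply]
  field_simp

/-! ### percolation -/

theorem exact_law_av {n : ℕ} (hn : 1 ≤ n) (k : ℕ) (hk : k < n) :
    perc.real {ω | (touchE (2*n) ω).ncard = k} = av n k / wt n := by
  rw [exact_lawE hn k (by omega)]
  unfold av
  rw [if_pos (by omega)]

/-- distribution function -/
theorem exact_cdfE {n : ℕ} (hn : 1 ≤ n) (m : ℝ) :
    perc.real {ω | (((touchE (2*n) ω).ncard : ℕ) : ℝ) ≤ m} =
      (∑ k ∈ (Finset.range n).filter (fun k : ℕ => (k : ℝ) ≤ m), av n k) / wt n := by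
  have h1 : {ω : Conf | (((touchE (2*n) ω).ncard : ℕ) : ℝ) ≤ m} =
      ⋃ k ∈ (Finset.range n).filter (fun k : ℕ => (k : ℝ) ≤ m),
        {ω : Conf | (touchE (2*n) ω).ncard = k} := by
    ext ω
    simp only [Set.mem_ofPred_eq, Set.mem_iUnion, Finset.mem_filter, Finset.mem_range, exists_prop]
    constructor
    · intro h
      have := touchE_le n ω
      exact ⟨_, ⟨by omega, h⟩, rfl⟩
    · rintro ⟨k, ⟨_, h⟩, rfl⟩
      exact h
  rw [h1, measureReal_biUnion_finset ?_
    (fun k _ => measurable_touchE (L := 2*n) (by omega) (by omega) k), Finset.sum_div]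
  · refine Finset.sum_congr rfl fun k hk => ?_
    rw [Finset.mem_filter, Finset.mem_range] at hk
    exact exact_law_av hn k hk.1
  · intro i _ j _ hij
    rw [Function.onFun, Set.disjoint_left]
    intro ω h h'
    simp only [Set.mem_ofPred_eq] at h h'
    exact hij (h.symm.trans h')

theorem limit_lawE (t : ℝ) (ht : 0 ≤ t) :
    Tendsto (fun n : ℕ => perc.real {ω | (((touchE (2*n) ω).ncard : ℕ) : ℝ) ≤
      t * (2*(n:ℝ))^((2:ℝ)/3)}) atTop
      (𝓝 (3 / Real.Gamma (2/3) * ∫ x in (0:ℝ)..t, x * Real.exp (-x^3))) := by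
  refine (formula_tendsto t ht).congr' ?_
  filter_upwards [eventually_ge_atTop 1] with n hn
  rw [exact_cdfE hn]
  rfl

/-- Convergence of the moments. -/
theorem momentsE (m : ℕ) :
    Tendsto (fun n : ℕ => ∫ ω, (((touchE (2*n) ω).ncard : ℝ) / (2*(n:ℝ))^((2:ℝ)/3))^m ∂perc)
      atTop (𝓝 (Real.Gamma (((m:ℝ)+2)/3) / Real.Gamma (2/3))) := by
  refine (formula_moments m).congr' ?_
  filter_upwards [eventually_ge_atTop 1] with n hn
  have hL : (2*n) % 2 = 0 := by omega
  have hL2 : 2 ≤ 2*n := by omega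
  set f : ℕ → ℝ := fun k => ((k:ℝ) / rr n)^m with hf
  have h1 : ∀ ω : Conf, f ((touchE (2*n) ω).ncard) = ∑ k ∈ Finset.range n,
      Set.indicator {ω : Conf | (touchE (2*n) ω).ncard = k} (fun _ => f k) ω := by
    intro ω
    rw [Finset.sum_eq_single (touchE (2*n) ω).ncard]
    · rw [Set.indicator_of_mem]
      rfl
    · intro k _ hk
      rw [Set.indicator_of_notMem]
      exact fun h => hk h.symm
    · intro h
      have := touchE_le n ω
      exact absurd (Finset.mem_range.2 (by omega)) h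
  have h2 : ∫ ω, f ((touchE (2*n) ω).ncard) ∂perc =
      ∑ k ∈ Finset.range n, f k * (av n k / wt n) := by
    simp_rw [h1]
    rw [integral_finsetSum]
    · refine Finset.sum_congr rfl fun k hk => ?_
      rw [Finset.mem_range] at hk
      rw [integral_indicator (measurable_touchE hL hL2 k), setIntegral_const,
        exact_law_av hn k hk, smul_eq_mul, mul_comm]
    · intro k _
      exact (integrable_const _).indicator (measurable_touchE hL hL2 k)
  exact h2.symm

end Pool.Agent.Helper38.EW
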